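import Pool.Agent.V11251.SI.Prob

set_option autoImplicit false

/-! From the averages of `log p` over a few short intervals to the numbers of primes in all of them. -/

namespace Pool.Agent.V11251.SI
open Finset Filter
open Pool.Agent.W301.SS
open Pool.Agent.TH646.TT
open Pool.Agent.TH894.LH (det_one)

/-- the good shifts: the primes to the right of the points `a + x`, `a ∈ A` -/
def Gd (ε : ℝ) (κ N : ℕ) (A : Finset ℕ) (x : ℕ) : Prop :=
  ∀ y : ℕ, Real.log N ^ κ ≤ y → y ≤ N →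
    |cs A x y * Real.log N - A.card * y| ≤ ε * (A.card * y) ∧ (1 / 4 - ε) * A.card ≤ ((GG A N x y ε).card : ℝ)

/-- the number of the points of the grid -/
noncomputable def Jm (N : ℕ) : ℕ := ⌈Real.log N ^ 2⌉₊ + 2

/-- the grid -/
noncomputable def JJ (η : ℝ) (N : ℕ) : Finset ℕ :=
  (range (Jm N)).image (fun j => gr η j) ∪ (range (Jm N)).image (fun j => gr η j + 1)

lemma JJ_card (η : ℝ) (N : ℕ) (hN : 8 ≤ Real.log N) : ((JJ η N).card : ℝ) ≤ Real.log N ^ 3 := by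
  have e1 : (JJ η N).card ≤ Jm N + Jm N := by
    unfold JJ
    refine (card_union_le _ _).trans (add_le_add ?_ ?_)
    · exact card_image_le.trans (le_of_eq (card_range _))
    · exact card_image_le.trans (le_of_eq (card_range _))
  have e2 : (Jm N : ℝ) ≤ Real.log N ^ 2 + 3 := by
    unfold Jm
    have := Nat.ceil_lt_add_one (show 0 ≤ Real.log N ^ 2 by positivity)
    push_cast
    linarith
  have e3 : ((JJ η N).card : ℝ) ≤ ((Jm N + Jm N : ℕ) : ℝ) := by exact_mod_cast e1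
  push_cast at e3
  have e4 : Real.log N ^ 3 = Real.log N * Real.log N ^ 2 := by ring
  have e5 : 64 ≤ Real.log N ^ 2 := by nlinarith
  nlinarith

/-- from few averages to all intervals -/
lemma det (C κ₁ : ℕ) (ε : ℝ) (hε : 0 < ε) (hε1 : ε ≤ 1 / 4) : ∃ N₀ : ℕ, ∀ N, N₀ ≤ N → ∀ y0 : ℕ, 1 ≤ y0 →
    (y0 : ℝ) ≤ Real.log N ^ κ₁ → ∀ A : Finset ℕ, A ⊆ Icc 1 N → (N : ℝ) ≤ A.card * Real.log N ^ C → ∀ x : ℕ, 1 ≤ x → x ≤ N →
    (∀ J ∈ JJ (ε / 64) N, 1 ≤ J → J * y0 ≤ 2 * N → |∑ a ∈ A, av (J * y0) (a + x) - A.card| ≤ (ε / 256) * A.card) →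
    Gd ε (C + κ₁ + 22) N A x := by
  obtain ⟨η, hη⟩ : ∃ η, η = ε / 64 := ⟨_, rfl⟩
  have hη0 : 0 < η := by rw [hη]; positivity
  have hη1 : η ≤ 1 / 64 := by rw [hη]; linarith
  obtain ⟨n1, h1⟩ := eventually_atTop.1 (det_one C (2 * η) (by linarith) (by linarith))
  obtain ⟨n2, h2⟩ := eventually_atTop.1 (good_many C ε hε hε1)
  have hlr : 0 < Real.log (1 + η) := Real.log_pos (by linarith)
  obtain ⟨n3, h3⟩ := eventually_atTop.1 (ev_L (2 / η + 1 / Real.log (1 + η) + 16))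
  refine ⟨n1 + n2 + n3 + 1, fun N hN y0 hy01 hy0L A hA hAN x hx1 hx2 hJ y hy1 hy2 => ?_⟩
  have hL := h3 N (by omega)
  obtain ⟨L, hLd⟩ : ∃ L, L = Real.log (N : ℝ) := ⟨_, rfl⟩
  have hd1 : 0 < 2 / η := by positivity
  have hd2 : 0 < 1 / Real.log (1 + η) := by positivity
  have hN0 : (0 : ℝ) < N := by exact_mod_cast (by omega : 0 < N)
  rw [← hLd] at hL
  have hL16 : 16 ≤ L := by linarith
  have hL0 : 0 < L := by linarith
  have hL1 : 1 ≤ L := by linarith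
  have hy0r : (1 : ℝ) ≤ y0 := by exact_mod_cast hy01
  have hA0 : (0 : ℝ) < A.card := by
    by_contra hcon
    have h7 : (A.card : ℝ) = 0 := le_antisymm (not_lt.1 hcon) (Nat.cast_nonneg _)
    rw [h7, zero_mul] at hAN
    linarith
  have hgood : ∀ J ∈ JJ (ε / 64) N, 1 ≤ J → J * y0 ≤ 2 * N →
      |cs A x (J * y0) * Real.log (N : ℝ) - A.card * ((J * y0 : ℕ) : ℝ)| ≤ (2 * η) * (A.card * ((J * y0 : ℕ) : ℝ)) := by
    intro J hJJ hJ1 hJ2
    have e5 : 1 ≤ J * y0 := Nat.mul_pos (by omega) (by omega)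
    refine h1 N (by omega) A hA hAN x hx2 (J * y0) e5 hJ2 ((hJ J hJJ hJ1 hJ2).trans (le_of_eq ?_))
    rw [hη]
    ring
  rw [← hLd] at hy1 hy0L
  -- the position in the grid
  obtain ⟨z, hz⟩ : ∃ z, z = y / y0 := ⟨_, rfl⟩
  have hzy : z * y0 ≤ y := by rw [hz]; exact Nat.div_mul_le_self y y0
  have hyz : y < (z + 1) * y0 := by
    rw [hz]
    have := Nat.lt_div_mul_add (a := y) (b := y0) (by omega)
    linarith
  have hκK : L * y0 ≤ y := by
    refine le_trans ?_ hy1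
    calc L * y0 ≤ L * L ^ κ₁ := mul_le_mul_of_nonneg_left hy0L hL0.le
      _ = L ^ (κ₁ + 1) := by rw [pow_succ]; ring
      _ ≤ _ := pow_le_pow_right₀ hL1 (by omega)
  have hy0η : (y0 : ℝ) ≤ η / 2 * y := by
    have e9 : 2 / η ≤ L := by linarith
    rw [div_le_iff₀ hη0] at e9
    nlinarith
  have hzyr : (z : ℝ) * y0 ≤ y := by exact_mod_cast hzy
  have hyzr : (y : ℝ) < ((z : ℝ) + 1) * y0 := by exact_mod_cast hyz
  have hzη : 1 / η ≤ z := by
    have e1 : L < z + 1 := by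
      have : L * y0 < ((z : ℝ) + 1) * y0 := lt_of_le_of_lt hκK hyzr
      exact lt_of_mul_lt_mul_right this (by linarith)
    have e2 : 2 / η = 1 / η + 1 / η := by ring
    have e3 : 64 ≤ 1 / η := by rw [le_div_iff₀ hη0]; linarith
    linarith
  have hz1 : 1 ≤ z := by
    have e3 : 64 ≤ 1 / η := by rw [le_div_iff₀ hη0]; linarith
    have : (1 : ℝ) ≤ z := by linarith
    exact_mod_cast this
  obtain ⟨j, g1, g2, g3, g4, g5⟩ := gr_mem hη0 (by linarith) z hz1 hzη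
  have hjJ : j + 1 < Jm N := by
    have e1 : (j : ℝ) ≤ L / Real.log (1 + η) := by
      rw [le_div_iff₀ hlr, ← Real.log_pow, hLd]
      apply Real.log_le_log (by positivity)
      refine g1.trans ?_
      have : z ≤ N := by
        have : z * 1 ≤ z * y0 := Nat.mul_le_mul_left _ hy01
        omega
      exact_mod_cast this
    have e2 : L / Real.log (1 + η) ≤ L ^ 2 := by
      calc L / Real.log (1 + η) = L * (1 / Real.log (1 + η)) := by ring
        _ ≤ L * L := mul_le_mul_of_nonneg_left (by linarith) hL0.le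
        _ = L ^ 2 := by ring
    have e3 : j ≤ ⌈Real.log N ^ 2⌉₊ := by
      have : (j : ℝ) ≤ (⌈Real.log N ^ 2⌉₊ : ℝ) := by
        rw [← hLd]
        exact (e1.trans e2).trans (Nat.le_ceil _)
      exact_mod_cast this
    unfold Jm
    omega
  have hJ1 : gr η j ∈ JJ (ε / 64) N := by
    rw [JJ, ← hη, mem_union]
    left
    exact mem_image_of_mem _ (mem_range.2 (by omega))
  have hJ2 : gr η (j + 1) + 1 ∈ JJ (ε / 64) N := by
    rw [JJ, ← hη, mem_union]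
    right
    exact mem_image.2 ⟨j + 1, mem_range.2 hjJ, rfl⟩
  have hzr : (0 : ℝ) ≤ z := Nat.cast_nonneg _
  -- the two lengths
  have l1 : gr η j * y0 ≤ y := (Nat.mul_le_mul_right _ g2).trans hzy
  have l2 : y ≤ (gr η (j + 1) + 1) * y0 := hyz.le.trans (Nat.mul_le_mul_right _ (by omega))
  have l3 : (((gr η (j + 1) + 1) * y0 : ℕ) : ℝ) ≤ (1 + 2 * η) * y := by
    push_cast
    have e1 : ((gr η (j + 1) : ℝ) + 1) * y0 ≤ ((1 + η) * z + 1) * y0 := by gcongr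
    have e2 : ((1 + η) * (z : ℝ) + 1) * y0 = (1 + η) * (z * y0) + y0 := by ring
    have e3 : (1 + η) * ((z : ℝ) * y0) ≤ (1 + η) * y := mul_le_mul_of_nonneg_left hzyr (by linarith)
    have e4 : η / 2 * (y : ℝ) ≤ η * y := by
      have : (0 : ℝ) ≤ y := Nat.cast_nonneg _
      nlinarith
    linarith
  have l4 : (1 - 2 * (2 * η)) * (y : ℝ) ≤ ((gr η j * y0 : ℕ) : ℝ) := by
    push_cast
    have e1 : ((1 - 2 * η) * (z : ℝ)) * y0 ≤ (gr η j : ℝ) * y0 := by gcongr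
    have e2 : (y : ℝ) - y0 ≤ z * y0 := by linarith
    have e3 : (1 - 2 * η) * ((y : ℝ) - y0) ≤ (1 - 2 * η) * (z * y0) := mul_le_mul_of_nonneg_left e2 (by linarith)
    have e4 : (1 - 2 * η) * (z * (y0 : ℝ)) = ((1 - 2 * η) * (z : ℝ)) * y0 := by ring
    have e5 : (0 : ℝ) ≤ y := Nat.cast_nonneg _
    nlinarith
  have hgj1 : 1 ≤ gr η j := by
    unfold gr
    apply Nat.le_floor
    push_cast
    exact one_le_pow₀ (by linarith)
  have m1 := hgood _ hJ1 hgj1 (by omega)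
  have m2 := hgood _ hJ2 (by omega) (by
    have e1 : (((gr η (j + 1) + 1) * y0 : ℕ) : ℝ) ≤ 2 * y := by
      refine l3.trans ?_
      have : (0 : ℝ) ≤ y := Nat.cast_nonneg _
      nlinarith
    have e2 : (gr η (j + 1) + 1) * y0 ≤ 2 * y := by exact_mod_cast e1
    omega)
  have hlogX0 : 0 < Real.log (N : ℝ) := by rw [← hLd]; exact hL0
  have m3 := interp A x y (gr η j * y0) ((gr η (j + 1) + 1) * y0) (Real.log (N : ℝ)) (2 * η) hlogX0 (by linarith) (by linarith)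
    l1 l2 l3 l4 m1 m2
  have e16 : 8 * (2 * η) = ε / 4 := by rw [hη]; ring
  rw [e16] at m3
  have hyC : Real.log (N : ℝ) ^ (C + 20) ≤ y := by
    refine le_trans ?_ hy1
    rw [← hLd]
    exact pow_le_pow_right₀ hL1 (by omega)
  have m4 := h2 N (by omega) A hA hAN x (mem_Icc.2 ⟨hx1, hx2⟩) y hyC m3
  refine ⟨m3.trans ?_, m4⟩
  apply mul_le_mul_of_nonneg_right _ (by positivity)
  linarith

open Classical in
/-- few shifts are exceptional for the averages -/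
def AV (N T U κ₀ κ₁ : ℕ) {α : Type} (Ω : Finset α) (v : α → ℤ) : Prop :=
  ∀ y : ℕ, Real.log N ^ κ₀ ≤ y → (y : ℝ) ≤ Real.log N ^ κ₁ → ∀ I : Finset (ℕ × ℕ), (I.card : ℝ) ≤ Real.log N ^ T →
    ∀ A : ℕ → Finset ℕ, (∀ i ∈ I, 1 ≤ i.2 ∧ ∀ a ∈ A i.1, 1 ≤ a ∧ a + i.2 * y ≤ 3 * N) →
    ∀ E : α → Prop, (∀ ω ∈ Ω, E ω → 0 ≤ v ω ∧ ∃ i ∈ I,
      N / Real.log N ^ U < |∑ a ∈ A i.1, av (i.2 * y) (a + (v ω).toNat) - (A i.1).card|) →
    ((Ω.filter E).card : ℝ) ≤ Ω.card / Real.log N ^ U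

open Classical in
/-- few shifts are exceptional -/
theorem good_av (T U κ₀ : ℕ) (ε : ℝ) (hε : 0 < ε) (hε1 : ε ≤ 1 / 4) : ∃ κ' N₀ : ℕ, ∀ N, N₀ ≤ N →
    ∀ {α : Type} (Ω : Finset α) (v : α → ℤ), AV N (T + 3) (U + T + 1) κ₀ (κ₀ + 1) Ω v →
    ∀ L : ℕ, (L : ℝ) ≤ Real.log N ^ T → ∀ A : ℕ → Finset ℕ, (∀ l < L, A l ⊆ Icc 1 N ∧ (N : ℝ) ≤ (A l).card * Real.log N ^ T) →
    ((Ω.filter (fun ω => 1 ≤ v ω ∧ v ω ≤ N ∧ ∃ l < L, ¬ Gd ε κ' N (A l) (v ω).toNat)).card : ℝ) ≤ Ω.card / Real.log N ^ U := by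
  obtain ⟨n1, h1⟩ := det T (κ₀ + 1) ε hε hε1
  obtain ⟨n3, h3⟩ := eventually_atTop.1 (ev_L (256 / ε + 8))
  refine ⟨T + (κ₀ + 1) + 22, n1 + n3 + 1, fun N hN α Ω v hav L hL A hA => ?_⟩
  have hLN := h3 N (by omega)
  have hd : 0 < 256 / ε := by positivity
  have hL8 : 8 ≤ Real.log N := by linarith
  have hL0 : 0 < Real.log N := by linarith
  have hL1 : 1 ≤ Real.log N := by linarith
  have hN0 : (0 : ℝ) < N := by exact_mod_cast (by omega : 0 < N)
  obtain ⟨y0, hy0⟩ : ∃ y0, y0 = ⌈Real.log N ^ κ₀⌉₊ := ⟨_, rfl⟩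
  have hyl : Real.log N ^ κ₀ ≤ y0 := by rw [hy0]; exact Nat.le_ceil _
  have hpow1 : 1 ≤ Real.log N ^ κ₀ := one_le_pow₀ hL1
  have hyu : (y0 : ℝ) ≤ Real.log N ^ (κ₀ + 1) := by
    have := Nat.ceil_lt_add_one (show 0 ≤ Real.log N ^ κ₀ by positivity)
    rw [← hy0] at this
    rw [pow_succ]
    nlinarith
  have hy01 : 1 ≤ y0 := by
    have : (1 : ℝ) ≤ y0 := hpow1.trans hyl
    exact_mod_cast this
  obtain ⟨I, hI⟩ : ∃ I : Finset (ℕ × ℕ), I = (range L) ×ˢ ((JJ (ε / 64) N).filter (fun J => 1 ≤ J ∧ J * y0 ≤ 2 * N)) := ⟨_, rfl⟩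
  have hIc : (I.card : ℝ) ≤ Real.log N ^ (T + 3) := by
    rw [hI, card_product, card_range, Nat.cast_mul, pow_add]
    apply mul_le_mul hL _ (Nat.cast_nonneg _) (by positivity)
    refine le_trans ?_ (JJ_card (ε / 64) N hL8)
    exact_mod_cast card_filter_le _ _
  have hIA : ∀ i ∈ I, 1 ≤ i.2 ∧ ∀ a ∈ A i.1, 1 ≤ a ∧ a + i.2 * y0 ≤ 3 * N := by
    intro i hi
    rw [hI, mem_product, mem_range, mem_filter] at hi
    refine ⟨hi.2.2.1, fun a ha => ?_⟩
    have := mem_Icc.1 ((hA i.1 hi.1).1 ha)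
    have h5 := hi.2.2.2
    omega
  have key := hav y0 hyl hyu I hIc A hIA
    (fun ω => 1 ≤ v ω ∧ v ω ≤ N ∧ ∃ l < L, ¬ Gd ε (T + (κ₀ + 1) + 22) N (A l) (v ω).toNat) (by
    rintro ω hω ⟨hv1, hv2, l, hl, hbad⟩
    refine ⟨by linarith, ?_⟩
    by_contra hcon
    push Not at hcon
    apply hbad
    have hx : (((v ω).toNat : ℕ) : ℤ) = v ω := Int.toNat_of_nonneg (by linarith)
    refine h1 N (by omega) y0 hy01 hyu (A l) (hA l hl).1 (hA l hl).2 (v ω).toNat (by omega) (by omega) ?_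
    intro J hJ hJ1 hJ2
    refine (hcon (l, J) ?_).trans ?_
    · rw [hI, mem_product, mem_range, mem_filter]
      exact ⟨hl, hJ, hJ1, hJ2⟩
    · rw [div_le_iff₀ (by positivity)]
      refine (hA l hl).2.trans ?_
      have e1 : 1 ≤ ε / 256 * Real.log N ^ (U + 1) := by
        have e2 : Real.log N ≤ Real.log N ^ (U + 1) := le_self_pow₀ hL1 (by omega)
        have e3 : 256 / ε ≤ Real.log N := by linarith
        rw [div_le_iff₀ hε] at e3
        nlinarith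
      calc ((A l).card : ℝ) * Real.log N ^ T = ((A l).card : ℝ) * Real.log N ^ T * 1 := (mul_one _).symm
        _ ≤ ((A l).card : ℝ) * Real.log N ^ T * (ε / 256 * Real.log N ^ (U + 1)) := mul_le_mul_of_nonneg_left e1 (by positivity)
        _ = _ := by
            rw [show U + T + 1 = T + (U + 1) by ring, pow_add]
            ring)
  have key2 : (Ω.card : ℝ) / Real.log N ^ (U + T + 1) ≤ Ω.card / Real.log N ^ U := by
    apply div_le_div_of_nonneg_left (Nat.cast_nonneg _) (by positivity)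
    exact pow_le_pow_right₀ hL1 (by omega)
  have key4 : ∀ (p : α → Prop) (i1 i2 : DecidablePred p), (@Finset.filter α p i1 Ω).card = (@Finset.filter α p i2 Ω).card := by
    intro p i1 i2
    rw [Subsingleton.elim i1 i2]
  refine le_trans (le_of_eq ?_) (key.trans key2)
  exact congrArg Nat.cast (key4 _ _ _)

end Pool.Agent.V11251.SI
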