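import Pool.Agent.V11251.SI.Joint

set_option autoImplicit false

/-! From products of averages of `log p` to the numbers of primes in several short intervals at once. -/

namespace Pool.Agent.V11251.SI
open Finset Filter
open Pool.Agent.W301.SS
open Pool.Agent.TH646.TT

/-- the average is at most the number of primes times the logarithm -/
lemma av_up (y n X : ℕ) (hy : 1 ≤ y) (h : n + y ≤ X) : av y n ≤ pn n y * Real.log (X : ℝ) / y := by
  have hy0 : (0 : ℝ) < y := by exact_mod_cast hy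
  unfold av
  apply div_le_div_of_nonneg_right _ hy0.le
  rw [pn_eq, sum_mul]
  apply sum_le_sum
  intro j hj
  rw [mem_Ioc] at hj
  unfold om
  split_ifs with hp
  · rw [one_mul]
    exact Real.log_le_log (by exact_mod_cast hp.pos) (by exact_mod_cast (by omega : n + j ≤ X))
  · rw [zero_mul]

/-- the number of primes times the logarithm is at most the average -/
lemma av_low (y n X : ℕ) (hy : 1 ≤ y) (hX : 1 ≤ X) (h : X ≤ n) : pn n y * Real.log (X : ℝ) / y ≤ av y n := by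
  have hy0 : (0 : ℝ) < y := by exact_mod_cast hy
  unfold av
  apply div_le_div_of_nonneg_right _ hy0.le
  rw [pn_eq, sum_mul]
  apply sum_le_sum
  intro j hj
  rw [mem_Ioc] at hj
  unfold om
  split_ifs with hp
  · rw [one_mul]
    exact Real.log_le_log (by exact_mod_cast hX) (by exact_mod_cast (by omega : X ≤ n + j))
  · rw [zero_mul]

/-- the position in the grid -/
lemma grid_pos (κ₁ : ℕ) (η : ℝ) (hη0 : 0 < η) (hη1 : η ≤ 1 / 64) : ∃ N₀ : ℕ, ∀ N, N₀ ≤ N → ∀ y0 : ℕ, 1 ≤ y0 →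
    (y0 : ℝ) ≤ Real.log N ^ κ₁ → ∀ y : ℕ, Real.log N ^ (κ₁ + 1) ≤ y → y ≤ N → ∃ a b : ℕ, a ∈ JJ η N ∧ b ∈ JJ η N ∧ 1 ≤ a ∧ 1 ≤ b ∧
      a * y0 ≤ y ∧ y ≤ b * y0 ∧ ((b * y0 : ℕ) : ℝ) ≤ (1 + 2 * η) * y ∧ (1 - 4 * η) * y ≤ ((a * y0 : ℕ) : ℝ) ∧
      a * y0 ≤ 2 * N ∧ b * y0 ≤ 2 * N := by
  have hlr : 0 < Real.log (1 + η) := Real.log_pos (by linarith)
  obtain ⟨n3, h3⟩ := eventually_atTop.1 (ev_L (2 / η + 1 / Real.log (1 + η) + 16))
  refine ⟨n3 + 1, fun N hN y0 hy01 hy0L y hy1 hy2 => ?_⟩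
  have hL := h3 N (by omega)
  obtain ⟨L, hLd⟩ : ∃ L, L = Real.log (N : ℝ) := ⟨_, rfl⟩
  have hd1 : 0 < 2 / η := by positivity
  have hd2 : 0 < 1 / Real.log (1 + η) := by positivity
  have hN0 : (0 : ℝ) < N := by exact_mod_cast (by omega : 0 < N)
  rw [← hLd] at hL
  have hL16 : 16 ≤ L := by linarith
  have hL0 : 0 < L := by linarith
  have hL1 : 1 ≤ L := by linarith
  have hy0r : (1 : ℝ) ≤ y0 := by exact_mod_cast hy01
  rw [← hLd] at hy1 hy0L
  obtain ⟨z, hz⟩ : ∃ z, z = y / y0 := ⟨_, rfl⟩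
  have hzy : z * y0 ≤ y := by rw [hz]; exact Nat.div_mul_le_self y y0
  have hyz : y < (z + 1) * y0 := by
    rw [hz]
    have := Nat.lt_div_mul_add (a := y) (b := y0) (by omega)
    linarith
  have hκK : L * y0 ≤ y := by
    refine le_trans ?_ hy1
    calc L * y0 ≤ L * L ^ κ₁ := mul_le_mul_of_nonneg_left hy0L hL0.le
      _ = L ^ (κ₁ + 1) := by rw [pow_succ]; ring
  have hy0η : (y0 : ℝ) ≤ η / 2 * y := by
    have e9 : 2 / η ≤ L := by linarith
    rw [div_le_iff₀ hη0] at e9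
    nlinarith
  have hzyr : (z : ℝ) * y0 ≤ y := by exact_mod_cast hzy
  have hyzr : (y : ℝ) < ((z : ℝ) + 1) * y0 := by exact_mod_cast hyz
  have hzη : 1 / η ≤ z := by
    have e1 : L < z + 1 := by
      have : L * y0 < ((z : ℝ) + 1) * y0 := lt_of_le_of_lt hκK hyzr
      exact lt_of_mul_lt_mul_right this (by linarith)
    have e2 : 2 / η = 1 / η + 1 / η := by ring
    have e3 : 64 ≤ 1 / η := by rw [le_div_iff₀ hη0]; linarith
    linarith
  have hz1 : 1 ≤ z := by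
    have e3 : 64 ≤ 1 / η := by rw [le_div_iff₀ hη0]; linarith
    have : (1 : ℝ) ≤ z := by linarith
    exact_mod_cast this
  obtain ⟨j, g1, g2, g3, g4, g5⟩ := gr_mem hη0 (by linarith) z hz1 hzη
  have hjJ : j + 1 < Jm N := by
    have e1 : (j : ℝ) ≤ L / Real.log (1 + η) := by
      rw [le_div_iff₀ hlr, ← Real.log_pow, hLd]
      apply Real.log_le_log (by positivity)
      refine g1.trans ?_
      have : z ≤ N := by
        have : z * 1 ≤ z * y0 := Nat.mul_le_mul_left _ hy01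
        omega
      exact_mod_cast this
    have e2 : L / Real.log (1 + η) ≤ L ^ 2 := by
      calc L / Real.log (1 + η) = L * (1 / Real.log (1 + η)) := by ring
        _ ≤ L * L := mul_le_mul_of_nonneg_left (by linarith) hL0.le
        _ = L ^ 2 := by ring
    have e3 : j ≤ ⌈Real.log N ^ 2⌉₊ := by
      have : (j : ℝ) ≤ (⌈Real.log N ^ 2⌉₊ : ℝ) := by
        rw [← hLd]
        exact (e1.trans e2).trans (Nat.le_ceil _)
      exact_mod_cast this
    unfold Jm
    omega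
  have hJ1 : gr η j ∈ JJ η N := by
    rw [JJ, mem_union]
    left
    exact mem_image_of_mem _ (mem_range.2 (by omega))
  have hJ2 : gr η (j + 1) + 1 ∈ JJ η N := by
    rw [JJ, mem_union]
    right
    exact mem_image.2 ⟨j + 1, mem_range.2 hjJ, rfl⟩
  have hzr : (0 : ℝ) ≤ z := Nat.cast_nonneg _
  have l1 : gr η j * y0 ≤ y := (Nat.mul_le_mul_right _ g2).trans hzy
  have l2 : y ≤ (gr η (j + 1) + 1) * y0 := hyz.le.trans (Nat.mul_le_mul_right _ (by omega))
  have l3 : (((gr η (j + 1) + 1) * y0 : ℕ) : ℝ) ≤ (1 + 2 * η) * y := by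
    push_cast
    have e1 : ((gr η (j + 1) : ℝ) + 1) * y0 ≤ ((1 + η) * z + 1) * y0 := by gcongr
    have e2 : ((1 + η) * (z : ℝ) + 1) * y0 = (1 + η) * (z * y0) + y0 := by ring
    have e3 : (1 + η) * ((z : ℝ) * y0) ≤ (1 + η) * y := mul_le_mul_of_nonneg_left hzyr (by linarith)
    have e4 : η / 2 * (y : ℝ) ≤ η * y := by
      have : (0 : ℝ) ≤ y := Nat.cast_nonneg _
      nlinarith
    linarith
  have l4 : (1 - 4 * η) * (y : ℝ) ≤ ((gr η j * y0 : ℕ) : ℝ) := by
    push_cast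
    have e1 : ((1 - 2 * η) * (z : ℝ)) * y0 ≤ (gr η j : ℝ) * y0 := by gcongr
    have e2 : (y : ℝ) - y0 ≤ z * y0 := by linarith
    have e3 : (1 - 2 * η) * ((y : ℝ) - y0) ≤ (1 - 2 * η) * (z * y0) := mul_le_mul_of_nonneg_left e2 (by linarith)
    have e4 : (1 - 2 * η) * (z * (y0 : ℝ)) = ((1 - 2 * η) * (z : ℝ)) * y0 := by ring
    have e5 : (0 : ℝ) ≤ y := Nat.cast_nonneg _
    nlinarith
  have hgj1 : 1 ≤ gr η j := by
    unfold gr
    apply Nat.le_floor
    push_cast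
    exact one_le_pow₀ (by linarith)
  refine ⟨gr η j, gr η (j + 1) + 1, hJ1, hJ2, hgj1, by omega, l1, l2, l3, l4, by omega, ?_⟩
  have e1 : (((gr η (j + 1) + 1) * y0 : ℕ) : ℝ) ≤ 2 * y := by
    refine l3.trans ?_
    have : (0 : ℝ) ≤ y := Nat.cast_nonneg _
    nlinarith
  have e2 : (gr η (j + 1) + 1) * y0 ≤ 2 * y := by exact_mod_cast e1
  omega

/-- the choice of the parameter -/
lemma choose_η (s : ℕ) (ε : ℝ) (hε : 0 < ε) : ∃ η : ℝ, 0 < η ∧ η ≤ 1 / 64 ∧
    ((1 + 2 * η) / (1 - η)) ^ s * (1 + η) + η ≤ 1 + ε ∧ 1 - ε ≤ (1 - η) * ((1 - 4 * η) / (1 + η)) ^ s := by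
  have c1 : ContinuousAt (fun η : ℝ => ((1 + 2 * η) / (1 - η)) ^ s * (1 + η) + η) 0 := by
    have : ContinuousAt (fun η : ℝ => (1 + 2 * η) / (1 - η)) 0 := by
      apply ContinuousAt.div (by fun_prop) (by fun_prop)
      norm_num
    exact ((this.pow s).mul (by fun_prop)).add (by fun_prop)
  have c2 : ContinuousAt (fun η : ℝ => (1 - η) * ((1 - 4 * η) / (1 + η)) ^ s) 0 := by
    have : ContinuousAt (fun η : ℝ => (1 - 4 * η) / (1 + η)) 0 := by
      apply ContinuousAt.div (by fun_prop) (by fun_prop)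
      norm_num
    exact ContinuousAt.mul (by fun_prop) (this.pow s)
  have e1 : ∀ᶠ η : ℝ in nhds 0, ((1 + 2 * η) / (1 - η)) ^ s * (1 + η) + η < 1 + ε := by
    apply c1.eventually_lt continuousAt_const
    simp
    exact hε
  have e2 : ∀ᶠ η : ℝ in nhds 0, 1 - ε < (1 - η) * ((1 - 4 * η) / (1 + η)) ^ s := by
    apply continuousAt_const.eventually_lt c2
    simp
    exact hε
  have e3 : ∀ᶠ η : ℝ in nhds 0, η < 1 / 64 := Iio_mem_nhds (by norm_num)
  obtain ⟨r, hr, h⟩ := Metric.eventually_nhds_iff.1 (e1.and (e2.and e3))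
  have h4 := h (y := r / 2) (by rw [Real.dist_eq, sub_zero, abs_of_pos (by positivity)]; linarith)
  exact ⟨r / 2, by positivity, h4.2.2.le, h4.1.le, h4.2.1.le⟩

/-- the average number of the tuples of primes -/
theorem det2 (s C κ₁ : ℕ) (ε : ℝ) (hε : 0 < ε) : ∃ η : ℝ, 0 < η ∧ η ≤ 1 / 64 ∧ ∃ N₀ : ℕ, ∀ N, N₀ ≤ N → ∀ y0 : ℕ, 1 ≤ y0 →
    (y0 : ℝ) ≤ Real.log N ^ κ₁ → ∀ A : Finset ℕ, A ⊆ Icc 1 N → (N : ℝ) ≤ A.card * Real.log N ^ C → ∀ x : Fin s → ℕ, (∀ i, x i ≤ N) →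
    (∀ J : Fin s → ℕ, (∀ i, J i ∈ JJ η N ∧ 1 ≤ J i ∧ J i * y0 ≤ 2 * N) →
      |∑ a ∈ A, (∏ i, av (J i * y0) (a + x i) - 1)| ≤ η * A.card) →
    ∀ y : Fin s → ℕ, (∀ i, Real.log N ^ (κ₁ + 1) ≤ y i ∧ y i ≤ N) →
      |∑ a ∈ A, ∏ i, ((pn (a + x i) (y i) : ℝ) * Real.log N / y i) - A.card| ≤ ε * A.card := by
  obtain ⟨η, hη0, hη1, hηU, hηL⟩ := choose_η s ε hε
  refine ⟨η, hη0, hη1, ?_⟩
  obtain ⟨n1, h1⟩ := grid_pos κ₁ η hη0 hη1
  obtain ⟨n2, h2⟩ := eventually_atTop.1 (ev_conv η hη0 (by linarith))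
  obtain ⟨n3, h3⟩ := eventually_atTop.1 (ev_L 2)
  obtain ⟨n4, h4⟩ := eventually_atTop.1 (ev_log (C + s) (2 / η) η hη0)
  refine ⟨n1 + n2 + n3 + n4 + 1, fun N hN y0 hy01 hy0L A hA hAN x hx hJ y hy => ?_⟩
  have hL := h3 N (by omega)
  obtain ⟨L, hLd⟩ : ∃ L, L = Real.log (N : ℝ) := ⟨_, rfl⟩
  have hlog4 := (h2 N (by omega)).1
  have hpow := h4 N (by omega)
  rw [← hLd] at hL hlog4 hpow
  have hL0 : 0 < L := by linarith
  have hL1 : 1 ≤ L := by linarith
  have hN0 : (0 : ℝ) < N := by exact_mod_cast (by omega : 0 < N)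
  have hN1 : (1 : ℝ) ≤ N := by exact_mod_cast (by omega : 1 ≤ N)
  choose Ja Jb hJa hJb ha1 hb1 hay hyb hbu hal ha2 hb2 using fun i => h1 N (by omega) y0 hy01 hy0L (y i) (hy i).1 (hy i).2
  have hyi : ∀ i, (1 : ℝ) ≤ y i := fun i => by
    refine le_trans ?_ (hy i).1
    rw [← hLd]
    exact one_le_pow₀ hL1
  have hy0 : ∀ i, (0 : ℝ) < y i := fun i => by linarith [hyi i]
  have ka := hJ Ja (fun i => ⟨hJa i, ha1 i, ha2 i⟩)
  have kb := hJ Jb (fun i => ⟨hJb i, hb1 i, hb2 i⟩)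
  rw [sum_sub_distrib, sum_const, nsmul_eq_mul, mul_one] at ka kb
  have hay1 : ∀ i, 1 ≤ Ja i * y0 := fun i => Nat.mul_pos (ha1 i) hy01
  have hby1 : ∀ i, 1 ≤ Jb i * y0 := fun i => Nat.mul_pos (hb1 i) hy01
  obtain ⟨c, hc⟩ : ∃ c : ℝ, c = A.card := ⟨_, rfl⟩
  have hc0 : 0 ≤ c := by rw [hc]; exact Nat.cast_nonneg _
  rw [← hc] at ka kb hAN ⊢
  rw [← hLd] at hAN ⊢
  obtain ⟨S, hS⟩ : ∃ S, S = ∑ a ∈ A, ∏ i, ((pn (a + x i) (y i) : ℝ) * L / y i) := ⟨_, rfl⟩
  rw [← hS]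
  have hun : ∀ a i, 0 ≤ (pn (a + x i) (y i) : ℝ) * L / y i := fun a i =>
    div_nonneg (mul_nonneg (Nat.cast_nonneg _) hL0.le) (hy0 i).le
  -- the lower bound
  have low : (1 - ε) * c ≤ S := by
    have e1 : ∀ a ∈ A, ∏ i, av (Ja i * y0) (a + x i) ≤ ((1 + η) / (1 - 4 * η)) ^ s * ∏ i, ((pn (a + x i) (y i) : ℝ) * L / y i) := by
      intro a ha
      have haN := (mem_Icc.1 (hA ha)).2
      have e2 : ∀ i ∈ (univ : Finset (Fin s)), av (Ja i * y0) (a + x i) ≤ ((1 + η) / (1 - 4 * η)) * ((pn (a + x i) (y i) : ℝ) * L / y i) := by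
        intro i _
        have e3 := av_up (Ja i * y0) (a + x i) (4 * N) (hay1 i) (by have := hx i; have := ha2 i; omega)
        refine e3.trans ?_
        have e4 : (pn (a + x i) (Ja i * y0) : ℝ) ≤ pn (a + x i) (y i) := by exact_mod_cast pn_mono (hay i)
        have e5 : (0 : ℝ) < ((Ja i * y0 : ℕ) : ℝ) := by exact_mod_cast hay1 i
        have e6 : (0 : ℝ) ≤ pn (a + x i) (y i) := Nat.cast_nonneg _
        have e7 : 0 < 1 - 4 * η := by linarith
        have e8 : 0 < (1 - 4 * η) * y i := mul_pos e7 (hy0 i)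
        calc (pn (a + x i) (Ja i * y0) : ℝ) * Real.log ((4 * N : ℕ) : ℝ) / ((Ja i * y0 : ℕ) : ℝ)
            ≤ (pn (a + x i) (y i) : ℝ) * ((1 + η) * L) / ((1 - 4 * η) * y i) := by
              apply div_le_div₀ (by positivity) _ e8 (hal i)
              exact mul_le_mul e4 hlog4 (Real.log_natCast_nonneg _) e6
          _ = _ := by
              field_simp
      refine (prod_le_prod (fun i _ => av_nonneg _ _) e2).trans (le_of_eq ?_)
      rw [prod_mul_distrib, prod_const, card_univ, Fintype.card_fin]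
    have e2 : ∑ a ∈ A, ∏ i, av (Ja i * y0) (a + x i) ≤ ((1 + η) / (1 - 4 * η)) ^ s * S := by
      rw [hS, mul_sum]
      exact sum_le_sum e1
    have e3 := (abs_le.1 ka).1
    have e4 : (1 - η) * c ≤ ((1 + η) / (1 - 4 * η)) ^ s * S := by linarith
    have e7 : 0 < 1 - 4 * η := by linarith
    have e8 : 0 < 1 + η := by linarith
    have e5 : ((1 - 4 * η) / (1 + η)) ^ s * (((1 + η) / (1 - 4 * η)) ^ s * S) = S := by
      rw [← mul_assoc, ← mul_pow, div_mul_div_comm, mul_comm (1 - 4 * η) (1 + η), div_self (by positivity), one_pow, one_mul]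
    have e6 : 0 < ((1 - 4 * η) / (1 + η)) ^ s := pow_pos (div_pos e7 e8) s
    calc (1 - ε) * c ≤ ((1 - η) * ((1 - 4 * η) / (1 + η)) ^ s) * c := mul_le_mul_of_nonneg_right hηL hc0
      _ = ((1 - 4 * η) / (1 + η)) ^ s * ((1 - η) * c) := by ring
      _ ≤ ((1 - 4 * η) / (1 + η)) ^ s * (((1 + η) / (1 - 4 * η)) ^ s * S) := mul_le_mul_of_nonneg_left e4 e6.le
      _ = S := e5
  -- the upper bound
  have up : S ≤ (1 + ε) * c := by
    obtain ⟨X, hX⟩ : ∃ X : ℕ, X = ⌈(N : ℝ) ^ (1 - η)⌉₊ := ⟨_, rfl⟩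
    have hXr1 : 1 ≤ (N : ℝ) ^ (1 - η) := Real.one_le_rpow hN1 (by linarith)
    have hX2 : (N : ℝ) ^ (1 - η) ≤ X := by rw [hX]; exact Nat.le_ceil _
    have hX3 : (X : ℝ) ≤ 2 * (N : ℝ) ^ (1 - η) := by
      have := Nat.ceil_lt_add_one (show 0 ≤ (N : ℝ) ^ (1 - η) by linarith)
      rw [← hX] at this
      linarith
    have hX4 : 1 ≤ X := by
      have : (1 : ℝ) ≤ X := hXr1.trans hX2
      exact_mod_cast this
    have hX5 : (1 - η) * L ≤ Real.log (X : ℝ) := by
      rw [hLd, ← Real.log_rpow hN0]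
      exact Real.log_le_log (by positivity) hX2
    have e7 : 0 < 1 - η := by linarith
    have hbig : ∀ a ∈ A, X ≤ a → ∏ i, ((pn (a + x i) (y i) : ℝ) * L / y i) ≤
        ((1 + 2 * η) / (1 - η)) ^ s * ∏ i, av (Jb i * y0) (a + x i) := by
      intro a _ haX
      have e2 : ∀ i ∈ (univ : Finset (Fin s)), (pn (a + x i) (y i) : ℝ) * L / y i ≤
          ((1 + 2 * η) / (1 - η)) * av (Jb i * y0) (a + x i) := by
        intro i _
        have e3 := av_low (Jb i * y0) (a + x i) X (hby1 i) hX4 (by omega)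
        have e4 : (pn (a + x i) (y i) : ℝ) ≤ pn (a + x i) (Jb i * y0) := by exact_mod_cast pn_mono (hyb i)
        have e5 : (0 : ℝ) < ((Jb i * y0 : ℕ) : ℝ) := by exact_mod_cast hby1 i
        have e6 : (0 : ℝ) ≤ pn (a + x i) (Jb i * y0) := Nat.cast_nonneg _
        have e8 : (pn (a + x i) (Jb i * y0) : ℝ) * ((1 - η) * L) / ((Jb i * y0 : ℕ) : ℝ) ≤ av (Jb i * y0) (a + x i) := by
          refine le_trans ?_ e3
          apply div_le_div_of_nonneg_right _ e5.le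
          exact mul_le_mul_of_nonneg_left hX5 e6
        calc (pn (a + x i) (y i) : ℝ) * L / y i ≤ (pn (a + x i) (Jb i * y0) : ℝ) * L / y i := by
              apply div_le_div_of_nonneg_right _ (hy0 i).le
              exact mul_le_mul_of_nonneg_right e4 hL0.le
          _ ≤ (pn (a + x i) (Jb i * y0) : ℝ) * L * ((1 + 2 * η) / ((Jb i * y0 : ℕ) : ℝ)) := by
              rw [div_eq_mul_inv]
              apply mul_le_mul_of_nonneg_left _ (by positivity)
              rw [inv_eq_one_div, div_le_div_iff₀ (hy0 i) e5, one_mul]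
              exact hbu i
          _ = ((1 + 2 * η) / (1 - η)) * ((pn (a + x i) (Jb i * y0) : ℝ) * ((1 - η) * L) / ((Jb i * y0 : ℕ) : ℝ)) := by
              field_simp
          _ ≤ _ := mul_le_mul_of_nonneg_left e8 (div_nonneg (by linarith) e7.le)
      refine (prod_le_prod (fun i _ => hun a i) e2).trans (le_of_eq ?_)
      rw [prod_mul_distrib, prod_const, card_univ, Fintype.card_fin]
    have hsmall : ∀ a, ∏ i, ((pn (a + x i) (y i) : ℝ) * L / y i) ≤ L ^ s := by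
      intro a
      have e2 : ∀ i ∈ (univ : Finset (Fin s)), (pn (a + x i) (y i) : ℝ) * L / y i ≤ L := by
        intro i _
        rw [div_le_iff₀ (hy0 i), mul_comm L]
        apply mul_le_mul_of_nonneg_right _ hL0.le
        exact_mod_cast pn_le _ _
      refine (prod_le_prod (fun i _ => hun a i) e2).trans (le_of_eq ?_)
      rw [prod_const, card_univ, Fintype.card_fin]
    have hprod0 : ∀ a, 0 ≤ ∏ i, av (Jb i * y0) (a + x i) := fun a => prod_nonneg fun i _ => av_nonneg _ _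
    have hfac0 : 0 ≤ ((1 + 2 * η) / (1 - η)) ^ s := pow_nonneg (div_nonneg (by linarith) e7.le) s
    have e9 : S ≤ ((1 + 2 * η) / (1 - η)) ^ s * ∑ a ∈ A, ∏ i, av (Jb i * y0) (a + x i) + X * L ^ s := by
      have f1 : ∀ a ∈ A, ∏ i, ((pn (a + x i) (y i) : ℝ) * L / y i) ≤
          ((1 + 2 * η) / (1 - η)) ^ s * ∏ i, av (Jb i * y0) (a + x i) + (if a ∈ range X then L ^ s else 0) := by
        intro a ha
        by_cases haX : X ≤ a
        · rw [if_neg (by rw [mem_range]; omega), add_zero]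
          exact hbig a ha haX
        · rw [if_pos (by rw [mem_range]; omega)]
          have := mul_nonneg hfac0 (hprod0 a)
          linarith [hsmall a]
      rw [hS]
      refine (sum_le_sum f1).trans ?_
      rw [sum_add_distrib, ← mul_sum]
      apply add_le_add le_rfl
      rw [← sum_filter, sum_const, nsmul_eq_mul]
      apply mul_le_mul_of_nonneg_right _ (by positivity)
      have : (A.filter (fun a => a ∈ range X)).card ≤ (range X).card := by
        apply card_le_card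
        intro a ha
        exact (mem_filter.1 ha).2
      rw [card_range] at this
      exact_mod_cast this
    have e10 : (X : ℝ) * L ^ s ≤ η * c := by
      have f1 : (X : ℝ) * L ^ s * L ^ C ≤ η * N := by
        calc (X : ℝ) * L ^ s * L ^ C ≤ 2 * (N : ℝ) ^ (1 - η) * L ^ s * L ^ C := by gcongr
          _ = η * ((2 / η * L ^ (C + s)) * (N : ℝ) ^ (1 - η)) := by
              rw [pow_add]
              field_simp
          _ ≤ η * ((N : ℝ) ^ η * (N : ℝ) ^ (1 - η)) := by gcongr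
          _ = η * N := by
              rw [← Real.rpow_add hN0]
              norm_num
      have f2 : η * (N : ℝ) ≤ (η * c) * L ^ C := by
        calc η * (N : ℝ) ≤ η * (c * L ^ C) := mul_le_mul_of_nonneg_left hAN hη0.le
          _ = _ := by ring
      exact le_of_mul_le_mul_right (f1.trans f2) (by positivity)
    have e11 := (abs_le.1 kb).2
    have e12 : ∑ a ∈ A, ∏ i, av (Jb i * y0) (a + x i) ≤ (1 + η) * c := by linarith
    calc S ≤ ((1 + 2 * η) / (1 - η)) ^ s * ∑ a ∈ A, ∏ i, av (Jb i * y0) (a + x i) + X * L ^ s := e9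
      _ ≤ ((1 + 2 * η) / (1 - η)) ^ s * ((1 + η) * c) + η * c := add_le_add (mul_le_mul_of_nonneg_left e12 hfac0) e10
      _ = (((1 + 2 * η) / (1 - η)) ^ s * (1 + η) + η) * c := by ring
      _ ≤ (1 + ε) * c := mul_le_mul_of_nonneg_right hηU hc0
  rw [abs_le]
  constructor <;> linarith

end Pool.Agent.V11251.SI
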