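import Pool.Agent.V11251.SI.Det
import Pool.Agent.V11251.DS.Pat

set_option autoImplicit false

/-! The averages of `log p` over short intervals for rearranged digits and palindromes. -/

namespace Pool.Agent.V11251.SI
open Finset
open Pool.Agent.W93.AU
open Pool.Agent.TH646.TT
open Pool.Agent.V11251.DS (num1 pat_scale)
open Pool.Agent.TH872.An (Spread V V_lt FA FA_pos an_law count_perm size)
open Pool.Agent.TH872.Mir (Pals pals_of_prob w0 w0_mirr Gs pw val FF0 FF0_pos mir_law val_lt)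

open Classical in
/-- few shifts are exceptional for the averages, in terms of the number of digits -/
def AK (b B T U κ₀ κ₁ k : ℕ) {α : Type} (Ω : Finset α) (v : α → ℤ) : Prop :=
  ∀ y : ℕ, k ^ κ₀ ≤ y → y ≤ k ^ κ₁ → ∀ I : Finset (ℕ × ℕ), (I.card : ℝ) ≤ (k : ℝ) ^ T →
    ∀ A : ℕ → Finset ℕ, (∀ i ∈ I, 1 ≤ i.2 ∧ ∀ a ∈ A i.1, 1 ≤ a ∧ a + i.2 * y ≤ B * b ^ k) →
    ∀ E : α → Prop, (∀ ω ∈ Ω, E ω → 0 ≤ v ω ∧ ∃ i ∈ I,
      ((b ^ k : ℕ) : ℝ) / (k : ℝ) ^ U < |∑ a ∈ A i.1, av (i.2 * y) (a + (v ω).toNat) - (A i.1).card|) →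
    ((Ω.filter E).card : ℝ) ≤ Ω.card / (k : ℝ) ^ U

/-- powers of the two lengths -/
lemma pows (k K e κ₀ κ₁ y : ℕ) (hK : K = k + e) (hk : e ≤ k) (hk2 : 2 ^ κ₀ ≤ k) (hy1 : k ^ (κ₀ + 1) ≤ y) (hy2 : y ≤ k ^ κ₁) :
    K ^ κ₀ ≤ y ∧ y ≤ K ^ κ₁ := by
  constructor
  · refine le_trans ?_ hy1
    calc K ^ κ₀ ≤ (2 * k) ^ κ₀ := Nat.pow_le_pow_left (by omega) _
      _ = 2 ^ κ₀ * k ^ κ₀ := mul_pow _ _ _
      _ ≤ k * k ^ κ₀ := Nat.mul_le_mul_right _ hk2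
      _ = k ^ (κ₀ + 1) := by rw [pow_succ]; ring
  · exact hy2.trans (Nat.pow_le_pow_left (by omega) _)

theorem an_av (b B T U : ℕ) (hb : 2 ≤ b) (κ : ℤ) (hκ : κ ≠ 0) (η : ℝ) (hη : 0 < η) : ∃ κ₀ : ℕ, ∀ κ₁ : ℕ,
    ∃ k₀ : ℕ, ∀ k : ℕ, k₀ ≤ k → ∀ d : Fin k → ℕ, Spread b k η d → ∀ c : ℤ, |c| ≤ B * (b : ℤ) ^ k →
    AK b B T U κ₀ κ₁ k (univ : Finset (Equiv.Perm (Fin k))) (fun σ => c + κ * (V b d σ : ℕ)) := by
  classical
  obtain ⟨e, he⟩ : ∃ e, e = B + κ.natAbs + 1 := ⟨_, rfl⟩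
  obtain ⟨D, K1, hD⟩ := an_law b hb η hη κ e (3 * (U + 1) + T + 6)
  obtain ⟨κ₀, h0⟩ := av_prob b (FA b κ) hb (FA_pos b hb κ hκ) T (U + 1) D
  refine ⟨κ₀ + 1, fun κ₁ => ?_⟩
  obtain ⟨K0, h0⟩ := h0 κ₁
  obtain ⟨p2, hp2⟩ : ∃ p2, p2 = 2 ^ κ₀ := ⟨_, rfl⟩
  refine ⟨K0 + K1 + b ^ e + 1 + p2 + e, fun k hk d hd c hc y hy1 hy2 I hL A hA E hE => ?_⟩
  obtain ⟨K, hK⟩ : ∃ K, K = k + e := ⟨_, rfl⟩
  have hk0 : (1 : ℝ) ≤ k := by exact_mod_cast (by omega : 1 ≤ k)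
  have hkK : (k : ℝ) ≤ K := by exact_mod_cast (by omega : k ≤ K)
  have hT : (k : ℝ) ^ T ≤ (K : ℝ) ^ T := pow_le_pow_left₀ (by linarith) hkK T
  have hsize : ∀ σ, |c + κ * (V b d σ : ℕ)| < ((b ^ (k + (B + κ.natAbs)) : ℕ) : ℤ) := fun σ =>
    size b B hb κ k _ (V_lt hd (by omega) σ) c hc
  have hX : b ^ (k + (B + κ.natAbs)) * 2 ≤ b ^ K := by
    rw [hK, he, show k + (B + κ.natAbs + 1) = (k + (B + κ.natAbs)) + 1 by ring, pow_succ]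
    exact Nat.mul_le_mul_left _ hb
  have hQ : B * b ^ k ≤ b ^ (k + (B + κ.natAbs)) := by
    rw [pow_add, mul_comm]
    apply Nat.mul_le_mul_left
    calc B ≤ B + κ.natAbs := by omega
      _ ≤ _ := (Nat.lt_pow_self (by omega)).le
  obtain ⟨hyK1, hyK2⟩ := pows k K e κ₀ κ₁ y hK (by omega) (by rw [← hp2]; omega) hy1 hy2
  have h := h0 K (by omega) _ univ (fun _ => 1 / (k.factorial : ℝ)) (fun σ => c + κ * (V b d σ : ℕ))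
    (hD k K hK (by omega) d hd c) (B * b ^ k) (by
      intro σ _
      obtain ⟨h1, h2⟩ := abs_lt.1 (hsize σ)
      have h3 : ((b ^ (k + (B + κ.natAbs)) : ℕ) : ℤ) * 2 ≤ ((b ^ K : ℕ) : ℤ) := by exact_mod_cast hX
      have h4 : ((B * b ^ k : ℕ) : ℤ) ≤ ((b ^ (k + (B + κ.natAbs)) : ℕ) : ℤ) := by exact_mod_cast hQ
      have h5 : (0 : ℤ) ≤ ((b ^ (k + (B + κ.natAbs)) : ℕ) : ℤ) := by positivity
      exact ⟨by linarith, by linarith⟩) (by omega) y hyK1 hyK2 I (hL.trans hT) A hA E (by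
      intro σ _ hσ
      obtain ⟨hv, i, hi, h1⟩ := hE σ (mem_univ _) hσ
      exact ⟨hv, i, hi, lt_of_le_of_lt (num1 b k K e U hK (by omega) (by omega)) h1⟩)
  refine (count_perm k E _ h).trans ?_
  rw [mul_one_div, card_univ, Fintype.card_perm, Fintype.card_fin]
  apply div_le_div_of_nonneg_left (Nat.cast_nonneg _) (by positivity)
  calc (k : ℝ) ^ U ≤ (K : ℝ) ^ U := pow_le_pow_left₀ (by linarith) hkK U
    _ ≤ (K : ℝ) ^ (U + 1) := pow_le_pow_right₀ (by linarith) (by omega)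

/-- mirror-dependent digits with a fixed parity of the length -/
theorem mir_av (b B T U : ℕ) (hb : 2 ≤ b) (κ : ℤ) (hκ : κ ≠ 0) (s : ℕ) (hs : s ≤ 1) : ∃ κ₀ : ℕ, ∀ κ₁ : ℕ,
    ∃ m₀ : ℕ, ∀ m : ℕ, m₀ ≤ m → ∀ c : ℤ, |c| ≤ B * (b : ℤ) ^ (2 * m + s) →
    AK b B T U κ₀ κ₁ (2 * m + s) (Pals b (2 * m + s)) (fun v => c + κ * ((v : ℕ) : ℤ)) := by
  classical
  obtain ⟨e, he⟩ : ∃ e, e = B + 3 * κ.natAbs := ⟨_, rfl⟩
  have hη' : (0 : ℝ) < 1 / (b : ℝ) ^ 2 := by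
    have : (0 : ℝ) < b := by exact_mod_cast (by omega : 0 < b)
    positivity
  obtain ⟨D, hD⟩ := mir_law b hb (1 / (b : ℝ) ^ 2) hη' κ (e + 1) s (3 * (U + 1) + T + 6)
  obtain ⟨κ₀, h0⟩ := av_prob b (FF0 b κ) hb (FF0_pos b κ hκ) T (U + 1) D
  refine ⟨κ₀ + 1, fun κ₁ => ?_⟩
  obtain ⟨K0, h0⟩ := h0 κ₁
  obtain ⟨p2, hp2⟩ : ∃ p2, p2 = 2 ^ κ₀ := ⟨_, rfl⟩
  refine ⟨K0 + b ^ (e + 1) + 1 + p2 + (e + 1), fun m hm c hc y hy1 hy2 I hL A hA E hE => ?_⟩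
  obtain ⟨k, hk⟩ : ∃ k, k = 2 * m + s := ⟨_, rfl⟩
  obtain ⟨K, hK⟩ : ∃ K, K = 2 * m + s + (e + 1) := ⟨_, rfl⟩
  have hpe : 0 < b ^ (e + 1) := by positivity
  have hKk : K = k + (e + 1) := by omega
  have hk0 : (1 : ℝ) ≤ k := by exact_mod_cast (by omega : 1 ≤ k)
  have hkK : (k : ℝ) ≤ K := by exact_mod_cast (by omega : k ≤ K)
  have hT : (k : ℝ) ^ T ≤ (K : ℝ) ^ T := pow_le_pow_left₀ (by linarith) hkK T
  rw [← hk] at hL hy1 hy2 hA hE hc ⊢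
  have hX : b ^ (k + e) * 2 ≤ b ^ K := by
    rw [hKk, ← add_assoc k, pow_succ]
    exact Nat.mul_le_mul_left _ hb
  have hQ : B * b ^ k ≤ b ^ (k + e) := by
    rw [pow_add, mul_comm]
    apply Nat.mul_le_mul_left
    calc B ≤ e := by omega
      _ ≤ _ := (Nat.lt_pow_self (by omega)).le
  obtain ⟨hyK1, hyK2⟩ := pows k K (e + 1) κ₀ κ₁ y hKk (by omega) (by rw [← hp2]; omega) hy1 hy2
  obtain ⟨P, hP⟩ : ∃ P : ℤ → Prop, P = fun x => 0 ≤ x ∧ ∃ i ∈ I,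
      ((b ^ k : ℕ) : ℝ) / (k : ℝ) ^ U < |∑ a ∈ A i.1, av (i.2 * y) (a + x.toNat) - (A i.1).card| := ⟨_, rfl⟩
  have hmain : ∀ z < b, ∑ g ∈ Gs b m, (if P (c + κ * ((val b (2 * m + s) g + s * z * b ^ m : ℕ) : ℤ)) then pw (w0 b) g else 0) ≤
      1 / (K : ℝ) ^ (U + 1) := by
    intro z hz
    have hcc := Pool.Agent.TH872.Mir.cc_bound b B m s hb hs κ c (by rw [← hk]; exact hc) z hz
    have hval : ∀ g : Fin m → ℕ × ℕ, c + κ * ((val b (2 * m + s) g + s * z * b ^ m : ℕ) : ℤ) =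
        (c + κ * ((s * z * b ^ m : ℕ) : ℤ)) + κ * ((val b (2 * m + s) g : ℕ) : ℤ) := by
      intro g
      push_cast
      ring
    simp only [hval]
    obtain ⟨cc, hccd⟩ : ∃ cc : ℤ, cc = c + κ * ((s * z * b ^ m : ℕ) : ℤ) := ⟨_, rfl⟩
    rw [← hccd] at hcc ⊢
    rw [← he] at hcc
    refine h0 K (by omega) _ (Gs b m) (pw (w0 b))
      (fun g => cc + κ * (val b (2 * m + s) g : ℕ)) (hD m K hK (by omega) (w0 b) (w0_mirr b m hb) cc) (B * b ^ k) ?_ ?_ y hyK1 hyK2 I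
      (hL.trans hT) A hA _ ?_
    · intro g hg
      have h0 : ((val b (2 * m + s) g : ℕ) : ℤ) < 2 * (b : ℤ) ^ (2 * m + s) := by
        exact_mod_cast val_lt b m s (by omega) g hg
      have h1 : |cc + κ * (val b (2 * m + s) g : ℕ)| ≤ (b : ℤ) ^ (2 * m + s + e) := by
        calc |cc + κ * (val b (2 * m + s) g : ℕ)| ≤
              |cc| + |κ * (val b (2 * m + s) g : ℕ)| := abs_add_le _ _
          _ = |cc| + |κ| * (val b (2 * m + s) g : ℕ) := by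
              rw [abs_mul, abs_of_nonneg (by positivity : (0 : ℤ) ≤ ((val b (2 * m + s) g : ℕ) : ℤ))]
          _ ≤ |cc| + |κ| * (2 * (b : ℤ) ^ (2 * m + s)) := by
              have := mul_le_mul_of_nonneg_left h0.le (abs_nonneg κ)
              linarith
          _ ≤ _ := hcc
      have h2 := abs_le.1 h1
      have h3 : ((b ^ (k + e) : ℕ) : ℤ) * 2 ≤ ((b ^ K : ℕ) : ℤ) := by exact_mod_cast hX
      have h4 : ((B * b ^ k : ℕ) : ℤ) ≤ ((b ^ (k + e) : ℕ) : ℤ) := by exact_mod_cast hQ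
      have h5 : (0 : ℤ) < ((b ^ (k + e) : ℕ) : ℤ) := by positivity
      have h6 : (b : ℤ) ^ (2 * m + s + e) = ((b ^ (k + e) : ℕ) : ℤ) := by rw [hk]; push_cast; rfl
      rw [h6] at h2
      exact ⟨by linarith [h2.1], by linarith [h2.2]⟩
    · omega
    · intro g _ hg
      rw [hP] at hg
      obtain ⟨hv, i, hi, h1⟩ := hg
      exact ⟨hv, i, hi, lt_of_le_of_lt (num1 b k K (e + 1) U hKk (by omega) (by omega)) h1⟩
  have h5 := pals_of_prob b m s hb (by omega) hs (fun v => P (c + κ * v)) (1 / (K : ℝ) ^ (U + 1)) (by positivity) (by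
    intro z hz
    convert hmain z hz)
  rw [← hk, mul_one_div] at h5
  have h6 : (((Pals b k).filter E).card : ℝ) ≤ (((Pals b k).filter (fun v : ℕ => P (c + κ * ((v : ℕ) : ℤ)))).card : ℝ) := by
    apply Nat.cast_le.2
    apply card_le_card
    intro v hv
    rw [mem_filter] at hv ⊢
    refine ⟨hv.1, ?_⟩
    rw [hP]
    exact hE v hv.1 hv.2
  refine h6.trans (h5.trans ?_)
  apply div_le_div_of_nonneg_left (Nat.cast_nonneg _) (by positivity)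
  calc (k : ℝ) ^ U ≤ (K : ℝ) ^ U := pow_le_pow_left₀ (by linarith) hkK U
    _ ≤ (K : ℝ) ^ (U + 1) := pow_le_pow_right₀ (by linarith) (by omega)

lemma AK_mono {b B T U κ₀ κ₁ κ₂ k : ℕ} {α : Type} {Ω : Finset α} {v : α → ℤ} (hk : 1 ≤ k) (h : κ₀ ≤ κ₁)
    (H : AK b B T U κ₀ κ₂ k Ω v) : AK b B T U κ₁ κ₂ k Ω v :=
  fun y hy1 hy2 => H y ((Nat.pow_le_pow_right hk h).trans hy1) hy2

theorem pal_av (b B T U : ℕ) (hb : 2 ≤ b) (κ : ℤ) (hκ : κ ≠ 0) : ∃ κ₀ : ℕ, ∀ κ₁ : ℕ,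
    ∃ k₀ : ℕ, ∀ k : ℕ, k₀ ≤ k → ∀ c : ℤ, |c| ≤ B * (b : ℤ) ^ k →
    AK b B T U κ₀ κ₁ k (Pals b k) (fun v => c + κ * ((v : ℕ) : ℤ)) := by
  obtain ⟨κa, ha⟩ := mir_av b B T U hb κ hκ 0 (by norm_num)
  obtain ⟨κb, hbb⟩ := mir_av b B T U hb κ hκ 1 le_rfl
  refine ⟨κa + κb, fun κ₁ => ?_⟩
  obtain ⟨ma, ha⟩ := ha κ₁
  obtain ⟨mb, hbb⟩ := hbb κ₁
  refine ⟨2 * (ma + mb) + 2, fun k hk c hc => ?_⟩
  obtain ⟨m, hm⟩ : ∃ m, m = k / 2 := ⟨_, rfl⟩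
  rcases Nat.mod_two_eq_zero_or_one k with h | h
  · have hkm : k = 2 * m + 0 := by omega
    rw [hkm] at hc ⊢
    exact AK_mono (by omega) (Nat.le_add_right _ _) (ha m (by omega) c hc)
  · have hkm : k = 2 * m + 1 := by omega
    rw [hkm] at hc ⊢
    exact AK_mono (by omega) (Nat.le_add_left _ _) (hbb m (by omega) c hc)

end Pool.Agent.V11251.SI
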