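import Pool.Agent.V11251.SI.Prob

set_option autoImplicit false

/-! The averages of `log p` over short intervals to the right of the points of translates, with arbitrary weights. -/

namespace Pool.Agent.V11251.SI
open Finset
open Pool.Agent.H807R2.Dav
open Pool.Agent.H373R2.T7 (exI)
open Pool.Agent.W93.DG
open Pool.Agent.W93.RD
open Pool.Agent.W93.LM
open Pool.Agent.W93.AU
open Pool.Agent.W301.SS
open Pool.Agent.TH646.TT
open Pool.Agent.TH894.LH (ua ua_norm sup_ua PP_ua poly_small av_blocks)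

/-- the weight whose correlation with `ua y` is the weighted average -/
lemma weightW (Q y J : ℕ) (hy : 1 ≤ y) (hJ : 1 ≤ J) (w : ℕ → ℝ) (W : ℝ) (hW0 : 0 ≤ W) (hw : ∀ a, |w a| ≤ W)
    (hQ : ∀ a, w a ≠ 0 → 1 ≤ a ∧ a + J * y ≤ Q) :
    ∃ g : ℕ → ℂ, (∀ m, ‖g m‖ ≤ W) ∧ ∀ c : ℕ, ∑ m ∈ Icc 1 Q, g m * exI (ua y) ((m : ℤ) + (c : ℤ)) =
      ((∑ a ∈ Icc 1 Q, w a * (av (J * y) (a + c) - 1) : ℝ) : ℂ) := by
  have hJ0 : (0 : ℝ) < J := by exact_mod_cast hJ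
  have hJc : (J : ℂ) ≠ 0 := by exact_mod_cast hJ0.ne'
  obtain ⟨g, hg⟩ : ∃ g : ℕ → ℂ, g = fun m => (∑ j ∈ range J, ∑ a ∈ Icc 1 Q, if a + j * y = m then ((w a : ℝ) : ℂ) else 0) / J := ⟨_, rfl⟩
  refine ⟨g, ?_, ?_⟩
  · intro m
    rw [hg]
    show ‖(∑ j ∈ range J, ∑ a ∈ Icc 1 Q, if a + j * y = m then ((w a : ℝ) : ℂ) else 0) / J‖ ≤ W
    rw [norm_div, Complex.norm_natCast, div_le_iff₀ hJ0]
    refine (norm_sum_le _ _).trans ?_
    have h3 : ∀ j ∈ range J, ‖∑ a ∈ Icc 1 Q, if a + j * y = m then ((w a : ℝ) : ℂ) else 0‖ ≤ W := by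
      intro j _
      by_cases hjm : ∃ a ∈ Icc 1 Q, a + j * y = m
      · obtain ⟨a0, ha0, ham⟩ := hjm
        rw [sum_eq_single a0]
        · rw [if_pos ham, Complex.norm_real, Real.norm_eq_abs]
          exact hw a0
        · intro a _ hne
          rw [if_neg (by omega)]
        · intro h
          exact absurd ha0 h
      · rw [sum_eq_zero, norm_zero]
        · exact hW0
        · intro a ha
          rw [if_neg]
          intro h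
          exact hjm ⟨a, ha, h⟩
    refine (sum_le_sum h3).trans (le_of_eq ?_)
    rw [sum_const, nsmul_eq_mul, card_range, mul_comm]
  · intro c
    have h3 : ∑ m ∈ Icc 1 Q, g m * exI (ua y) ((m : ℤ) + (c : ℤ)) =
        (∑ j ∈ range J, ∑ a ∈ Icc 1 Q, ((w a : ℝ) : ℂ) * ua y (a + j * y + c)) / J := by
      rw [hg]
      show ∑ m ∈ Icc 1 Q, ((∑ j ∈ range J, ∑ a ∈ Icc 1 Q, if a + j * y = m then ((w a : ℝ) : ℂ) else 0) / J) * exI (ua y) ((m : ℤ) + (c : ℤ)) = _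
      have h4 : ∀ m ∈ Icc 1 Q, ((∑ j ∈ range J, ∑ a ∈ Icc 1 Q, if a + j * y = m then ((w a : ℝ) : ℂ) else 0) / J) * exI (ua y) ((m : ℤ) + (c : ℤ)) =
          (∑ j ∈ range J, ∑ a ∈ Icc 1 Q, if a + j * y = m then ((w a : ℝ) : ℂ) * exI (ua y) ((m : ℤ) + (c : ℤ)) else 0) / J := by
        intro m _
        rw [div_mul_eq_mul_div, sum_mul]
        congr 1
        apply sum_congr rfl
        intro j _
        rw [sum_mul]
        apply sum_congr rfl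
        intro a _
        rw [ite_mul, zero_mul]
      rw [sum_congr rfl h4, ← sum_div, sum_comm]
      congr 1
      apply sum_congr rfl
      intro j hj
      rw [sum_comm]
      apply sum_congr rfl
      intro a ha
      rw [mem_range] at hj
      by_cases hwa : w a = 0
      · rw [hwa]
        simp
      · obtain ⟨ha1, ha2⟩ := hQ a hwa
        have h5 : j * y ≤ J * y := Nat.mul_le_mul_right _ hj.le
        have h6 : a + j * y ∈ Icc 1 Q := by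
          rw [mem_Icc]
          omega
        rw [sum_ite_eq, if_pos h6]
        congr 1
        unfold exI
        rw [if_pos (by push_cast; omega)]
        congr 1
    rw [h3]
    have h4 : ∑ j ∈ range J, ∑ a ∈ Icc 1 Q, ((w a : ℝ) : ℂ) * ua y (a + j * y + c) =
        ((∑ a ∈ Icc 1 Q, w a * ∑ j ∈ range J, (av y (a + c + j * y) - 1) : ℝ) : ℂ) := by
      rw [sum_comm]
      push_cast
      apply sum_congr rfl
      intro a _
      rw [mul_sum]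
      apply sum_congr rfl
      intro j _
      unfold ua
      push_cast
      rw [show a + j * y + c = a + c + j * y by ring]
    have h5 : ∀ a ∈ Icc 1 Q, w a * ∑ j ∈ range J, (av y (a + c + j * y) - 1) = J * (w a * (av (J * y) (a + c) - 1)) := by
      intro a _
      rw [sum_sub_distrib, av_blocks y (a + c) J hy hJ, sum_const, nsmul_eq_mul, card_range]
      ring
    rw [h4, sum_congr rfl h5, ← mul_sum]
    push_cast
    rw [mul_div_cancel_left₀ _ hJc]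

/-- for almost all shifts, all the weighted averages are right -/
theorem av_probW (b F : ℕ) (hb : 2 ≤ b) (hF : 1 ≤ F) (T U D : ℕ) : ∃ κ₀ : ℕ, ∀ κ : ℕ, ∃ K₀ : ℕ, ∀ K : ℕ, K₀ ≤ K →
    ∀ (ι : Type) (Ω : Finset ι) (p : ι → ℝ) (Y : ι → ℤ), Law b F D (3 * U + 3 * T + 6) K Ω p Y →
    ∀ Q : ℕ, (∀ ω ∈ Ω, -((b ^ K : ℕ) : ℤ) < Y ω ∧ (Q : ℤ) + Y ω ≤ ((b ^ K : ℕ) : ℤ)) → Q ≤ b ^ K →
    ∀ y : ℕ, K ^ κ₀ ≤ y → y ≤ K ^ κ → ∀ (I : Type) [Fintype I], (Fintype.card I : ℝ) ≤ (K : ℝ) ^ T → ∀ (w : I → ℕ → ℝ) (J : I → ℕ),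
    (∀ i, 1 ≤ J i ∧ ∀ a, |w i a| ≤ (K : ℝ) ^ T ∧ (w i a ≠ 0 → 1 ≤ a ∧ a + J i * y ≤ Q)) →
    ∀ E : ι → Prop, [DecidablePred E] → (∀ ω ∈ Ω, E ω → 0 ≤ Y ω ∧ ∃ i,
      ((b ^ K : ℕ) : ℝ) / (K : ℝ) ^ U < |∑ a ∈ Icc 1 Q, w i a * (av (J i * y) (a + (Y ω).toNat) - 1)|) →
    ∑ ω ∈ Ω, (if E ω then p ω else 0) ≤ 1 / (K : ℝ) ^ U := by
  classical
  obtain ⟨U₁, K1, h1⟩ := u_corr b F hb hF (3 * U + 3 * T) D
  obtain ⟨κ₀, h2⟩ := ua_ok b hb U₁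
  refine ⟨κ₀, fun κ => ?_⟩
  obtain ⟨K2, h2⟩ := h2 κ
  refine ⟨K1 + K2 + 1, fun K hK ι Ω p Y hlaw Q hYQ hQX y hy1 hy2 I _ hL w J hA E _ hE => ?_⟩
  have hK1 : 1 ≤ K := by omega
  have hKr : (1 : ℝ) ≤ K := by exact_mod_cast hK1
  have hK0 : (0 : ℝ) < K := by linarith
  have hy : 1 ≤ y := (Nat.one_le_pow _ _ (by omega)).trans hy1
  have hok := h2 K (by omega) y hy1 hy2
  have hX0 : (0 : ℝ) < ((b ^ K : ℕ) : ℝ) := by exact_mod_cast Nat.pow_pos (by omega : 0 < b)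
  obtain ⟨X, hX⟩ : ∃ X : ℝ, X = ((b ^ K : ℕ) : ℝ) := ⟨_, rfl⟩
  have hwt : ∀ i : I, ∃ g : ℕ → ℂ, (∀ m, ‖g m‖ ≤ (K : ℝ) ^ T) ∧ ∀ c : ℕ, ∑ m ∈ Icc 1 Q, g m * exI (ua y) ((m : ℤ) + (c : ℤ)) =
      ((∑ a ∈ Icc 1 Q, w i a * (av (J i * y) (a + c) - 1) : ℝ) : ℂ) := fun i =>
    weightW Q y (J i) hy (hA i).1 (w i) _ (by positivity) (fun a => ((hA i).2 a).1) (fun a => ((hA i).2 a).2)
  choose g hg1 hg2 using hwt
  have hmom : ∀ i, ∑ ω ∈ Ω, p ω * ‖∑ n ∈ Icc 1 Q, g i n * exI (ua y) ((n : ℤ) + Y ω)‖ ^ 2 ≤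
      ((K : ℝ) ^ T * X) ^ 2 / (K : ℝ) ^ (3 * U + 3 * T) := by
    intro i
    have e1 := h1 K (by omega) (ua y) hok ι Ω p Y hlaw Q hYQ hQX (g i) ((K : ℝ) ^ T) (by positivity) (fun n _ => hg1 i n)
    rw [← hX] at e1
    exact e1
  rw [← hX] at hE hX0
  have hpt : ∀ ω ∈ Ω, (if E ω then p ω else 0) ≤ ∑ i, (K : ℝ) ^ (2 * U) / X ^ 2 *
      (p ω * ‖∑ n ∈ Icc 1 Q, g i n * exI (ua y) ((n : ℤ) + Y ω)‖ ^ 2) := by
    intro ω hω
    have hP0 : 0 ≤ p ω := hlaw.nonneg ω hω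
    have t1 : ∀ i ∈ (univ : Finset I), 0 ≤ (K : ℝ) ^ (2 * U) / X ^ 2 *
      (p ω * ‖∑ n ∈ Icc 1 Q, g i n * exI (ua y) ((n : ℤ) + Y ω)‖ ^ 2) := fun i _ => by positivity
    by_cases hEd : E ω
    swap
    · rw [if_neg hEd]
      exact sum_nonneg t1
    rw [if_pos hEd]
    obtain ⟨hY0, i, hbad⟩ := hE ω hω hEd
    have e1 := hg2 i (Y ω).toNat
    rw [Int.toNat_of_nonneg hY0] at e1
    refine le_trans ?_ (single_le_sum t1 (mem_univ i))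
    rw [e1, Complex.norm_real, Real.norm_eq_abs]
    obtain ⟨δ, hδ⟩ : ∃ δ : ℝ, δ = |∑ a ∈ Icc 1 Q, w i a * (av (J i * y) (a + (Y ω).toNat) - 1)| := ⟨_, rfl⟩
    rw [← hδ] at hbad ⊢
    have e2 : 1 ≤ (K : ℝ) ^ (2 * U) / X ^ 2 * δ ^ 2 := by
      have e3 : (X / (K : ℝ) ^ U) ^ 2 ≤ δ ^ 2 := pow_le_pow_left₀ (by positivity) hbad.le 2
      have e4 : (K : ℝ) ^ (2 * U) / X ^ 2 * (X / (K : ℝ) ^ U) ^ 2 = 1 := by
        rw [pow_mul', div_pow]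
        field_simp
      rw [← e4]
      exact mul_le_mul_of_nonneg_left e3 (by positivity)
    calc p ω = p ω * 1 := (mul_one _).symm
      _ ≤ p ω * ((K : ℝ) ^ (2 * U) / X ^ 2 * δ ^ 2) := mul_le_mul_of_nonneg_left e2 hP0
      _ = _ := by ring
  refine (sum_le_sum hpt).trans ?_
  rw [sum_comm]
  have h3 : ∀ i ∈ (univ : Finset I), ∑ ω ∈ Ω, (K : ℝ) ^ (2 * U) / X ^ 2 *
      (p ω * ‖∑ n ∈ Icc 1 Q, g i n * exI (ua y) ((n : ℤ) + Y ω)‖ ^ 2) ≤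
      (K : ℝ) ^ (2 * U) / X ^ 2 * (((K : ℝ) ^ T * X) ^ 2 / (K : ℝ) ^ (3 * U + 3 * T)) := by
    intro i _
    rw [← mul_sum]
    exact mul_le_mul_of_nonneg_left (hmom i) (by positivity)
  refine (sum_le_sum h3).trans ?_
  rw [sum_const, nsmul_eq_mul, card_univ]
  have h4 : (K : ℝ) ^ (2 * U) / X ^ 2 * (((K : ℝ) ^ T * X) ^ 2 / (K : ℝ) ^ (3 * U + 3 * T)) = 1 / (K : ℝ) ^ (U + T) := by
    rw [show 3 * U + 3 * T = 2 * U + 2 * T + (U + T) by ring, pow_add (K : ℝ) (2 * U + 2 * T) (U + T), pow_add (K : ℝ) (2 * U) (2 * T),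
      mul_pow, ← pow_mul, mul_comm T 2]
    field_simp
  rw [h4]
  calc (Fintype.card I : ℝ) * (1 / (K : ℝ) ^ (U + T)) ≤ (K : ℝ) ^ T * (1 / (K : ℝ) ^ (U + T)) := mul_le_mul_of_nonneg_right hL (by positivity)
    _ = 1 / (K : ℝ) ^ U := by
        rw [pow_add]
        field_simp

end Pool.Agent.V11251.SI
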