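import Pool.Agent.V11251.SI.Fin
import Pool.Agent.V11251.SI.WProb
import Pool.Agent.V11251.DS.Pat

set_option autoImplicit false

/-! The averages of `log p` over short intervals for rearranged digits and palindromes, with arbitrary
weights. -/

namespace Pool.Agent.V11251.SI
open Finset
open Pool.Agent.W93.AU
open Pool.Agent.TH646.TT
open Pool.Agent.V11251.DS (num1 pat_scale)
open Pool.Agent.TH872.An (Spread V V_lt FA FA_pos an_law count_perm size)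
open Pool.Agent.TH872.Mir (Pals pals_of_prob w0 w0_mirr Gs pw val FF0 FF0_pos mir_law val_lt)

open Classical in
/-- few shifts are exceptional for the averages, in terms of the number of digits -/
def AKW (b B T U κ₀ κ₁ k : ℕ) {α : Type} (Ω : Finset α) (v : α → ℤ) : Prop :=
  ∀ y : ℕ, k ^ κ₀ ≤ y → y ≤ k ^ κ₁ → ∀ (I : Type) [Fintype I], (Fintype.card I : ℝ) ≤ (k : ℝ) ^ T →
    ∀ (w : I → ℕ → ℝ) (J : I → ℕ), (∀ i, 1 ≤ J i ∧ ∀ a, |w i a| ≤ (k : ℝ) ^ T ∧ (w i a ≠ 0 → 1 ≤ a ∧ a + J i * y ≤ B * b ^ k)) →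
    ∀ E : α → Prop, (∀ ω ∈ Ω, E ω → 0 ≤ v ω ∧ ∃ i,
      ((b ^ k : ℕ) : ℝ) / (k : ℝ) ^ U < |∑ a ∈ Icc 1 (B * b ^ k), w i a * (av (J i * y) (a + (v ω).toNat) - 1)|) →
    ((Ω.filter E).card : ℝ) ≤ Ω.card / (k : ℝ) ^ U

theorem an_avW (b B T U : ℕ) (hb : 2 ≤ b) (κ : ℤ) (hκ : κ ≠ 0) (η : ℝ) (hη : 0 < η) : ∃ κ₀ : ℕ, ∀ κ₁ : ℕ,
    ∃ k₀ : ℕ, ∀ k : ℕ, k₀ ≤ k → ∀ d : Fin k → ℕ, Spread b k η d → ∀ c : ℤ, |c| ≤ B * (b : ℤ) ^ k →
    AKW b B T U κ₀ κ₁ k (univ : Finset (Equiv.Perm (Fin k))) (fun σ => c + κ * (V b d σ : ℕ)) := by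
  classical
  obtain ⟨e, he⟩ : ∃ e, e = B + κ.natAbs + 1 := ⟨_, rfl⟩
  obtain ⟨D, K1, hD⟩ := an_law b hb η hη κ e (3 * (U + 1) + 3 * T + 6)
  obtain ⟨κ₀, h0⟩ := av_probW b (FA b κ) hb (FA_pos b hb κ hκ) T (U + 1) D
  refine ⟨κ₀ + 1, fun κ₁ => ?_⟩
  obtain ⟨K0, h0⟩ := h0 κ₁
  obtain ⟨p2, hp2⟩ : ∃ p2, p2 = 2 ^ κ₀ := ⟨_, rfl⟩
  refine ⟨K0 + K1 + b ^ e + 1 + p2 + e, fun k hk d hd c hc y hy1 hy2 I _ hL w J hA E hE => ?_⟩
  obtain ⟨K, hK⟩ : ∃ K, K = k + e := ⟨_, rfl⟩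
  have hk0 : (1 : ℝ) ≤ k := by exact_mod_cast (by omega : 1 ≤ k)
  have hkK : (k : ℝ) ≤ K := by exact_mod_cast (by omega : k ≤ K)
  have hT : (k : ℝ) ^ T ≤ (K : ℝ) ^ T := pow_le_pow_left₀ (by linarith) hkK T
  have hsize : ∀ σ, |c + κ * (V b d σ : ℕ)| < ((b ^ (k + (B + κ.natAbs)) : ℕ) : ℤ) := fun σ =>
    size b B hb κ k _ (V_lt hd (by omega) σ) c hc
  have hX : b ^ (k + (B + κ.natAbs)) * 2 ≤ b ^ K := by
    rw [hK, he, show k + (B + κ.natAbs + 1) = (k + (B + κ.natAbs)) + 1 by ring, pow_succ]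
    exact Nat.mul_le_mul_left _ hb
  have hQ : B * b ^ k ≤ b ^ (k + (B + κ.natAbs)) := by
    rw [pow_add, mul_comm]
    apply Nat.mul_le_mul_left
    calc B ≤ B + κ.natAbs := by omega
      _ ≤ _ := (Nat.lt_pow_self (by omega)).le
  obtain ⟨hyK1, hyK2⟩ := pows k K e κ₀ κ₁ y hK (by omega) (by rw [← hp2]; omega) hy1 hy2
  have h := h0 K (by omega) _ univ (fun _ => 1 / (k.factorial : ℝ)) (fun σ => c + κ * (V b d σ : ℕ))
    (hD k K hK (by omega) d hd c) (B * b ^ k) (by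
      intro σ _
      obtain ⟨h1, h2⟩ := abs_lt.1 (hsize σ)
      have h3 : ((b ^ (k + (B + κ.natAbs)) : ℕ) : ℤ) * 2 ≤ ((b ^ K : ℕ) : ℤ) := by exact_mod_cast hX
      have h4 : ((B * b ^ k : ℕ) : ℤ) ≤ ((b ^ (k + (B + κ.natAbs)) : ℕ) : ℤ) := by exact_mod_cast hQ
      have h5 : (0 : ℤ) ≤ ((b ^ (k + (B + κ.natAbs)) : ℕ) : ℤ) := by positivity
      exact ⟨by linarith, by linarith⟩) (by omega) y hyK1 hyK2 I (hL.trans hT) w J
    (fun i => ⟨(hA i).1, fun a => ⟨((hA i).2 a).1.trans hT, ((hA i).2 a).2⟩⟩) E (by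
      intro σ _ hσ
      obtain ⟨hv, i, h1⟩ := hE σ (mem_univ _) hσ
      exact ⟨hv, i, lt_of_le_of_lt (num1 b k K e U hK (by omega) (by omega)) h1⟩)
  refine (count_perm k E _ h).trans ?_
  rw [mul_one_div, card_univ, Fintype.card_perm, Fintype.card_fin]
  apply div_le_div_of_nonneg_left (Nat.cast_nonneg _) (by positivity)
  calc (k : ℝ) ^ U ≤ (K : ℝ) ^ U := pow_le_pow_left₀ (by linarith) hkK U
    _ ≤ (K : ℝ) ^ (U + 1) := pow_le_pow_right₀ (by linarith) (by omega)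

/-- mirror-dependent digits with a fixed parity of the length -/
theorem mir_avW (b B T U : ℕ) (hb : 2 ≤ b) (κ : ℤ) (hκ : κ ≠ 0) (s : ℕ) (hs : s ≤ 1) : ∃ κ₀ : ℕ, ∀ κ₁ : ℕ,
    ∃ m₀ : ℕ, ∀ m : ℕ, m₀ ≤ m → ∀ c : ℤ, |c| ≤ B * (b : ℤ) ^ (2 * m + s) →
    AKW b B T U κ₀ κ₁ (2 * m + s) (Pals b (2 * m + s)) (fun v => c + κ * ((v : ℕ) : ℤ)) := by
  classical
  obtain ⟨e, he⟩ : ∃ e, e = B + 3 * κ.natAbs := ⟨_, rfl⟩
  have hη' : (0 : ℝ) < 1 / (b : ℝ) ^ 2 := by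
    have : (0 : ℝ) < b := by exact_mod_cast (by omega : 0 < b)
    positivity
  obtain ⟨D, hD⟩ := mir_law b hb (1 / (b : ℝ) ^ 2) hη' κ (e + 1) s (3 * (U + 1) + 3 * T + 6)
  obtain ⟨κ₀, h0⟩ := av_probW b (FF0 b κ) hb (FF0_pos b κ hκ) T (U + 1) D
  refine ⟨κ₀ + 1, fun κ₁ => ?_⟩
  obtain ⟨K0, h0⟩ := h0 κ₁
  obtain ⟨p2, hp2⟩ : ∃ p2, p2 = 2 ^ κ₀ := ⟨_, rfl⟩
  refine ⟨K0 + b ^ (e + 1) + 1 + p2 + (e + 1), fun m hm c hc y hy1 hy2 I _ hL w J hA E hE => ?_⟩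
  obtain ⟨k, hk⟩ : ∃ k, k = 2 * m + s := ⟨_, rfl⟩
  obtain ⟨K, hK⟩ : ∃ K, K = 2 * m + s + (e + 1) := ⟨_, rfl⟩
  have hpe : 0 < b ^ (e + 1) := by positivity
  have hKk : K = k + (e + 1) := by omega
  have hk0 : (1 : ℝ) ≤ k := by exact_mod_cast (by omega : 1 ≤ k)
  have hkK : (k : ℝ) ≤ K := by exact_mod_cast (by omega : k ≤ K)
  have hT : (k : ℝ) ^ T ≤ (K : ℝ) ^ T := pow_le_pow_left₀ (by linarith) hkK T
  rw [← hk] at hL hy1 hy2 hc ⊢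
  simp only [← hk] at hA hE
  have hX : b ^ (k + e) * 2 ≤ b ^ K := by
    rw [hKk, ← add_assoc k, pow_succ]
    exact Nat.mul_le_mul_left _ hb
  have hQ : B * b ^ k ≤ b ^ (k + e) := by
    rw [pow_add, mul_comm]
    apply Nat.mul_le_mul_left
    calc B ≤ e := by omega
      _ ≤ _ := (Nat.lt_pow_self (by omega)).le
  obtain ⟨hyK1, hyK2⟩ := pows k K (e + 1) κ₀ κ₁ y hKk (by omega) (by rw [← hp2]; omega) hy1 hy2
  obtain ⟨P, hP⟩ : ∃ P : ℤ → Prop, P = fun x => 0 ≤ x ∧ ∃ i,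
      ((b ^ k : ℕ) : ℝ) / (k : ℝ) ^ U < |∑ a ∈ Icc 1 (B * b ^ k), w i a * (av (J i * y) (a + x.toNat) - 1)| := ⟨_, rfl⟩
  have hmain : ∀ z < b, ∑ g ∈ Gs b m, (if P (c + κ * ((val b (2 * m + s) g + s * z * b ^ m : ℕ) : ℤ)) then pw (w0 b) g else 0) ≤
      1 / (K : ℝ) ^ (U + 1) := by
    intro z hz
    have hcc := Pool.Agent.TH872.Mir.cc_bound b B m s hb hs κ c (by rw [← hk]; exact hc) z hz
    have hval : ∀ g : Fin m → ℕ × ℕ, c + κ * ((val b (2 * m + s) g + s * z * b ^ m : ℕ) : ℤ) =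
        (c + κ * ((s * z * b ^ m : ℕ) : ℤ)) + κ * ((val b (2 * m + s) g : ℕ) : ℤ) := by
      intro g
      push_cast
      ring
    simp only [hval]
    obtain ⟨cc, hccd⟩ : ∃ cc : ℤ, cc = c + κ * ((s * z * b ^ m : ℕ) : ℤ) := ⟨_, rfl⟩
    rw [← hccd] at hcc ⊢
    rw [← he] at hcc
    refine h0 K (by omega) _ (Gs b m) (pw (w0 b))
      (fun g => cc + κ * (val b (2 * m + s) g : ℕ)) (hD m K hK (by omega) (w0 b) (Pool.Agent.TH872.Mir.w0_mirr b m hb) cc) (B * b ^ k) ?_ ?_ y hyK1 hyK2 I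
      (hL.trans hT) w J (fun i => ⟨(hA i).1, fun a => ⟨((hA i).2 a).1.trans hT, ((hA i).2 a).2⟩⟩) _ ?_
    · intro g hg
      have h0 : ((val b (2 * m + s) g : ℕ) : ℤ) < 2 * (b : ℤ) ^ (2 * m + s) := by
        exact_mod_cast val_lt b m s (by omega) g hg
      have h1 : |cc + κ * (val b (2 * m + s) g : ℕ)| ≤ (b : ℤ) ^ (2 * m + s + e) := by
        calc |cc + κ * (val b (2 * m + s) g : ℕ)| ≤
              |cc| + |κ * (val b (2 * m + s) g : ℕ)| := abs_add_le _ _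
          _ = |cc| + |κ| * (val b (2 * m + s) g : ℕ) := by
              rw [abs_mul, abs_of_nonneg (by positivity : (0 : ℤ) ≤ ((val b (2 * m + s) g : ℕ) : ℤ))]
          _ ≤ |cc| + |κ| * (2 * (b : ℤ) ^ (2 * m + s)) := by
              have := mul_le_mul_of_nonneg_left h0.le (abs_nonneg κ)
              linarith
          _ ≤ _ := hcc
      have h2 := abs_le.1 h1
      have h3 : ((b ^ (k + e) : ℕ) : ℤ) * 2 ≤ ((b ^ K : ℕ) : ℤ) := by exact_mod_cast hX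
      have h4 : ((B * b ^ k : ℕ) : ℤ) ≤ ((b ^ (k + e) : ℕ) : ℤ) := by exact_mod_cast hQ
      have h5 : (0 : ℤ) < ((b ^ (k + e) : ℕ) : ℤ) := by positivity
      have h6 : (b : ℤ) ^ (2 * m + s + e) = ((b ^ (k + e) : ℕ) : ℤ) := by rw [hk]; push_cast; rfl
      rw [h6] at h2
      exact ⟨by linarith [h2.1], by linarith [h2.2]⟩
    · omega
    · intro g _ hg
      rw [hP] at hg
      obtain ⟨hv, i, h1⟩ := hg
      exact ⟨hv, i, lt_of_le_of_lt (num1 b k K (e + 1) U hKk (by omega) (by omega)) h1⟩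
  have h5 := pals_of_prob b m s hb (by omega) hs (fun v => P (c + κ * v)) (1 / (K : ℝ) ^ (U + 1)) (by positivity) (by
    intro z hz
    convert hmain z hz)
  rw [← hk, mul_one_div] at h5
  have h6 : (((Pals b k).filter E).card : ℝ) ≤ (((Pals b k).filter (fun v : ℕ => P (c + κ * ((v : ℕ) : ℤ)))).card : ℝ) := by
    apply Nat.cast_le.2
    apply card_le_card
    intro v hv
    rw [mem_filter] at hv ⊢
    refine ⟨hv.1, ?_⟩
    rw [hP]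
    exact hE v hv.1 hv.2
  refine h6.trans (h5.trans ?_)
  apply div_le_div_of_nonneg_left (Nat.cast_nonneg _) (by positivity)
  calc (k : ℝ) ^ U ≤ (K : ℝ) ^ U := pow_le_pow_left₀ (by linarith) hkK U
    _ ≤ (K : ℝ) ^ (U + 1) := pow_le_pow_right₀ (by linarith) (by omega)

lemma AKW_mono {b B T U κ₀ κ₁ κ₂ k : ℕ} {α : Type} {Ω : Finset α} {v : α → ℤ} (hk : 1 ≤ k) (h : κ₀ ≤ κ₁)
    (H : AKW b B T U κ₀ κ₂ k Ω v) : AKW b B T U κ₁ κ₂ k Ω v :=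
  fun y hy1 hy2 => H y ((Nat.pow_le_pow_right hk h).trans hy1) hy2

theorem pal_avW (b B T U : ℕ) (hb : 2 ≤ b) (κ : ℤ) (hκ : κ ≠ 0) : ∃ κ₀ : ℕ, ∀ κ₁ : ℕ,
    ∃ k₀ : ℕ, ∀ k : ℕ, k₀ ≤ k → ∀ c : ℤ, |c| ≤ B * (b : ℤ) ^ k →
    AKW b B T U κ₀ κ₁ k (Pals b k) (fun v => c + κ * ((v : ℕ) : ℤ)) := by
  obtain ⟨κa, ha⟩ := mir_avW b B T U hb κ hκ 0 (by norm_num)
  obtain ⟨κb, hbb⟩ := mir_avW b B T U hb κ hκ 1 le_rfl
  refine ⟨κa + κb, fun κ₁ => ?_⟩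
  obtain ⟨ma, ha⟩ := ha κ₁
  obtain ⟨mb, hbb⟩ := hbb κ₁
  refine ⟨2 * (ma + mb) + 2, fun k hk c hc => ?_⟩
  obtain ⟨m, hm⟩ : ∃ m, m = k / 2 := ⟨_, rfl⟩
  rcases Nat.mod_two_eq_zero_or_one k with h | h
  · have hkm : k = 2 * m + 0 := by omega
    rw [hkm] at hc ⊢
    exact AKW_mono (by omega) (Nat.le_add_right _ _) (ha m (by omega) c hc)
  · have hkm : k = 2 * m + 1 := by omega
    rw [hkm] at hc ⊢
    exact AKW_mono (by omega) (Nat.le_add_left _ _) (hbb m (by omega) c hc)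

open Classical in
/-- few shifts are exceptional for the weighted averages -/
def AVW (N T U κ₀ κ₁ : ℕ) {α : Type} (Ω : Finset α) (v : α → ℤ) : Prop :=
  ∀ y : ℕ, Real.log N ^ κ₀ ≤ y → (y : ℝ) ≤ Real.log N ^ κ₁ → ∀ (I : Type) [Fintype I], (Fintype.card I : ℝ) ≤ Real.log N ^ T →
    ∀ (w : I → ℕ → ℝ) (J : I → ℕ), (∀ i, 1 ≤ J i ∧ ∀ a, |w i a| ≤ Real.log N ^ T ∧ (w i a ≠ 0 → 1 ≤ a ∧ a + J i * y ≤ 3 * N)) →
    ∀ E : α → Prop, (∀ ω ∈ Ω, E ω → 0 ≤ v ω ∧ ∃ i,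
      N / Real.log N ^ U < |∑ a ∈ Icc 1 (3 * N), w i a * (av (J i * y) (a + (v ω).toNat) - 1)|) →
    ((Ω.filter E).card : ℝ) ≤ Ω.card / Real.log N ^ U

/-- weights of a smaller support -/
lemma sum_supp (w : ℕ → ℝ) (h : ℕ → ℝ) (Q Q' : ℕ) (hw : ∀ a, w a ≠ 0 → 1 ≤ a ∧ a ≤ Q) (hQ : Q ≤ Q') :
    ∑ a ∈ Icc 1 Q, w a * h a = ∑ a ∈ Icc 1 Q', w a * h a := by
  apply sum_subset (Icc_subset_Icc_right hQ)
  intro a _ ha
  have : w a = 0 := by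
    by_contra hcon
    have := hw a hcon
    exact ha (mem_Icc.2 this)
  rw [this, zero_mul]

/-- from the number of digits to the logarithm -/
lemma AVW_of_AKW (b B B' T U κ₀ κ₁ : ℕ) (hb : 2 ≤ b) (hB : 3 * B ≤ B') : ∃ N₀ : ℕ, ∀ N, N₀ ≤ N → ∀ k, b ^ k ≤ B * N → N ≤ B * b ^ k →
    ∀ {α : Type} (Ω : Finset α) (v : α → ℤ), AKW b B' (T + 1) (U + 1) κ₀ (κ₁ + 1) k Ω v → AVW N T U (κ₀ + 1) κ₁ Ω v := by
  classical
  obtain ⟨n1, h1⟩ := pat_scale b B hb T 1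
  obtain ⟨n2, h2⟩ := pat_scale b B hb U 1
  obtain ⟨n3, h3⟩ := pat_scale b B hb κ₁ 1
  obtain ⟨n4, h4⟩ := Pool.Agent.H373R2.T7.ev_L' (1 + (2 * ((B : ℝ) + 1)) ^ κ₀)
  refine ⟨n1 + n2 + n3 + n4 + 1, fun N hN k hk1 hk2 α Ω v hAK y hy1 hy2 I _ hI w J hA E hE => ?_⟩
  obtain ⟨hkk, hlog, hT⟩ := h1 N (by omega) k hk2
  obtain ⟨_, _, hU⟩ := h2 N (by omega) k hk2
  obtain ⟨_, _, hκ⟩ := h3 N (by omega) k hk2
  have hbig := h4 N (by omega)
  have hlog0 : 0 < Real.log N := by linarith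
  have hB0 : (0 : ℝ) ≤ B := Nat.cast_nonneg B
  have hN0 : (0 : ℝ) < N := by exact_mod_cast (by omega : 0 < N)
  have hkr : (0 : ℝ) < k := by exact_mod_cast (by omega : 0 < k)
  have drop : ∀ x : ℝ, 0 ≤ x → x ≤ ((B : ℝ) + 1) * x := fun x hx => by nlinarith
  have hLT : Real.log N ^ T ≤ (k : ℝ) ^ (T + 1) := (drop _ (by positivity)).trans hT
  have hLU : Real.log N ^ U ≤ (k : ℝ) ^ (U + 1) := (drop _ (by positivity)).trans hU
  have hLκ : Real.log N ^ κ₁ ≤ (k : ℝ) ^ (κ₁ + 1) := (drop _ (by positivity)).trans hκ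
  have hthr : ((b ^ k : ℕ) : ℝ) / (k : ℝ) ^ (U + 1) ≤ N / Real.log N ^ U := by
    rw [div_le_div_iff₀ (by positivity) (by positivity)]
    have e1 : ((b ^ k : ℕ) : ℝ) ≤ B * N := by exact_mod_cast hk1
    calc ((b ^ k : ℕ) : ℝ) * Real.log N ^ U ≤ (B * N) * Real.log N ^ U := mul_le_mul_of_nonneg_right e1 (by positivity)
      _ = N * (B * Real.log N ^ U) := by ring
      _ ≤ N * (k : ℝ) ^ (U + 1) := by
          apply mul_le_mul_of_nonneg_left _ hN0.le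
          refine le_trans ?_ hU
          have : 0 ≤ Real.log N ^ U := by positivity
          nlinarith
  have hk := k_le b B N k hb hlog hk1
  have hy1' : k ^ κ₀ ≤ y := by
    have e1 : (k : ℝ) ^ κ₀ ≤ Real.log N ^ (κ₀ + 1) := by
      calc (k : ℝ) ^ κ₀ ≤ (2 * ((B : ℝ) + 1) * Real.log N) ^ κ₀ := pow_le_pow_left₀ hkr.le hk _
        _ = (2 * ((B : ℝ) + 1)) ^ κ₀ * Real.log N ^ κ₀ := mul_pow _ _ _
        _ ≤ Real.log N * Real.log N ^ κ₀ := mul_le_mul_of_nonneg_right (by linarith) (by positivity)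
        _ = _ := by rw [pow_succ]; ring
    exact_mod_cast e1.trans hy1
  have hy2' : y ≤ k ^ (κ₁ + 1) := by exact_mod_cast hy2.trans hLκ
  have hQ : 3 * N ≤ B' * b ^ k := by
    calc 3 * N ≤ 3 * (B * b ^ k) := Nat.mul_le_mul_left _ hk2
      _ = (3 * B) * b ^ k := by ring
      _ ≤ _ := Nat.mul_le_mul_right _ hB
  have h5 := hAK y hy1' hy2' I (hI.trans hLT) w J (fun i => ⟨(hA i).1, fun a => ⟨((hA i).2 a).1.trans hLT,
    fun hwa => ⟨(((hA i).2 a).2 hwa).1, ((((hA i).2 a).2 hwa).2).trans hQ⟩⟩⟩) E (fun ω hω hEω => by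
      obtain ⟨h6, i, h7⟩ := hE ω hω hEω
      refine ⟨h6, i, ?_⟩
      rw [← sum_supp (w i) _ (3 * N) (B' * b ^ k) (fun a ha => ⟨(((hA i).2 a).2 ha).1, by
        have := (((hA i).2 a).2 ha).2
        omega⟩) hQ]
      exact lt_of_le_of_lt hthr h7)
  refine h5.trans ?_
  apply div_le_div_of_nonneg_left (Nat.cast_nonneg _) (by positivity) hLU

open Classical in
/-- elements of automatic sets -/
theorem au_avW {σ : Type} [Fintype σ] (b : ℕ) (hb : 2 ≤ b) (M : DFA ℕ σ)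
    (hS : ∀ k : ℕ, ∃ᶠ N : ℕ in Filter.atTop, Real.log N ^ k < (((range N).filter fun v => Nat.digits b v ∈ M.accepts).card : ℝ))
    (κκ : ℤ) (hκκ : κκ ≠ 0) (Bc T U : ℕ) (hBc : 3 ≤ Bc) : ∃ κ₀ : ℕ, ∀ κ₁ : ℕ, ∃ N₀ : ℕ, ∀ N, N₀ ≤ N → ∀ cc : ℤ, |cc| ≤ Bc * N →
    AVW N T U κ₀ κ₁ ((range N).filter (fun v : ℕ => Nat.digits b v ∈ M.accepts)) (fun v => cc + κκ * ((v : ℕ) : ℤ)) := by
  obtain ⟨B, e, C, hB2, hC0, hBe, hlaw⟩ := au_law b hb M hS κκ hκκ Bc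
  obtain ⟨D, N1, hlaw⟩ := hlaw (3 * (U + 1) + 3 * (T + 1) + 6)
  obtain ⟨κ₀, h0⟩ := av_probW B (B.factorial * κκ.natAbs) hB2 (Nat.mul_pos B.factorial_pos (Int.natAbs_pos.2 hκκ)) (T + 1) (U + 1) D
  refine ⟨κ₀ + 1, fun κ₁ => ?_⟩
  obtain ⟨K0, h0⟩ := h0 (κ₁ + 1)
  have hB1 : (1 : ℝ) < B := by exact_mod_cast (by omega : 1 < B)
  have hlogB : 0 < Real.log B := Real.log_pos hB1
  obtain ⟨K1, hK1⟩ := exists_nat_ge (Real.log B ^ T + (B : ℝ) ^ (1 + e) * Real.log B ^ U + C * Real.log B ^ U + Real.log B ^ κ₁)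
  obtain ⟨n4, h4⟩ := Pool.Agent.H373R2.T7.ev_L' (1 + ((e : ℝ) + 3) ^ κ₀)
  refine ⟨N1 + B ^ (K0 + K1 + 1) + n4, fun N hN cc hcc y hy1 hy2 I _ hI w J hA E hEv => ?_⟩
  obtain ⟨n, Ω, p, hn1, hn2, hl, hΩ, hY, hE⟩ := hlaw N (by omega) cc hcc
  have hpB : 0 < B ^ (K0 + K1 + 1) := by positivity
  have hn : K0 + K1 + 1 ≤ n := by
    have h1 : B ^ (K0 + K1 + 1) < B ^ (n + 1) := lt_of_le_of_lt (by omega) hn2
    have := (Nat.pow_lt_pow_iff_right (by omega : 1 < B)).1 h1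
    omega
  obtain ⟨K, hK⟩ : ∃ K, K = n + 1 + e := ⟨_, rfl⟩
  have hlogK := log_K B e N n hB2 (by omega) hn2
  rw [← hK] at hl hY hlogK
  have hKr : (K1 : ℝ) ≤ K := by exact_mod_cast (by omega : K1 ≤ K)
  have hK0' : (1 : ℝ) ≤ K := by exact_mod_cast (by omega : 1 ≤ K)
  have hNpos : 1 < N := by
    have : B ≤ B ^ n := Nat.le_self_pow (by omega) B
    omega
  have hN0 : (0 : ℝ) < N := by exact_mod_cast (by omega : 0 < N)
  have hlog0 : 0 < Real.log N := Real.log_pos (by exact_mod_cast hNpos)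
  have hbig := h4 N (by omega)
  have hlog1 : 1 ≤ Real.log N := by
    have : (0 : ℝ) ≤ ((e : ℝ) + 3) ^ κ₀ := by positivity
    linarith
  have a1 : 0 ≤ Real.log B ^ T := by positivity
  have a2 : 0 ≤ (B : ℝ) ^ (1 + e) * Real.log B ^ U := by positivity
  have a3 : 0 ≤ C * Real.log B ^ U := by positivity
  have a4 : 0 ≤ Real.log B ^ κ₁ := by positivity
  have hpw : ∀ t : ℕ, Real.log B ^ t ≤ K1 → Real.log N ^ t ≤ (K : ℝ) ^ (t + 1) := by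
    intro t ht
    calc Real.log N ^ t ≤ (K * Real.log B) ^ t := pow_le_pow_left₀ hlog0.le hlogK t
      _ = Real.log B ^ t * (K : ℝ) ^ t := by rw [mul_pow]; ring
      _ ≤ K * (K : ℝ) ^ t := mul_le_mul_of_nonneg_right (by linarith) (by positivity)
      _ = _ := by rw [pow_succ]; ring
  have hT := hpw T (by linarith)
  have hκ1 := hpw κ₁ (by linarith)
  have hU : Real.log N ^ U ≤ (K : ℝ) ^ U * Real.log B ^ U := by
    rw [← mul_pow]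
    exact pow_le_pow_left₀ hlog0.le hlogK U
  have hBK : ((B ^ K : ℕ) : ℝ) / (K : ℝ) ^ (U + 1) ≤ N / Real.log N ^ U := by
    rw [div_le_div_iff₀ (by positivity) (by positivity)]
    have b1 : ((B ^ K : ℕ) : ℝ) ≤ (B : ℝ) ^ (1 + e) * N := by
      have : B ^ K ≤ B ^ (1 + e) * N := by
        rw [hK, show n + 1 + e = (1 + e) + n by omega, pow_add]
        exact Nat.mul_le_mul_left _ hn1
      exact_mod_cast this
    calc ((B ^ K : ℕ) : ℝ) * Real.log N ^ U ≤ ((B : ℝ) ^ (1 + e) * N) * ((K : ℝ) ^ U * Real.log B ^ U) :=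
          mul_le_mul b1 hU (by positivity) (by positivity)
      _ = N * (((B : ℝ) ^ (1 + e) * Real.log B ^ U) * (K : ℝ) ^ U) := by ring
      _ ≤ N * (K * (K : ℝ) ^ U) := by
          apply mul_le_mul_of_nonneg_left _ hN0.le
          exact mul_le_mul_of_nonneg_right (by linarith) (by positivity)
      _ = _ := by rw [pow_succ]; ring
  have hQX : Bc * N ≤ B ^ K := by
    have h1 : (2 * Bc + κκ.natAbs + 1) * B ^ (n + 1) ≤ B ^ K := by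
      rw [hK, pow_add B (n + 1) e, mul_comm (B ^ (n + 1))]
      exact Nat.mul_le_mul_right _ hBe
    have h2 : Bc * N ≤ Bc * B ^ (n + 1) := Nat.mul_le_mul_left _ hn2.le
    have h3 : Bc * B ^ (n + 1) ≤ (2 * Bc + κκ.natAbs + 1) * B ^ (n + 1) := Nat.mul_le_mul_right _ (by omega)
    omega
  have hnlog : (n : ℝ) ≤ 2 * Real.log N := by
    have e1 : (n : ℝ) * Real.log B ≤ Real.log N := by
      rw [← Real.log_pow]
      exact Real.log_le_log (by positivity) (by exact_mod_cast hn1)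
    have hlb : (1 : ℝ) / 2 ≤ Real.log B := by
      have : Real.log 2 ≤ Real.log B := Real.log_le_log (by norm_num) (by exact_mod_cast hB2)
      linarith [Real.log_two_gt_d9]
    have h3 : (n : ℝ) * (1 / 2) ≤ n * Real.log B := mul_le_mul_of_nonneg_left hlb (Nat.cast_nonneg _)
    linarith
  have hKlog : (K : ℝ) ≤ ((e : ℝ) + 3) * Real.log N := by
    rw [hK]
    push_cast
    have : (0 : ℝ) ≤ e := Nat.cast_nonneg e
    nlinarith
  have hy1' : K ^ κ₀ ≤ y := by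
    have e1 : (K : ℝ) ^ κ₀ ≤ Real.log N ^ (κ₀ + 1) := by
      calc (K : ℝ) ^ κ₀ ≤ (((e : ℝ) + 3) * Real.log N) ^ κ₀ := pow_le_pow_left₀ (by linarith) hKlog _
        _ = ((e : ℝ) + 3) ^ κ₀ * Real.log N ^ κ₀ := mul_pow _ _ _
        _ ≤ Real.log N * Real.log N ^ κ₀ := mul_le_mul_of_nonneg_right (by linarith) (by positivity)
        _ = _ := by rw [pow_succ]; ring
    exact_mod_cast e1.trans hy1
  have hy2' : y ≤ K ^ (κ₁ + 1) := by exact_mod_cast hy2.trans hκ1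
  obtain ⟨P, hP⟩ : ∃ P : ℕ → Prop, P = fun v => 0 ≤ cc + κκ * ((v : ℕ) : ℤ) ∧ ∃ i,
      N / Real.log N ^ U < |∑ a ∈ Icc 1 (3 * N), w i a * (av (J i * y) (a + (cc + κκ * ((v : ℕ) : ℤ)).toNat) - 1)| := ⟨_, rfl⟩
  have h := h0 K (by omega) ℕ Ω p (fun v : ℕ => cc + κκ * v) hl (Bc * N) hY hQX y hy1' hy2' I (hI.trans hT) w J
    (fun i => ⟨(hA i).1, fun a => ⟨((hA i).2 a).1.trans hT, fun hwa => ⟨(((hA i).2 a).2 hwa).1,
      ((((hA i).2 a).2 hwa).2).trans (Nat.mul_le_mul_right _ hBc)⟩⟩⟩)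
    P (by
      intro v _ hv
      rw [hP] at hv
      obtain ⟨hv0, i, h1⟩ := hv
      refine ⟨hv0, i, ?_⟩
      rw [← sum_supp (w i) _ (3 * N) (Bc * N) (fun a ha => ⟨(((hA i).2 a).2 ha).1, by
        have := (((hA i).2 a).2 ha).2
        omega⟩) (Nat.mul_le_mul_right _ hBc)]
      exact lt_of_le_of_lt hBK h1)
  have hfin : (((range N).filter (fun v : ℕ => Nat.digits b v ∈ M.accepts ∧ P v)).card : ℝ) ≤
      (((range N).filter fun v => Nat.digits b v ∈ M.accepts).card : ℝ) / Real.log N ^ U := by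
    refine (hE _).trans ?_
    obtain ⟨X, hX⟩ : ∃ X : ℝ, X = (((range N).filter fun v => Nat.digits b v ∈ M.accepts).card : ℝ) := ⟨_, rfl⟩
    rw [← hX]
    have hX0 : 0 ≤ X := by rw [hX]; positivity
    rw [le_div_iff₀ (by positivity)]
    refine (mul_le_mul_of_nonneg_right (mul_le_mul_of_nonneg_left h (by positivity)) (by positivity)).trans ?_
    calc C * X * (1 / (K : ℝ) ^ (U + 1)) * Real.log N ^ U ≤ C * X * (1 / (K : ℝ) ^ (U + 1)) * ((K : ℝ) ^ U * Real.log B ^ U) := by gcongr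
      _ = X * (C * Real.log B ^ U) * ((K : ℝ) ^ U / (K : ℝ) ^ (U + 1)) := by ring
      _ ≤ X * K * ((K : ℝ) ^ U / (K : ℝ) ^ (U + 1)) := by
          apply mul_le_mul_of_nonneg_right _ (by positivity)
          exact mul_le_mul_of_nonneg_left (by linarith) hX0
      _ = X := by
          rw [pow_succ]
          field_simp
  refine le_trans (Nat.cast_le.2 (card_le_card ?_)) hfin
  intro v hv
  rw [mem_filter, mem_filter] at hv
  rw [mem_filter]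
  refine ⟨hv.1.1, hv.1.2, ?_⟩
  rw [hP]
  exact hEv v (mem_filter.2 hv.1) hv.2

end Pool.Agent.V11251.SI
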