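import Pool.Agent.V11251.SI.FamAv
import Pool.Agent.W93.AU14

set_option autoImplicit false

/-! Primes to the right of the points of translates: the final theorems for the three families. -/

namespace Pool.Agent.V11251.SI
open Finset
open Pool.Agent.W93.AU
open Pool.Agent.TH646.TT
open Pool.Agent.V11251.DS (pat_scale)
open Pool.Agent.TH872.An (Spread V)
open Pool.Agent.TH872.Mir (Pals)

/-- the length of an integer is at most a constant times its logarithm -/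
lemma k_le (b B N k : ℕ) (hb : 2 ≤ b) (hN : 1 ≤ Real.log N) (h : b ^ k ≤ B * N) :
    (k : ℝ) ≤ 2 * ((B : ℝ) + 1) * Real.log N := by
  have hN0 : (0 : ℝ) < N := by
    by_contra hcon
    have h1 : (N : ℝ) = 0 := le_antisymm (not_lt.1 hcon) (Nat.cast_nonneg _)
    rw [h1, Real.log_zero] at hN
    linarith
  have hB0 : (0 : ℝ) < B := by
    have h1 : 0 < b ^ k := by positivity
    have h2 : 0 < B := by
      by_contra hcon
      have : B = 0 := by omega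
      rw [this, zero_mul] at h
      omega
    exact_mod_cast h2
  have hlb : (1 : ℝ) / 2 ≤ Real.log b := by
    have : Real.log 2 ≤ Real.log b := Real.log_le_log (by norm_num) (by exact_mod_cast hb)
    linarith [Real.log_two_gt_d9]
  have h1 : (k : ℝ) * Real.log b ≤ Real.log B + Real.log N := by
    rw [← Real.log_pow, ← Real.log_mul hB0.ne' hN0.ne']
    exact Real.log_le_log (by positivity) (by exact_mod_cast h)
  have h2 : Real.log B ≤ B := (Real.log_le_sub_one_of_pos hB0).trans (by linarith)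
  have h3 : (k : ℝ) * (1 / 2) ≤ k * Real.log b := mul_le_mul_of_nonneg_left hlb (Nat.cast_nonneg _)
  nlinarith

/-- from the number of digits to the logarithm -/
lemma AV_of_AK (b B B' T U κ₀ κ₁ : ℕ) (hb : 2 ≤ b) (hB : 3 * B ≤ B') : ∃ N₀ : ℕ, ∀ N, N₀ ≤ N → ∀ k, b ^ k ≤ B * N → N ≤ B * b ^ k →
    ∀ {α : Type} (Ω : Finset α) (v : α → ℤ), AK b B' (T + 1) (U + 1) κ₀ (κ₁ + 1) k Ω v → AV N T U (κ₀ + 1) κ₁ Ω v := by
  classical
  obtain ⟨n1, h1⟩ := pat_scale b B hb T 1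
  obtain ⟨n2, h2⟩ := pat_scale b B hb U 1
  obtain ⟨n3, h3⟩ := pat_scale b B hb κ₁ 1
  obtain ⟨n4, h4⟩ := Pool.Agent.H373R2.T7.ev_L' (1 + (2 * ((B : ℝ) + 1)) ^ κ₀)
  refine ⟨n1 + n2 + n3 + n4 + 1, fun N hN k hk1 hk2 α Ω v hAK y hy1 hy2 I hI A hA E hE => ?_⟩
  obtain ⟨hkk, hlog, hT⟩ := h1 N (by omega) k hk2
  obtain ⟨_, _, hU⟩ := h2 N (by omega) k hk2
  obtain ⟨_, _, hκ⟩ := h3 N (by omega) k hk2
  have hbig := h4 N (by omega)
  have hlog0 : 0 < Real.log N := by linarith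
  have hB0 : (0 : ℝ) ≤ B := Nat.cast_nonneg B
  have hN0 : (0 : ℝ) < N := by exact_mod_cast (by omega : 0 < N)
  have hkr : (0 : ℝ) < k := by exact_mod_cast (by omega : 0 < k)
  have drop : ∀ x : ℝ, 0 ≤ x → x ≤ ((B : ℝ) + 1) * x := fun x hx => by nlinarith
  have hLT : Real.log N ^ T ≤ (k : ℝ) ^ (T + 1) := (drop _ (by positivity)).trans hT
  have hLU : Real.log N ^ U ≤ (k : ℝ) ^ (U + 1) := (drop _ (by positivity)).trans hU
  have hLκ : Real.log N ^ κ₁ ≤ (k : ℝ) ^ (κ₁ + 1) := (drop _ (by positivity)).trans hκ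
  have hthr : ((b ^ k : ℕ) : ℝ) / (k : ℝ) ^ (U + 1) ≤ N / Real.log N ^ U := by
    rw [div_le_div_iff₀ (by positivity) (by positivity)]
    have e1 : ((b ^ k : ℕ) : ℝ) ≤ B * N := by exact_mod_cast hk1
    calc ((b ^ k : ℕ) : ℝ) * Real.log N ^ U ≤ (B * N) * Real.log N ^ U := mul_le_mul_of_nonneg_right e1 (by positivity)
      _ = N * (B * Real.log N ^ U) := by ring
      _ ≤ N * (k : ℝ) ^ (U + 1) := by
          apply mul_le_mul_of_nonneg_left _ hN0.le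
          refine le_trans ?_ hU
          have : 0 ≤ Real.log N ^ U := by positivity
          nlinarith
  have hk := k_le b B N k hb hlog hk1
  have hy1' : k ^ κ₀ ≤ y := by
    have e1 : (k : ℝ) ^ κ₀ ≤ Real.log N ^ (κ₀ + 1) := by
      calc (k : ℝ) ^ κ₀ ≤ (2 * ((B : ℝ) + 1) * Real.log N) ^ κ₀ := pow_le_pow_left₀ hkr.le hk _
        _ = (2 * ((B : ℝ) + 1)) ^ κ₀ * Real.log N ^ κ₀ := mul_pow _ _ _
        _ ≤ Real.log N * Real.log N ^ κ₀ := mul_le_mul_of_nonneg_right (by linarith) (by positivity)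
        _ = _ := by rw [pow_succ]; ring
    exact_mod_cast e1.trans hy1
  have hy2' : y ≤ k ^ (κ₁ + 1) := by exact_mod_cast hy2.trans hLκ
  have h5 := hAK y hy1' hy2' I (hI.trans hLT) A (fun i hi => ⟨(hA i hi).1, fun a ha => ⟨((hA i hi).2 a ha).1, by
    have e1 := ((hA i hi).2 a ha).2
    calc a + i.2 * y ≤ 3 * N := e1
      _ ≤ 3 * (B * b ^ k) := Nat.mul_le_mul_left _ hk2
      _ = (3 * B) * b ^ k := by ring
      _ ≤ _ := Nat.mul_le_mul_right _ hB⟩⟩) E (fun ω hω hEω => by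
      obtain ⟨h6, i, hi, h7⟩ := hE ω hω hEω
      exact ⟨h6, i, hi, lt_of_le_of_lt hthr h7⟩)
  refine h5.trans ?_
  apply div_le_div_of_nonneg_left (Nat.cast_nonneg _) (by positivity) hLU

lemma cc_le (b B N k : ℕ) (c : ℤ) (hk2 : N ≤ B * b ^ k) (hc : |c| ≤ B * N) :
    |c| ≤ (3 * B + B * B : ℕ) * (b : ℤ) ^ k := by
  have e1 : (N : ℤ) ≤ B * (b : ℤ) ^ k := by exact_mod_cast hk2
  have e2 : (0 : ℤ) ≤ B := by positivity
  have e3 : (0 : ℤ) ≤ (3 * B : ℕ) * (b : ℤ) ^ k := by positivity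
  push_cast at e3 ⊢
  nlinarith

open Classical in
/-- rearranged digits -/
theorem perm_gd (b B T U : ℕ) (hb : 2 ≤ b) (κ : ℤ) (hκ : κ ≠ 0) (η : ℝ) (hη : 0 < η) (ε : ℝ) (hε : 0 < ε) (hε1 : ε ≤ 1 / 4) :
    ∃ κ' N₀ : ℕ, ∀ N, N₀ ≤ N → ∀ k, b ^ k ≤ B * N → N ≤ B * b ^ k → ∀ d : Fin k → ℕ, Spread b k η d → ∀ c : ℤ, |c| ≤ B * N →
    ∀ L : ℕ, (L : ℝ) ≤ Real.log N ^ T → ∀ A : ℕ → Finset ℕ, (∀ l < L, A l ⊆ Icc 1 N ∧ (N : ℝ) ≤ (A l).card * Real.log N ^ T) →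
    (((univ : Finset (Equiv.Perm (Fin k))).filter (fun σ => 1 ≤ c + κ * (V b d σ : ℕ) ∧ c + κ * (V b d σ : ℕ) ≤ N ∧
      ∃ l < L, ¬ Gd ε κ' N (A l) (c + κ * (V b d σ : ℕ)).toNat)).card : ℝ) ≤ (k.factorial : ℝ) / Real.log N ^ U := by
  obtain ⟨κ₀, h0⟩ := an_av b (3 * B + B * B) (T + 3 + 1) (U + T + 1 + 1) hb κ hκ η hη
  obtain ⟨k0, h0⟩ := h0 (κ₀ + 1 + 1 + 1)
  obtain ⟨n1, h1⟩ := AV_of_AK b B (3 * B + B * B) (T + 3) (U + T + 1) κ₀ (κ₀ + 1 + 1) hb (Nat.le_add_right _ _)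
  obtain ⟨κ', n2, h2⟩ := good_av T U (κ₀ + 1) ε hε hε1
  obtain ⟨n3, h3⟩ := pat_scale b B hb T k0
  refine ⟨κ', n1 + n2 + n3, fun N hN k hk1 hk2 d hd c hc L hL A hA => ?_⟩
  obtain ⟨hkk, _, _⟩ := h3 N (by omega) k hk2
  have h5 := h2 N (by omega) _ _ (h1 N (by omega) k hk1 hk2 _ _ (h0 k hkk d hd c (cc_le b B N k c hk2 hc))) L hL A hA
  rw [card_univ, Fintype.card_perm, Fintype.card_fin] at h5
  exact h5

open Classical in
/-- palindromes -/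
theorem pal_gd (b B T U : ℕ) (hb : 2 ≤ b) (κ : ℤ) (hκ : κ ≠ 0) (ε : ℝ) (hε : 0 < ε) (hε1 : ε ≤ 1 / 4) :
    ∃ κ' N₀ : ℕ, ∀ N, N₀ ≤ N → ∀ k, b ^ k ≤ B * N → N ≤ B * b ^ k → ∀ c : ℤ, |c| ≤ B * N →
    ∀ L : ℕ, (L : ℝ) ≤ Real.log N ^ T → ∀ A : ℕ → Finset ℕ, (∀ l < L, A l ⊆ Icc 1 N ∧ (N : ℝ) ≤ (A l).card * Real.log N ^ T) →
    (((Pals b k).filter (fun v : ℕ => 1 ≤ c + κ * (v : ℤ) ∧ c + κ * (v : ℤ) ≤ N ∧
      ∃ l < L, ¬ Gd ε κ' N (A l) (c + κ * (v : ℤ)).toNat)).card : ℝ) ≤ ((Pals b k).card : ℝ) / Real.log N ^ U := by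
  obtain ⟨κ₀, h0⟩ := pal_av b (3 * B + B * B) (T + 3 + 1) (U + T + 1 + 1) hb κ hκ
  obtain ⟨k0, h0⟩ := h0 (κ₀ + 1 + 1 + 1)
  obtain ⟨n1, h1⟩ := AV_of_AK b B (3 * B + B * B) (T + 3) (U + T + 1) κ₀ (κ₀ + 1 + 1) hb (Nat.le_add_right _ _)
  obtain ⟨κ', n2, h2⟩ := good_av T U (κ₀ + 1) ε hε hε1
  obtain ⟨n3, h3⟩ := pat_scale b B hb T k0
  refine ⟨κ', n1 + n2 + n3, fun N hN k hk1 hk2 c hc L hL A hA => ?_⟩
  obtain ⟨hkk, _, _⟩ := h3 N (by omega) k hk2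
  exact h2 N (by omega) _ _ (h1 N (by omega) k hk1 hk2 _ _ (h0 k hkk c (cc_le b B N k c hk2 hc))) L hL A hA

open Classical in
/-- elements of automatic sets -/
theorem au_av {σ : Type} [Fintype σ] (b : ℕ) (hb : 2 ≤ b) (M : DFA ℕ σ)
    (hS : ∀ k : ℕ, ∃ᶠ N : ℕ in Filter.atTop, Real.log N ^ k < (((range N).filter fun v => Nat.digits b v ∈ M.accepts).card : ℝ))
    (κκ : ℤ) (hκκ : κκ ≠ 0) (Bc T U : ℕ) (hBc : 3 ≤ Bc) : ∃ κ₀ : ℕ, ∀ κ₁ : ℕ, ∃ N₀ : ℕ, ∀ N, N₀ ≤ N → ∀ cc : ℤ, |cc| ≤ Bc * N →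
    AV N T U κ₀ κ₁ ((range N).filter (fun v : ℕ => Nat.digits b v ∈ M.accepts)) (fun v => cc + κκ * ((v : ℕ) : ℤ)) := by
  obtain ⟨B, e, C, hB2, hC0, hBe, hlaw⟩ := au_law b hb M hS κκ hκκ Bc
  obtain ⟨D, N1, hlaw⟩ := hlaw (3 * (U + 1) + (T + 1) + 6)
  obtain ⟨κ₀, h0⟩ := av_prob B (B.factorial * κκ.natAbs) hB2 (Nat.mul_pos B.factorial_pos (Int.natAbs_pos.2 hκκ)) (T + 1) (U + 1) D
  refine ⟨κ₀ + 1, fun κ₁ => ?_⟩
  obtain ⟨K0, h0⟩ := h0 (κ₁ + 1)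
  have hB1 : (1 : ℝ) < B := by exact_mod_cast (by omega : 1 < B)
  have hlogB : 0 < Real.log B := Real.log_pos hB1
  obtain ⟨K1, hK1⟩ := exists_nat_ge (Real.log B ^ T + (B : ℝ) ^ (1 + e) * Real.log B ^ U + C * Real.log B ^ U + Real.log B ^ κ₁)
  obtain ⟨n4, h4⟩ := Pool.Agent.H373R2.T7.ev_L' (1 + ((e : ℝ) + 3) ^ κ₀)
  refine ⟨N1 + B ^ (K0 + K1 + 1) + n4, fun N hN cc hcc y hy1 hy2 I hI A hA E hEv => ?_⟩
  obtain ⟨n, Ω, p, hn1, hn2, hl, hΩ, hY, hE⟩ := hlaw N (by omega) cc hcc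
  have hpB : 0 < B ^ (K0 + K1 + 1) := by positivity
  have hn : K0 + K1 + 1 ≤ n := by
    have h1 : B ^ (K0 + K1 + 1) < B ^ (n + 1) := lt_of_le_of_lt (by omega) hn2
    have := (Nat.pow_lt_pow_iff_right (by omega : 1 < B)).1 h1
    omega
  obtain ⟨K, hK⟩ : ∃ K, K = n + 1 + e := ⟨_, rfl⟩
  have hlogK := log_K B e N n hB2 (by omega) hn2
  rw [← hK] at hl hY hlogK
  have hKr : (K1 : ℝ) ≤ K := by exact_mod_cast (by omega : K1 ≤ K)
  have hK0' : (1 : ℝ) ≤ K := by exact_mod_cast (by omega : 1 ≤ K)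
  have hNpos : 1 < N := by
    have : B ≤ B ^ n := Nat.le_self_pow (by omega) B
    omega
  have hN0 : (0 : ℝ) < N := by exact_mod_cast (by omega : 0 < N)
  have hlog0 : 0 < Real.log N := Real.log_pos (by exact_mod_cast hNpos)
  have hbig := h4 N (by omega)
  have hlog1 : 1 ≤ Real.log N := by
    have : (0 : ℝ) ≤ ((e : ℝ) + 3) ^ κ₀ := by positivity
    linarith
  have a1 : 0 ≤ Real.log B ^ T := by positivity
  have a2 : 0 ≤ (B : ℝ) ^ (1 + e) * Real.log B ^ U := by positivity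
  have a3 : 0 ≤ C * Real.log B ^ U := by positivity
  have a4 : 0 ≤ Real.log B ^ κ₁ := by positivity
  have hpw : ∀ t : ℕ, Real.log B ^ t ≤ K1 → Real.log N ^ t ≤ (K : ℝ) ^ (t + 1) := by
    intro t ht
    calc Real.log N ^ t ≤ (K * Real.log B) ^ t := pow_le_pow_left₀ hlog0.le hlogK t
      _ = Real.log B ^ t * (K : ℝ) ^ t := by rw [mul_pow]; ring
      _ ≤ K * (K : ℝ) ^ t := mul_le_mul_of_nonneg_right (by linarith) (by positivity)
      _ = _ := by rw [pow_succ]; ring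
  have hT := hpw T (by linarith)
  have hκ1 := hpw κ₁ (by linarith)
  have hU : Real.log N ^ U ≤ (K : ℝ) ^ U * Real.log B ^ U := by
    rw [← mul_pow]
    exact pow_le_pow_left₀ hlog0.le hlogK U
  have hBK : ((B ^ K : ℕ) : ℝ) / (K : ℝ) ^ (U + 1) ≤ N / Real.log N ^ U := by
    rw [div_le_div_iff₀ (by positivity) (by positivity)]
    have b1 : ((B ^ K : ℕ) : ℝ) ≤ (B : ℝ) ^ (1 + e) * N := by
      have : B ^ K ≤ B ^ (1 + e) * N := by
        rw [hK, show n + 1 + e = (1 + e) + n by omega, pow_add]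
        exact Nat.mul_le_mul_left _ hn1
      exact_mod_cast this
    calc ((B ^ K : ℕ) : ℝ) * Real.log N ^ U ≤ ((B : ℝ) ^ (1 + e) * N) * ((K : ℝ) ^ U * Real.log B ^ U) :=
          mul_le_mul b1 hU (by positivity) (by positivity)
      _ = N * (((B : ℝ) ^ (1 + e) * Real.log B ^ U) * (K : ℝ) ^ U) := by ring
      _ ≤ N * (K * (K : ℝ) ^ U) := by
          apply mul_le_mul_of_nonneg_left _ hN0.le
          exact mul_le_mul_of_nonneg_right (by linarith) (by positivity)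
      _ = _ := by rw [pow_succ]; ring
  have hQX : Bc * N ≤ B ^ K := by
    have h1 : (2 * Bc + κκ.natAbs + 1) * B ^ (n + 1) ≤ B ^ K := by
      rw [hK, pow_add B (n + 1) e, mul_comm (B ^ (n + 1))]
      exact Nat.mul_le_mul_right _ hBe
    have h2 : Bc * N ≤ Bc * B ^ (n + 1) := Nat.mul_le_mul_left _ hn2.le
    have h3 : Bc * B ^ (n + 1) ≤ (2 * Bc + κκ.natAbs + 1) * B ^ (n + 1) := Nat.mul_le_mul_right _ (by omega)
    omega
  have hnlog : (n : ℝ) ≤ 2 * Real.log N := by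
    have e1 : (n : ℝ) * Real.log B ≤ Real.log N := by
      rw [← Real.log_pow]
      exact Real.log_le_log (by positivity) (by exact_mod_cast hn1)
    have hlb : (1 : ℝ) / 2 ≤ Real.log B := by
      have : Real.log 2 ≤ Real.log B := Real.log_le_log (by norm_num) (by exact_mod_cast hB2)
      linarith [Real.log_two_gt_d9]
    have h3 : (n : ℝ) * (1 / 2) ≤ n * Real.log B := mul_le_mul_of_nonneg_left hlb (Nat.cast_nonneg _)
    linarith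
  have hKlog : (K : ℝ) ≤ ((e : ℝ) + 3) * Real.log N := by
    rw [hK]
    push_cast
    have : (0 : ℝ) ≤ e := Nat.cast_nonneg e
    nlinarith
  have hy1' : K ^ κ₀ ≤ y := by
    have e1 : (K : ℝ) ^ κ₀ ≤ Real.log N ^ (κ₀ + 1) := by
      calc (K : ℝ) ^ κ₀ ≤ (((e : ℝ) + 3) * Real.log N) ^ κ₀ := pow_le_pow_left₀ (by linarith) hKlog _
        _ = ((e : ℝ) + 3) ^ κ₀ * Real.log N ^ κ₀ := mul_pow _ _ _
        _ ≤ Real.log N * Real.log N ^ κ₀ := mul_le_mul_of_nonneg_right (by linarith) (by positivity)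
        _ = _ := by rw [pow_succ]; ring
    exact_mod_cast e1.trans hy1
  have hy2' : y ≤ K ^ (κ₁ + 1) := by exact_mod_cast hy2.trans hκ1
  obtain ⟨P, hP⟩ : ∃ P : ℕ → Prop, P = fun v => 0 ≤ cc + κκ * ((v : ℕ) : ℤ) ∧ ∃ i ∈ I,
      N / Real.log N ^ U < |∑ a ∈ A i.1, av (i.2 * y) (a + (cc + κκ * ((v : ℕ) : ℤ)).toNat) - (A i.1).card| := ⟨_, rfl⟩
  have h := h0 K (by omega) ℕ Ω p (fun v : ℕ => cc + κκ * v) hl (Bc * N) hY hQX y hy1' hy2' I (hI.trans hT) A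
    (fun i hi => ⟨(hA i hi).1, fun a ha => ⟨((hA i hi).2 a ha).1, (((hA i hi).2 a ha).2).trans (Nat.mul_le_mul_right _ hBc)⟩⟩)
    P (by
      intro v _ hv
      rw [hP] at hv
      obtain ⟨hv0, i, hi, h1⟩ := hv
      exact ⟨hv0, i, hi, lt_of_le_of_lt hBK h1⟩)
  have hfin : (((range N).filter (fun v : ℕ => Nat.digits b v ∈ M.accepts ∧ P v)).card : ℝ) ≤
      (((range N).filter fun v => Nat.digits b v ∈ M.accepts).card : ℝ) / Real.log N ^ U := by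
    refine (hE _).trans ?_
    obtain ⟨X, hX⟩ : ∃ X : ℝ, X = (((range N).filter fun v => Nat.digits b v ∈ M.accepts).card : ℝ) := ⟨_, rfl⟩
    rw [← hX]
    have hX0 : 0 ≤ X := by rw [hX]; positivity
    rw [le_div_iff₀ (by positivity)]
    refine (mul_le_mul_of_nonneg_right (mul_le_mul_of_nonneg_left h (by positivity)) (by positivity)).trans ?_
    calc C * X * (1 / (K : ℝ) ^ (U + 1)) * Real.log N ^ U ≤ C * X * (1 / (K : ℝ) ^ (U + 1)) * ((K : ℝ) ^ U * Real.log B ^ U) := by gcongr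
      _ = X * (C * Real.log B ^ U) * ((K : ℝ) ^ U / (K : ℝ) ^ (U + 1)) := by ring
      _ ≤ X * K * ((K : ℝ) ^ U / (K : ℝ) ^ (U + 1)) := by
          apply mul_le_mul_of_nonneg_right _ (by positivity)
          exact mul_le_mul_of_nonneg_left (by linarith) hX0
      _ = X := by
          rw [pow_succ]
          field_simp
  refine le_trans (Nat.cast_le.2 (card_le_card ?_)) hfin
  intro v hv
  rw [mem_filter, mem_filter] at hv
  rw [mem_filter]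
  refine ⟨hv.1.1, hv.1.2, ?_⟩
  rw [hP]
  exact hEv v (mem_filter.2 hv.1) hv.2

open Classical in
/-- elements of automatic sets -/
theorem au_gd {σ : Type} [Fintype σ] (b : ℕ) (hb : 2 ≤ b) (M : DFA ℕ σ)
    (hS : ∀ k : ℕ, ∃ᶠ N : ℕ in Filter.atTop, Real.log N ^ k < (((range N).filter fun v => Nat.digits b v ∈ M.accepts).card : ℝ))
    (κκ : ℤ) (hκκ : κκ ≠ 0) (B T U : ℕ) (ε : ℝ) (hε : 0 < ε) (hε1 : ε ≤ 1 / 4) :
    ∃ κ' N₀ : ℕ, ∀ N, N₀ ≤ N → ∀ c : ℤ, |c| ≤ B * N →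
    ∀ L : ℕ, (L : ℝ) ≤ Real.log N ^ T → ∀ A : ℕ → Finset ℕ, (∀ l < L, A l ⊆ Icc 1 N ∧ (N : ℝ) ≤ (A l).card * Real.log N ^ T) →
    (((range N).filter (fun v : ℕ => Nat.digits b v ∈ M.accepts ∧ 1 ≤ c + κκ * (v : ℤ) ∧ c + κκ * (v : ℤ) ≤ N ∧
      ∃ l < L, ¬ Gd ε κ' N (A l) (c + κκ * (v : ℤ)).toNat)).card : ℝ) ≤
      (((range N).filter (fun v : ℕ => Nat.digits b v ∈ M.accepts)).card : ℝ) / Real.log N ^ U := by
  obtain ⟨κ₀, h0⟩ := au_av b hb M hS κκ hκκ (B + 3) (T + 3) (U + T + 1) (Nat.le_add_left _ _)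
  obtain ⟨n1, h1⟩ := h0 (κ₀ + 1)
  obtain ⟨κ', n2, h2⟩ := good_av T U κ₀ ε hε hε1
  refine ⟨κ', n1 + n2, fun N hN c hc L hL A hA => ?_⟩
  have h5 := h2 N (by omega) _ _ (h1 N (by omega) c (by
    refine hc.trans ?_
    push_cast
    have : (0 : ℤ) ≤ N := by positivity
    nlinarith)) L hL A hA
  refine le_trans (Nat.cast_le.2 (card_le_card ?_)) h5
  intro v hv
  rw [mem_filter] at hv
  rw [mem_filter, mem_filter]
  exact ⟨⟨hv.1, hv.2.1⟩, hv.2.2⟩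

end Pool.Agent.V11251.SI
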