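import Pool.Agent.V11251.SI.Many

set_option autoImplicit false

/-! Primes in several short intervals to the right of the points of translates: the final theorems for the three
families. -/

namespace Pool.Agent.V11251.SI
open Finset Filter
open Pool.Agent.W301.SS
open Pool.Agent.TH646.TT
open Pool.Agent.V11251.DS (pat_scale)
open Pool.Agent.TH872.An (Spread V)
open Pool.Agent.TH872.Mir (Pals)

/-- the good vectors of shifts -/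
def Gd2 {s : ℕ} (ε t : ℝ) (κ N : ℕ) (A : Finset ℕ) (x : Fin s → ℕ) : Prop :=
  ∀ y : Fin s → ℕ, (∀ i, Real.log N ^ κ ≤ y i ∧ y i ≤ N) →
    |∑ a ∈ A, ∏ i, ((pn (a + x i) (y i) : ℝ) * Real.log N / y i) - A.card| ≤ ε * A.card ∧
    (1 / 4 ^ s - ε) * A.card ≤ ((A.filter (fun a => ∀ i, t * y i ≤ (pn (a + x i) (y i) : ℝ) * Real.log N)).card : ℝ)

/-- few vectors are exceptional -/
theorem good2 (s T U κ₀ : ℕ) (ε : ℝ) (hε : 0 < ε) : ∃ t : ℝ, 0 < t ∧ ∃ κ' N₀ : ℕ, ∀ N, N₀ ≤ N →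
    ∀ {α : Fin s → Type} [∀ i, DecidableEq (α i)] (Ω : ∀ i, Finset (α i)) (v : ∀ i, α i → ℤ),
    (∀ i, AVW N (T + 3 * s) (U + T + 1 + 1) κ₀ (κ₀ + 1) (Ω i) (v i)) →
    ∀ L : ℕ, (L : ℝ) ≤ Real.log N ^ T → ∀ A : ℕ → Finset ℕ, (∀ l < L, A l ⊆ Icc 1 N ∧ (N : ℝ) ≤ (A l).card * Real.log N ^ T) →
    ∀ E : (∀ i, α i) → Prop, [DecidablePred E] → (∀ ω ∈ Fintype.piFinset Ω, E ω → (∀ i, 1 ≤ v i (ω i) ∧ v i (ω i) ≤ N) ∧
      ∃ l < L, ¬ Gd2 ε t κ' N (A l) (fun i => (v i (ω i)).toNat)) →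
    (((Fintype.piFinset Ω).filter E).card : ℝ) ≤ (Fintype.piFinset Ω).card / Real.log N ^ U := by
  obtain ⟨t, ht, n1, h1⟩ := many2 s T ε hε
  refine ⟨t, ht, ?_⟩
  obtain ⟨η, hη0, hη1, n2, h2⟩ := det2 s T (κ₀ + 1) (min ε t) (lt_min hε ht)
  obtain ⟨n3, h3⟩ := joint s T (U + T + 1) κ₀ (κ₀ + 1)
  obtain ⟨n4, h4⟩ := eventually_atTop.1 (ev_L (1 / η + 8))
  refine ⟨κ₀ + 1 + 1 + (T + s + 21), n1 + n2 + n3 + n4 + 1, fun N hN α _ Ω v hav L hL A hA E _ hE => ?_⟩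
  have hLN := h4 N (by omega)
  have hd : 0 < 1 / η := by positivity
  have hL8 : 8 ≤ Real.log N := by linarith
  have hL0 : 0 < Real.log N := by linarith
  have hL1 : 1 ≤ Real.log N := by linarith
  have hN0 : (0 : ℝ) < N := by exact_mod_cast (by omega : 0 < N)
  obtain ⟨y0, hy0⟩ : ∃ y0, y0 = ⌈Real.log N ^ κ₀⌉₊ := ⟨_, rfl⟩
  have hyl : Real.log N ^ κ₀ ≤ y0 := by rw [hy0]; exact Nat.le_ceil _
  have hpow1 : 1 ≤ Real.log N ^ κ₀ := one_le_pow₀ hL1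
  have hyu : (y0 : ℝ) ≤ Real.log N ^ (κ₀ + 1) := by
    have := Nat.ceil_lt_add_one (show 0 ≤ Real.log N ^ κ₀ by positivity)
    rw [← hy0] at this
    rw [pow_succ]
    nlinarith
  have hy01 : 1 ≤ y0 := by
    have : (1 : ℝ) ≤ y0 := hpow1.trans hyl
    exact_mod_cast this
  have key := h3 N (by omega) Ω v hav y0 hy01 hyl hyu L hL A (fun l hl => (hA l hl).1) (JJ η N) (JJ_card η N hL8) E (by
    intro ω hω hEω
    obtain ⟨hv, l, hl, hbad⟩ := hE ω hω hEω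
    refine ⟨hv, l, hl, ?_⟩
    by_contra hcon
    push Not at hcon
    apply hbad
    intro y hy
    have hx : ∀ i, 1 ≤ (v i (ω i)).toNat ∧ (v i (ω i)).toNat ≤ N := fun i => by
      have := hv i
      omega
    have k1 := h2 N (by omega) y0 hy01 hyu (A l) (hA l hl).1 (hA l hl).2 (fun i => (v i (ω i)).toNat) (fun i => (hx i).2) (by
      intro J hJ
      refine (hcon J hJ).trans ?_
      rw [div_le_iff₀ (by positivity)]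
      refine (hA l hl).2.trans ?_
      have e1 : 1 ≤ η * Real.log N ^ (U + 1) := by
        have e2 : Real.log N ≤ Real.log N ^ (U + 1) := le_self_pow₀ hL1 (by omega)
        have e3 : 1 / η ≤ Real.log N := by linarith
        rw [div_le_iff₀ hη0] at e3
        nlinarith
      calc ((A l).card : ℝ) * Real.log N ^ T = ((A l).card : ℝ) * Real.log N ^ T * 1 := (mul_one _).symm
        _ ≤ ((A l).card : ℝ) * Real.log N ^ T * (η * Real.log N ^ (U + 1)) := mul_le_mul_of_nonneg_left e1 (by positivity)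
        _ = _ := by
            rw [show U + T + 1 = T + (U + 1) by ring, pow_add]
            ring) y (fun i => ⟨(pow_le_pow_right₀ hL1 (by omega)).trans (hy i).1, (hy i).2⟩)
    have hc0 : (0 : ℝ) ≤ (A l).card := Nat.cast_nonneg _
    refine ⟨k1.trans (mul_le_mul_of_nonneg_right (min_le_left _ _) hc0), ?_⟩
    have k2 := (abs_le.1 (k1.trans (mul_le_mul_of_nonneg_right (min_le_right _ _) hc0))).1
    exact h1 N (by omega) (A l) (hA l hl).1 (hA l hl).2 (fun i => (v i (ω i)).toNat) hx y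
      (fun i => (pow_le_pow_right₀ hL1 (by omega)).trans (hy i).1) (by linarith))
  refine key.trans ?_
  apply div_le_div_of_nonneg_left (Nat.cast_nonneg _) (by positivity)
  exact pow_le_pow_right₀ hL1 (by omega)

lemma AVW_mono {N T U κ₀ κ₁ κ₂ : ℕ} {α : Type} {Ω : Finset α} {v : α → ℤ} (hN : 1 ≤ Real.log N) (h : κ₀ ≤ κ₁)
    (H : AVW N T U κ₀ κ₂ Ω v) : AVW N T U κ₁ κ₂ Ω v :=
  fun y hy1 hy2 => H y ((pow_le_pow_right₀ hN h).trans hy1) hy2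

theorem fam_perm (b B T U : ℕ) (hb : 2 ≤ b) (κ : ℤ) (hκ : κ ≠ 0) (η : ℝ) (hη : 0 < η) : ∃ κ₀ : ℕ, ∀ κ₁ : ℕ, ∃ N₀ : ℕ,
    ∀ N, N₀ ≤ N → ∀ k, b ^ k ≤ B * N → N ≤ B * b ^ k → ∀ d : Fin k → ℕ, Spread b k η d → ∀ c : ℤ, |c| ≤ B * N →
    AVW N T U κ₀ κ₁ (univ : Finset (Equiv.Perm (Fin k))) (fun σ => c + κ * (V b d σ : ℕ)) := by
  obtain ⟨κ₀, h0⟩ := an_avW b (3 * B + B * B) (T + 1) (U + 1) hb κ hκ η hη
  refine ⟨κ₀ + 1, fun κ₁ => ?_⟩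
  obtain ⟨k0, h0⟩ := h0 (κ₁ + 1)
  obtain ⟨n1, h1⟩ := AVW_of_AKW b B (3 * B + B * B) T U κ₀ κ₁ hb (Nat.le_add_right _ _)
  obtain ⟨n3, h3⟩ := pat_scale b B hb T k0
  refine ⟨n1 + n3, fun N hN k hk1 hk2 d hd c hc => ?_⟩
  obtain ⟨hkk, _, _⟩ := h3 N (by omega) k hk2
  exact h1 N (by omega) k hk1 hk2 _ _ (h0 k hkk d hd c (cc_le b B N k c hk2 hc))

theorem fam_pal (b B T U : ℕ) (hb : 2 ≤ b) (κ : ℤ) (hκ : κ ≠ 0) : ∃ κ₀ : ℕ, ∀ κ₁ : ℕ, ∃ N₀ : ℕ,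
    ∀ N, N₀ ≤ N → ∀ k, b ^ k ≤ B * N → N ≤ B * b ^ k → ∀ c : ℤ, |c| ≤ B * N →
    AVW N T U κ₀ κ₁ (Pals b k) (fun v => c + κ * ((v : ℕ) : ℤ)) := by
  obtain ⟨κ₀, h0⟩ := pal_avW b (3 * B + B * B) (T + 1) (U + 1) hb κ hκ
  refine ⟨κ₀ + 1, fun κ₁ => ?_⟩
  obtain ⟨k0, h0⟩ := h0 (κ₁ + 1)
  obtain ⟨n1, h1⟩ := AVW_of_AKW b B (3 * B + B * B) T U κ₀ κ₁ hb (Nat.le_add_right _ _)
  obtain ⟨n3, h3⟩ := pat_scale b B hb T k0
  refine ⟨n1 + n3, fun N hN k hk1 hk2 c hc => ?_⟩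
  obtain ⟨hkk, _, _⟩ := h3 N (by omega) k hk2
  exact h1 N (by omega) k hk1 hk2 _ _ (h0 k hkk c (cc_le b B N k c hk2 hc))

/-- rearranged digits -/
theorem perm2 (s : ℕ) (b : Fin s → ℕ) (hb : ∀ i, 2 ≤ b i) (κ : Fin s → ℤ) (hκ : ∀ i, κ i ≠ 0) (η : ℝ) (hη : 0 < η)
    (B T U : ℕ) (ε : ℝ) (hε : 0 < ε) : ∃ t : ℝ, 0 < t ∧ ∃ κ' N₀ : ℕ, ∀ N, N₀ ≤ N →
    ∀ k : Fin s → ℕ, (∀ i, b i ^ k i ≤ B * N ∧ N ≤ B * b i ^ k i) → ∀ d : ∀ i, Fin (k i) → ℕ, (∀ i, Spread (b i) (k i) η (d i)) →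
    ∀ c : Fin s → ℤ, (∀ i, |c i| ≤ B * N) →
    ∀ L : ℕ, (L : ℝ) ≤ Real.log N ^ T → ∀ A : ℕ → Finset ℕ, (∀ l < L, A l ⊆ Icc 1 N ∧ (N : ℝ) ≤ (A l).card * Real.log N ^ T) →
    ∀ E : (∀ i, Equiv.Perm (Fin (k i))) → Prop, [DecidablePred E] → (∀ σ, E σ →
      (∀ i, 1 ≤ c i + κ i * (V (b i) (d i) (σ i) : ℕ) ∧ c i + κ i * (V (b i) (d i) (σ i) : ℕ) ≤ N) ∧
      ∃ l < L, ¬ Gd2 ε t κ' N (A l) (fun i => (c i + κ i * (V (b i) (d i) (σ i) : ℕ)).toNat)) →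
    (((univ : Finset (∀ i, Equiv.Perm (Fin (k i)))).filter E).card : ℝ) ≤ (∏ i, ((k i).factorial : ℝ)) / Real.log N ^ U := by
  choose κ₀ h0 using fun i => fam_perm (b i) B (T + 3 * s) (U + T + 1 + 1) (hb i) (κ i) (hκ i) η hη
  obtain ⟨κs, hκs⟩ : ∃ κs, κs = ∑ i, κ₀ i := ⟨_, rfl⟩
  have hκi : ∀ i, κ₀ i ≤ κs := fun i => by rw [hκs]; exact single_le_sum (fun _ _ => Nat.zero_le _) (mem_univ i)
  obtain ⟨t, ht, κ', n1, h1⟩ := good2 s T U κs ε hε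
  choose n2 h2 using fun i => h0 i (κs + 1)
  obtain ⟨ns, hns⟩ : ∃ ns, ns = ∑ i, n2 i := ⟨_, rfl⟩
  have hni : ∀ i, n2 i ≤ ns := fun i => by rw [hns]; exact single_le_sum (fun _ _ => Nat.zero_le _) (mem_univ i)
  refine ⟨t, ht, κ', n1 + ns + 3, fun N hN k hk d hd c hc L hL A hA E _ hE => ?_⟩
  have hlog := Pool.Agent.V11251.DS.log_one (by omega : 3 ≤ N)
  have h5 := h1 N (by omega) (fun i => (univ : Finset (Equiv.Perm (Fin (k i))))) (fun i σ => c i + κ i * (V (b i) (d i) σ : ℕ))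
    (fun i => AVW_mono hlog (hκi i) (h2 i N (by have := hni i; omega) (k i) (hk i).1 (hk i).2 (d i) (hd i) (c i) (hc i)))
    L hL A hA E (fun σ _ hσ => hE σ hσ)
  rw [Fintype.piFinset_univ] at h5
  refine h5.trans (le_of_eq ?_)
  rw [card_univ, Fintype.card_pi]
  simp only [Fintype.card_perm, Fintype.card_fin]
  push_cast
  rfl

/-- palindromes -/
theorem pal2 (s : ℕ) (b : Fin s → ℕ) (hb : ∀ i, 2 ≤ b i) (κ : Fin s → ℤ) (hκ : ∀ i, κ i ≠ 0)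
    (B T U : ℕ) (ε : ℝ) (hε : 0 < ε) : ∃ t : ℝ, 0 < t ∧ ∃ κ' N₀ : ℕ, ∀ N, N₀ ≤ N →
    ∀ k : Fin s → ℕ, (∀ i, b i ^ k i ≤ B * N ∧ N ≤ B * b i ^ k i) →
    ∀ c : Fin s → ℤ, (∀ i, |c i| ≤ B * N) →
    ∀ L : ℕ, (L : ℝ) ≤ Real.log N ^ T → ∀ A : ℕ → Finset ℕ, (∀ l < L, A l ⊆ Icc 1 N ∧ (N : ℝ) ≤ (A l).card * Real.log N ^ T) →
    ∀ E : (Fin s → ℕ) → Prop, [DecidablePred E] → (∀ v : Fin s → ℕ, E v →
      (∀ i, 1 ≤ c i + κ i * ((v i : ℕ) : ℤ) ∧ c i + κ i * ((v i : ℕ) : ℤ) ≤ N) ∧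
      ∃ l < L, ¬ Gd2 ε t κ' N (A l) (fun i => (c i + κ i * ((v i : ℕ) : ℤ)).toNat)) →
    (((Fintype.piFinset (fun i => Pals (b i) (k i))).filter E).card : ℝ) ≤
      ((Fintype.piFinset (fun i => Pals (b i) (k i))).card : ℝ) / Real.log N ^ U := by
  choose κ₀ h0 using fun i => fam_pal (b i) B (T + 3 * s) (U + T + 1 + 1) (hb i) (κ i) (hκ i)
  obtain ⟨κs, hκs⟩ : ∃ κs, κs = ∑ i, κ₀ i := ⟨_, rfl⟩
  have hκi : ∀ i, κ₀ i ≤ κs := fun i => by rw [hκs]; exact single_le_sum (fun _ _ => Nat.zero_le _) (mem_univ i)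
  obtain ⟨t, ht, κ', n1, h1⟩ := good2 s T U κs ε hε
  choose n2 h2 using fun i => h0 i (κs + 1)
  obtain ⟨ns, hns⟩ : ∃ ns, ns = ∑ i, n2 i := ⟨_, rfl⟩
  have hni : ∀ i, n2 i ≤ ns := fun i => by rw [hns]; exact single_le_sum (fun _ _ => Nat.zero_le _) (mem_univ i)
  refine ⟨t, ht, κ', n1 + ns + 3, fun N hN k hk c hc L hL A hA E _ hE => ?_⟩
  have hlog := Pool.Agent.V11251.DS.log_one (by omega : 3 ≤ N)
  exact h1 N (by omega) (fun i => Pals (b i) (k i)) (fun i v => c i + κ i * ((v : ℕ) : ℤ))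
    (fun i => AVW_mono hlog (hκi i) (h2 i N (by have := hni i; omega) (k i) (hk i).1 (hk i).2 (c i) (hc i)))
    L hL A hA E (fun v _ hv => hE v hv)

open Classical in
/-- elements of automatic sets -/
theorem au2 (s : ℕ) (σ : Fin s → Type) [∀ i, Fintype (σ i)] (b : Fin s → ℕ) (hb : ∀ i, 2 ≤ b i) (M : ∀ i, DFA ℕ (σ i))
    (hM : ∀ i, ∀ k : ℕ, ∃ᶠ N : ℕ in Filter.atTop,
      Real.log N ^ k < (((range N).filter fun v => Nat.digits (b i) v ∈ (M i).accepts).card : ℝ))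
    (κ : Fin s → ℤ) (hκ : ∀ i, κ i ≠ 0)
    (B T U : ℕ) (ε : ℝ) (hε : 0 < ε) : ∃ t : ℝ, 0 < t ∧ ∃ κ' N₀ : ℕ, ∀ N, N₀ ≤ N →
    ∀ c : Fin s → ℤ, (∀ i, |c i| ≤ B * N) →
    ∀ L : ℕ, (L : ℝ) ≤ Real.log N ^ T → ∀ A : ℕ → Finset ℕ, (∀ l < L, A l ⊆ Icc 1 N ∧ (N : ℝ) ≤ (A l).card * Real.log N ^ T) →
    ∀ E : (Fin s → ℕ) → Prop, [DecidablePred E] → (∀ v : Fin s → ℕ, E v →
      (∀ i, 1 ≤ c i + κ i * ((v i : ℕ) : ℤ) ∧ c i + κ i * ((v i : ℕ) : ℤ) ≤ N) ∧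
      ∃ l < L, ¬ Gd2 ε t κ' N (A l) (fun i => (c i + κ i * ((v i : ℕ) : ℤ)).toNat)) →
    (((Fintype.piFinset (fun i => (range N).filter (fun v : ℕ => Nat.digits (b i) v ∈ (M i).accepts))).filter E).card : ℝ) ≤
      ((Fintype.piFinset (fun i => (range N).filter (fun v : ℕ => Nat.digits (b i) v ∈ (M i).accepts))).card : ℝ) /
        Real.log N ^ U := by
  choose κ₀ h0 using fun i => au_avW (b i) (hb i) (M i) (hM i) (κ i) (hκ i) (B + 3) (T + 3 * s) (U + T + 1 + 1) (Nat.le_add_left _ _)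
  obtain ⟨κs, hκs⟩ : ∃ κs, κs = ∑ i, κ₀ i := ⟨_, rfl⟩
  have hκi : ∀ i, κ₀ i ≤ κs := fun i => by rw [hκs]; exact single_le_sum (fun _ _ => Nat.zero_le _) (mem_univ i)
  obtain ⟨t, ht, κ', n1, h1⟩ := good2 s T U κs ε hε
  choose n2 h2 using fun i => h0 i (κs + 1)
  obtain ⟨ns, hns⟩ : ∃ ns, ns = ∑ i, n2 i := ⟨_, rfl⟩
  have hni : ∀ i, n2 i ≤ ns := fun i => by rw [hns]; exact single_le_sum (fun _ _ => Nat.zero_le _) (mem_univ i)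
  refine ⟨t, ht, κ', n1 + ns + 3, fun N hN c hc L hL A hA E _ hE => ?_⟩
  have hlog := Pool.Agent.V11251.DS.log_one (by omega : 3 ≤ N)
  exact h1 N (by omega) (fun i => (range N).filter (fun v : ℕ => Nat.digits (b i) v ∈ (M i).accepts)) (fun i v => c i + κ i * ((v : ℕ) : ℤ))
    (fun i => AVW_mono hlog (hκi i) (h2 i N (by have := hni i; omega) (c i) (by
      refine (hc i).trans ?_
      push_cast
      have : (0 : ℤ) ≤ N := by positivity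
      nlinarith)))
    L hL A hA E (fun v _ hv => hE v hv)

end Pool.Agent.V11251.SI
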