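import Pool.Agent.V11251.SI.FamW

set_option autoImplicit false

/-! Products of averages of `log p` over short intervals at several random shifts. -/

namespace Pool.Agent.V11251.SI
open Finset
open Pool.Agent.TH646.TT
open Pool.Agent.V11251.DS (count_coord)

/-- the factors of the product -/
noncomputable def uu {s : ℕ} (y0 : ℕ) (J x : Fin s → ℕ) (a j : ℕ) : ℝ :=
  if h : j < s then av (J ⟨j, h⟩ * y0) (a + x ⟨j, h⟩) else 1

lemma uu_fin {s : ℕ} (y0 : ℕ) (J x : Fin s → ℕ) (a : ℕ) (i : Fin s) : uu y0 J x a i = av (J i * y0) (a + x i) := by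
  unfold uu
  rw [dif_pos i.2]

lemma tele_nat (u : ℕ → ℝ) (s : ℕ) : ∏ j ∈ range s, u j - 1 = ∑ i ∈ range s, (∏ j ∈ range i, u j) * (u i - 1) := by
  induction s with
  | zero => simp
  | succ s ih =>
    rw [prod_range_succ, sum_range_succ, ← ih]
    ring

lemma tele {s : ℕ} (y0 : ℕ) (J x : Fin s → ℕ) (a : ℕ) : ∏ i, av (J i * y0) (a + x i) - 1 =
    ∑ i : Fin s, (∏ j ∈ range (i : ℕ), uu y0 J x a j) * (av (J i * y0) (a + x i) - 1) := by
  have h1 : ∏ i, av (J i * y0) (a + x i) = ∏ j ∈ range s, uu y0 J x a j := by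
    rw [← Fin.prod_univ_eq_prod_range]
    exact prod_congr rfl fun i _ => (uu_fin y0 J x a i).symm
  have h2 : ∑ i : Fin s, (∏ j ∈ range (i : ℕ), uu y0 J x a j) * (av (J i * y0) (a + x i) - 1) =
      ∑ i ∈ range s, (∏ j ∈ range i, uu y0 J x a j) * (uu y0 J x a i - 1) := by
    rw [← Fin.sum_univ_eq_sum_range (fun i => (∏ j ∈ range i, uu y0 J x a j) * (uu y0 J x a i - 1)) s]
    exact sum_congr rfl fun i _ => by rw [uu_fin]
  rw [h1, h2]
  exact tele_nat _ _

lemma uu_bound {s : ℕ} (N y0 : ℕ) (J x : Fin s → ℕ) (a : ℕ) (hy0 : 1 ≤ y0) (ha : a ≤ N)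
    (hlog : Real.log ((4 * N : ℕ) : ℝ) ≤ Real.log N ^ 2) (hlog1 : 1 ≤ Real.log N) (i : ℕ)
    (hx : ∀ j : Fin s, (j : ℕ) < i → x j ≤ N) (hJ : ∀ j : Fin s, 1 ≤ J j ∧ J j * y0 ≤ 2 * N) :
    |∏ j ∈ range i, uu y0 J x a j| ≤ (Real.log N ^ 2) ^ i := by
  rw [abs_prod]
  have h1 : ∀ j ∈ range i, |uu y0 J x a j| ≤ Real.log N ^ 2 := by
    intro j hj
    rw [mem_range] at hj
    unfold uu
    split_ifs with h
    · have h2 := hx ⟨j, h⟩ hj
      have h3 := hJ ⟨j, h⟩
      exact (av_le _ _ (4 * N) (Nat.mul_pos h3.1 hy0) (by omega)).trans hlog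
    · rw [abs_one]
      exact one_le_pow₀ hlog1
  refine (prod_le_prod (fun _ _ => abs_nonneg _) h1).trans (le_of_eq ?_)
  rw [prod_const, card_range]

/-- for almost all vectors of shifts, all the products of averages are right -/
theorem joint (s T U κ₀ κ₁ : ℕ) : ∃ N₀ : ℕ, ∀ N, N₀ ≤ N → ∀ {α : Fin s → Type} [∀ i, DecidableEq (α i)]
    (Ω : ∀ i, Finset (α i)) (v : ∀ i, α i → ℤ), (∀ i, AVW N (T + 3 * s) (U + 1) κ₀ κ₁ (Ω i) (v i)) →
    ∀ y0 : ℕ, 1 ≤ y0 → Real.log N ^ κ₀ ≤ y0 → (y0 : ℝ) ≤ Real.log N ^ κ₁ → ∀ L : ℕ, (L : ℝ) ≤ Real.log N ^ T →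
    ∀ A : ℕ → Finset ℕ, (∀ l < L, A l ⊆ Icc 1 N) → ∀ G : Finset ℕ, (G.card : ℝ) ≤ Real.log N ^ 3 →
    ∀ E : (∀ i, α i) → Prop, [DecidablePred E] → (∀ ω ∈ Fintype.piFinset Ω, E ω → (∀ i, 1 ≤ v i (ω i) ∧ v i (ω i) ≤ N) ∧
      ∃ l < L, ∃ J : Fin s → ℕ, (∀ i, J i ∈ G ∧ 1 ≤ J i ∧ J i * y0 ≤ 2 * N) ∧
        N / Real.log N ^ U < |∑ a ∈ A l, (∏ i, av (J i * y0) (a + (v i (ω i)).toNat) - 1)|) →
    (((Fintype.piFinset Ω).filter E).card : ℝ) ≤ (Fintype.piFinset Ω).card / Real.log N ^ U := by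
  classical
  obtain ⟨n1, h1⟩ := Pool.Agent.H373R2.T7.ev_L' (3 + s)
  refine ⟨n1 + 1, fun N hN α _ Ω v hav y0 hy0 hyl hyu L hL A hA G hG E _ hE => ?_⟩
  have hlog := h1 N (by omega)
  have hs0 : (0 : ℝ) ≤ s := Nat.cast_nonneg s
  have hlog3 : 3 ≤ Real.log N := by linarith
  have hlog1 : 1 ≤ Real.log N := by linarith
  have hlog0 : 0 < Real.log N := by linarith
  have hN0 : (0 : ℝ) < N := by exact_mod_cast (by omega : 0 < N)
  have hlog4 : Real.log ((4 * N : ℕ) : ℝ) ≤ Real.log N ^ 2 := by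
    push_cast
    rw [Real.log_mul (by norm_num) hN0.ne']
    have : Real.log 4 ≤ 3 := (Real.log_le_sub_one_of_pos (by norm_num)).trans (by norm_num)
    nlinarith
  -- the exceptional events
  obtain ⟨R, hR⟩ : ∃ R : Fin s → (∀ i, α i) → Prop, R = fun (i : Fin s) (ω : ∀ i, α i) => (∀ j, 1 ≤ v j (ω j) ∧ v j (ω j) ≤ N) ∧
      ∃ l < L, ∃ J : Fin s → ℕ, (∀ j, J j ∈ G ∧ 1 ≤ J j ∧ J j * y0 ≤ 2 * N) ∧
        N / Real.log N ^ (U + 1) < |∑ a ∈ A l, (∏ j ∈ range (i : ℕ), uu y0 J (fun j => (v j (ω j)).toNat) a j) *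
          (av (J i * y0) (a + (v i (ω i)).toNat) - 1)| := ⟨_, rfl⟩
  have hone : ∀ i, (((Fintype.piFinset Ω).filter (R i)).card : ℝ) ≤ (Fintype.piFinset Ω).card * (1 / Real.log N ^ (U + 1)) := by
    intro i
    apply count_coord Ω i (R i) _
    intro m hm
    rw [mul_one_div]
    have hcard : (Fintype.card (Fin L × (Fin s → G)) : ℝ) ≤ Real.log N ^ (T + 3 * s) := by
      rw [Fintype.card_prod, Fintype.card_fin, Fintype.card_fun, Fintype.card_fin, Fintype.card_coe, pow_add, pow_mul]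
      push_cast
      exact mul_le_mul hL (pow_le_pow_left₀ (Nat.cast_nonneg _) hG s) (by positivity) (by positivity)
    refine hav i y0 hyl hyu (Fin L × (Fin s → G)) hcard
      (fun q a => if a ∈ A q.1 ∧ (∀ j, 1 ≤ (q.2 j : ℕ) ∧ (q.2 j : ℕ) * y0 ≤ 2 * N) ∧ (∀ j, j ≠ i → (v j (m j)).toNat ≤ N) then
        ∏ j ∈ range (i : ℕ), uu y0 (fun j => (q.2 j : ℕ)) (fun j => (v j (m j)).toNat) a j else 0)
      (fun q => max 1 (q.2 i : ℕ)) ?_ _ ?_
    · intro q
      refine ⟨le_max_left _ _, fun a => ⟨?_, fun ha => ?_⟩⟩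
      · beta_reduce
        split_ifs with hc
        · obtain ⟨hc1, hc2, hc3⟩ := hc
          have haN := (mem_Icc.1 (hA _ q.1.2 hc1)).2
          refine (uu_bound N y0 _ _ a hy0 haN hlog4 hlog1 i (fun j hj => hc3 j (fun h => by rw [h] at hj; omega)) hc2).trans ?_
          rw [← pow_mul]
          apply pow_le_pow_right₀ hlog1
          have := i.2
          omega
        · rw [abs_zero]
          positivity
      · beta_reduce at ha
        split_ifs at ha with hc
        · obtain ⟨hc1, hc2, hc3⟩ := hc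
          have haN := mem_Icc.1 (hA _ q.1.2 hc1)
          rw [max_eq_right (hc2 i).1]
          have := (hc2 i).2
          exact ⟨haN.1, by omega⟩
        · exact absurd rfl ha
    · intro v' hv' hEv
      rw [hR] at hEv
      beta_reduce at hEv
      obtain ⟨h2, l, hl, J, hJ, h3⟩ := hEv
      have h4 := h2 i
      rw [Function.update_self] at h4 h3
      refine ⟨by linarith [h4.1], (⟨l, hl⟩, fun j => ⟨J j, (hJ j).1⟩), ?_⟩
      beta_reduce
      refine lt_of_lt_of_eq h3 ?_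
      congr 1
      have hC : (∀ j, 1 ≤ J j ∧ J j * y0 ≤ 2 * N) ∧ (∀ j, j ≠ i → (v j (m j)).toNat ≤ N) := by
        refine ⟨fun j => (hJ j).2, fun j hj => ?_⟩
        have h5 := h2 j
        rw [Function.update_of_ne hj] at h5
        omega
      rw [max_eq_right (hJ i).2.1]
      have hsub : A l ⊆ Icc 1 (3 * N) := (hA l hl).trans (Icc_subset_Icc_right (by omega))
      rw [← sum_subset hsub (fun a _ ha => by rw [if_neg (fun h => ha h.1), zero_mul])]
      apply sum_congr rfl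
      intro a ha
      rw [if_pos ⟨ha, hC⟩]
      congr 1
      apply prod_congr rfl
      intro j hj
      rw [mem_range] at hj
      unfold uu
      split_ifs with hjs
      · have hne : (⟨j, hjs⟩ : Fin s) ≠ i := fun h => by
          rw [← h] at hj
          simp at hj
        beta_reduce
        rw [Function.update_of_ne hne]
      · rfl
  -- the union
  have hsub : (Fintype.piFinset Ω).filter E ⊆ univ.biUnion (fun i : Fin s => (Fintype.piFinset Ω).filter (R i)) := by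
    intro ω hω
    rw [mem_filter] at hω
    obtain ⟨h2, l, hl, J, hJ, h3⟩ := hE ω hω.1 hω.2
    by_contra hcon
    simp only [mem_biUnion, mem_univ, true_and, mem_filter, not_exists, not_and] at hcon
    have h4 : ∀ i : Fin s, |∑ a ∈ A l, (∏ j ∈ range (i : ℕ), uu y0 J (fun j => (v j (ω j)).toNat) a j) *
          (av (J i * y0) (a + (v i (ω i)).toNat) - 1)| ≤ N / Real.log N ^ (U + 1) := by
      intro i
      by_contra h5
      push Not at h5
      apply hcon i hω.1
      rw [hR]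
      exact ⟨h2, l, hl, J, hJ, h5⟩
    have h5 : ∑ a ∈ A l, (∏ i, av (J i * y0) (a + (v i (ω i)).toNat) - 1) = ∑ i : Fin s, ∑ a ∈ A l,
        (∏ j ∈ range (i : ℕ), uu y0 J (fun j => (v j (ω j)).toNat) a j) * (av (J i * y0) (a + (v i (ω i)).toNat) - 1) := by
      rw [sum_comm]
      exact sum_congr rfl fun a _ => tele y0 J (fun j => (v j (ω j)).toNat) a
    have h6 : |∑ a ∈ A l, (∏ i, av (J i * y0) (a + (v i (ω i)).toNat) - 1)| ≤ s * (N / Real.log N ^ (U + 1)) := by
      rw [h5]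
      refine (abs_sum_le_sum_abs _ _).trans ((sum_le_sum fun i _ => h4 i).trans (le_of_eq ?_))
      rw [sum_const, card_univ, Fintype.card_fin, nsmul_eq_mul]
    have h7 : (s : ℝ) * (N / Real.log N ^ (U + 1)) ≤ N / Real.log N ^ U := by
      rw [← mul_div_assoc, div_le_div_iff₀ (by positivity) (by positivity), pow_succ]
      calc (s : ℝ) * N * Real.log N ^ U ≤ Real.log N * N * Real.log N ^ U := by
            apply mul_le_mul_of_nonneg_right _ (by positivity)
            exact mul_le_mul_of_nonneg_right (by linarith) hN0.le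
        _ = _ := by ring
    linarith
  have h8 : (((Fintype.piFinset Ω).filter E).card : ℝ) ≤ ∑ i : Fin s, (((Fintype.piFinset Ω).filter (R i)).card : ℝ) := by
    exact_mod_cast (card_le_card hsub).trans card_biUnion_le
  refine h8.trans ((sum_le_sum fun i _ => hone i).trans ?_)
  rw [sum_const, card_univ, Fintype.card_fin, nsmul_eq_mul, mul_one_div, ← mul_div_assoc,
    div_le_div_iff₀ (by positivity) (by positivity), pow_succ]
  calc (s : ℝ) * ((Fintype.piFinset Ω).card : ℝ) * Real.log N ^ U ≤ Real.log N * ((Fintype.piFinset Ω).card : ℝ) * Real.log N ^ U := by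
        apply mul_le_mul_of_nonneg_right _ (by positivity)
        exact mul_le_mul_of_nonneg_right (by linarith) (Nat.cast_nonneg _)
    _ = _ := by ring

end Pool.Agent.V11251.SI
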