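import Pool.Agent.V11251.SI.Det2

set_option autoImplicit false

/-! Many points with primes in several short intervals at once. -/

namespace Pool.Agent.V11251.SI
open Finset Filter
open Pool.Agent.W301.SS
open Pool.Agent.TH646.TT

/-- few points are followed by too many primes -/
lemma big_few (C : ℕ) (δ : ℝ) (hδ0 : 0 < δ) (hδ1 : δ ≤ 1 / 4) : ∀ᶠ N : ℕ in atTop,
    ∀ b ∈ Icc 1 N, ∀ y : ℕ, Real.log N ^ (C + 20) ≤ y → ∀ G : Finset ℕ, G ⊆ Icc 1 N →
      (∀ a ∈ G, (4 / (1 - 2 * δ) + δ) * y < (pn (a + b) y : ℝ) * Real.log N) → (G.card : ℝ) * Real.log N ^ C ≤ N := by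
  filter_upwards [subsets δ hδ0 hδ1, ev_L (1024 / δ + 4), ev_log (C + 2) (24 / δ ^ 2) δ hδ0,
    ev_log (C + 1) (2 / δ) (3 / 4) (by norm_num), eventually_ge_atTop 16] with
    N h2 h3 h4 h5 hN16 b hb y hyC A hA hbig
  by_contra hcon
  push Not at hcon
  have hAN := hcon.le
  have hNr : (16 : ℝ) ≤ N := by exact_mod_cast hN16
  have hN0 : (0 : ℝ) < N := by linarith
  set ℓ := Real.log N with hℓ
  have hd1 : 0 < 1024 / δ := by positivity
  have hℓ4 : 4 ≤ ℓ := by linarith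
  have hℓ0 : 0 < ℓ := by linarith
  have hyr : (1 : ℝ) ≤ y := (one_le_pow₀ (by linarith)).trans hyC
  have hyn : 1 ≤ y := by exact_mod_cast hyr
  have hy0 : (0 : ℝ) < y := by linarith
  have hAc : (N : ℝ) / ℓ ^ C ≤ A.card := by
    rw [div_le_iff₀ (by positivity)]; exact hAN
  have c1 : (3 * (N : ℝ) ^ (1 - δ) + (2 * N / y) * (2 * ℓ) ^ 16) * (4 * ℓ ^ 2 / δ ^ 2) ≤ A.card := by
    refine le_trans ?_ hAc
    have a1 : 3 * (N : ℝ) ^ (1 - δ) * (4 * ℓ ^ 2 / δ ^ 2) ≤ (1 / 2) * (N / ℓ ^ C) := by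
      have e1 : 3 * (N : ℝ) ^ (1 - δ) * (4 * ℓ ^ 2 / δ ^ 2) =
          (1 / 2) * ((24 / δ ^ 2 * ℓ ^ (C + 2)) * (N : ℝ) ^ (1 - δ) / ℓ ^ C) := by
        rw [pow_add]; field_simp; ring
      rw [e1]
      apply mul_le_mul_of_nonneg_left _ (by norm_num)
      apply div_le_div_of_nonneg_right _ (by positivity)
      calc (24 / δ ^ 2 * ℓ ^ (C + 2)) * (N : ℝ) ^ (1 - δ) ≤ (N : ℝ) ^ δ * (N : ℝ) ^ (1 - δ) := by gcongr
        _ = N := by rw [← Real.rpow_add hN0]; norm_num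
    have a2 : (2 * N / y) * (2 * ℓ) ^ 16 * (4 * ℓ ^ 2 / δ ^ 2) ≤ (1 / 2) * (N / ℓ ^ C) := by
      have e1 : (2 * N / y) * (2 * ℓ) ^ 16 * (4 * ℓ ^ 2 / δ ^ 2) =
          (1 / 2) * (N / ℓ ^ C) * ((1048576 / δ ^ 2) * ℓ ^ (C + 18) / y) := by
        rw [pow_add]; field_simp; ring
      rw [e1]
      have e2 : (1048576 / δ ^ 2) * ℓ ^ (C + 18) / y ≤ 1 := by
        rw [div_le_one hy0]
        refine le_trans ?_ hyC
        have e3 : ℓ ^ (C + 20) = ℓ ^ 2 * ℓ ^ (C + 18) := by rw [← pow_add]; congr 1; omega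
        rw [e3]
        apply mul_le_mul_of_nonneg_right _ (by positivity)
        have e4 : 1024 / δ ≤ ℓ := by linarith
        calc 1048576 / δ ^ 2 = (1024 / δ) ^ 2 := by field_simp; norm_num
          _ ≤ ℓ ^ 2 := pow_le_pow_left₀ hd1.le e4 2
      calc _ ≤ (1 / 2) * (N / ℓ ^ C) * 1 := mul_le_mul_of_nonneg_left e2 (by positivity)
        _ = _ := by ring
    calc _ = 3 * (N : ℝ) ^ (1 - δ) * (4 * ℓ ^ 2 / δ ^ 2) +
          (2 * N / y) * (2 * ℓ) ^ 16 * (4 * ℓ ^ 2 / δ ^ 2) := by ring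
      _ ≤ _ := by linarith
  have c2 : (N : ℝ) ^ (1 / 4 : ℝ) * (2 * ℓ / δ) ≤ A.card := by
    refine le_trans ?_ hAc
    rw [le_div_iff₀ (by positivity)]
    calc (N : ℝ) ^ (1 / 4 : ℝ) * (2 * ℓ / δ) * ℓ ^ C =
          (N : ℝ) ^ (1 / 4 : ℝ) * (2 / δ * ℓ ^ (C + 1)) := by
            have e1 : ℓ ^ (C + 1) = ℓ ^ C * ℓ := pow_succ ℓ C
            rw [e1]; ring
      _ ≤ (N : ℝ) ^ (1 / 4 : ℝ) * (N : ℝ) ^ (3 / 4 : ℝ) := by gcongr
      _ = N := by rw [← Real.rpow_add hN0]; norm_num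
  have g2 := h2 A (fun a ha => (mem_Icc.1 (hA ha)).2) b hb y hyn c1 c2 A (Finset.Subset.refl A)
  have hAne : A.Nonempty := by
    rw [← card_pos]
    have h8 : (0 : ℝ) < A.card := by
      have : (0 : ℝ) < (N : ℝ) / ℓ ^ C := by positivity
      linarith
    exact_mod_cast h8
  have g3 : ∑ a ∈ A, (4 / (1 - 2 * δ) + δ) * (y : ℝ) < ∑ a ∈ A, (pn (a + b) y : ℝ) * ℓ := sum_lt_sum_of_nonempty hAne hbig
  rw [sum_const, nsmul_eq_mul, ← sum_mul] at g3
  have g4 : (A.card : ℝ) * ((4 / (1 - 2 * δ) + δ) * y) = (4 / (1 - 2 * δ) * A.card + δ * A.card) * y := by ring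
  linarith

/-- the choice of the parameter -/
lemma choose_t (s : ℕ) (ε : ℝ) (hε : 0 < ε) : ∃ t : ℝ, 0 < t ∧ t ≤ 1 / 4 ∧
    1 / 4 ^ s - ε ≤ (1 - 2 * t - t * (4 / (1 - 2 * t) + t) ^ s) / (4 / (1 - 2 * t) + t) ^ s := by
  have c0 : ContinuousAt (fun t : ℝ => 4 / (1 - 2 * t) + t) 0 := by
    apply ContinuousAt.add _ (by fun_prop)
    apply ContinuousAt.div (by fun_prop) (by fun_prop)
    norm_num
  have c1 : ContinuousAt (fun t : ℝ => (1 - 2 * t - t * (4 / (1 - 2 * t) + t) ^ s) / (4 / (1 - 2 * t) + t) ^ s) 0 := by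
    apply ContinuousAt.div _ (c0.pow s)
    · norm_num
    · apply ContinuousAt.sub (by fun_prop)
      exact ContinuousAt.mul (by fun_prop) (c0.pow s)
  have e1 : ∀ᶠ t : ℝ in nhds 0, 1 / 4 ^ s - ε < (1 - 2 * t - t * (4 / (1 - 2 * t) + t) ^ s) / (4 / (1 - 2 * t) + t) ^ s := by
    apply continuousAt_const.eventually_lt c1
    simp
    exact hε
  have e3 : ∀ᶠ t : ℝ in nhds 0, t < 1 / 4 := Iio_mem_nhds (by norm_num)
  obtain ⟨r, hr, h⟩ := Metric.eventually_nhds_iff.1 (e1.and e3)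
  have h4 := h (y := r / 2) (by rw [Real.dist_eq, sub_zero, abs_of_pos (by positivity)]; linarith)
  exact ⟨r / 2, by positivity, h4.2.le, h4.1.le⟩

/-- many points with primes in all the intervals -/
theorem many2 (s C : ℕ) (ε : ℝ) (hε : 0 < ε) : ∃ t : ℝ, 0 < t ∧ ∃ N₀ : ℕ, ∀ N, N₀ ≤ N →
    ∀ A : Finset ℕ, A ⊆ Icc 1 N → (N : ℝ) ≤ A.card * Real.log N ^ C → ∀ x : Fin s → ℕ, (∀ i, 1 ≤ x i ∧ x i ≤ N) →
    ∀ y : Fin s → ℕ, (∀ i, Real.log N ^ (C + s + 21) ≤ y i) →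
      (1 - t) * A.card ≤ ∑ a ∈ A, ∏ i, ((pn (a + x i) (y i) : ℝ) * Real.log N / y i) →
      (1 / 4 ^ s - ε) * A.card ≤ ((A.filter (fun a => ∀ i, t * y i ≤ (pn (a + x i) (y i) : ℝ) * Real.log N)).card : ℝ) := by
  classical
  obtain ⟨t, ht0, ht1, ht⟩ := choose_t s ε hε
  refine ⟨t, ht0, ?_⟩
  obtain ⟨n1, h1⟩ := eventually_atTop.1 (big_few (C + s + 1) t ht0 ht1)
  obtain ⟨n3, h3⟩ := eventually_atTop.1 (ev_L (s / t + 2))
  refine ⟨n1 + n3 + 1, fun N hN A hA hAN x hx y hy hsum => ?_⟩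
  have hL := h3 N (by omega)
  obtain ⟨L, hLd⟩ : ∃ L, L = Real.log (N : ℝ) := ⟨_, rfl⟩
  have hs0 : 0 ≤ (s : ℝ) / t := by positivity
  rw [← hLd] at hL
  have hL0 : 0 < L := by linarith
  have hL1 : 1 ≤ L := by linarith
  have hN0 : (0 : ℝ) < N := by exact_mod_cast (by omega : 0 < N)
  obtain ⟨M, hM⟩ : ∃ M : ℝ, M = 4 / (1 - 2 * t) + t := ⟨_, rfl⟩
  rw [← hM] at ht
  have h12 : 0 < 1 - 2 * t := by linarith
  have hM4 : 4 ≤ M := by
    have : 4 ≤ 4 / (1 - 2 * t) := by rw [le_div_iff₀ h12]; nlinarith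
    linarith
  have hM0 : 0 < M := by linarith
  have hM1 : 1 ≤ M := by linarith
  have hyi : ∀ i, (1 : ℝ) ≤ y i := fun i => by
    refine le_trans ?_ (hy i)
    rw [← hLd]
    exact one_le_pow₀ hL1
  have hy0 : ∀ i, (0 : ℝ) < y i := fun i => by linarith [hyi i]
  rw [← hLd] at hAN hsum
  obtain ⟨c, hc⟩ : ∃ c : ℝ, c = A.card := ⟨_, rfl⟩
  have hc0 : 0 ≤ c := by rw [hc]; exact Nat.cast_nonneg _
  rw [← hc] at hAN hsum ⊢
  rw [← hLd]
  -- the points with too many primes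
  obtain ⟨G, hG⟩ : ∃ G : Fin s → Finset ℕ, G = fun i => A.filter (fun a => M * y i < (pn (a + x i) (y i) : ℝ) * L) := ⟨_, rfl⟩
  have hGc : ∀ i, ((G i).card : ℝ) * L ^ (C + s + 1) ≤ N := by
    intro i
    have := h1 N (by omega) (x i) (mem_Icc.2 (hx i)) (y i) (by
      refine le_trans (le_of_eq ?_) (hy i)
      congr 1) (G i) (by rw [hG]; exact (filter_subset _ _).trans hA) (by
      intro a ha
      rw [hG] at ha
      rw [← hM, ← hLd]
      exact (mem_filter.1 ha).2)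
    rw [← hLd] at this
    exact this
  obtain ⟨GG', hGG⟩ : ∃ G' : Finset ℕ, G' = univ.biUnion G := ⟨_, rfl⟩
  obtain ⟨H, hH⟩ : ∃ H : Finset ℕ, H = A.filter (fun a => ∀ i, t * y i ≤ (pn (a + x i) (y i) : ℝ) * L) := ⟨_, rfl⟩
  rw [← hH]
  have hun : ∀ a i, 0 ≤ (pn (a + x i) (y i) : ℝ) * L / y i := fun a i =>
    div_nonneg (mul_nonneg (Nat.cast_nonneg _) hL0.le) (hy0 i).le
  have hall : ∀ a, ∏ i, ((pn (a + x i) (y i) : ℝ) * L / y i) ≤ L ^ s := by
    intro a
    have e2 : ∀ i ∈ (univ : Finset (Fin s)), (pn (a + x i) (y i) : ℝ) * L / y i ≤ L := by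
      intro i _
      rw [div_le_iff₀ (hy0 i), mul_comm L]
      apply mul_le_mul_of_nonneg_right _ hL0.le
      exact_mod_cast pn_le _ _
    refine (prod_le_prod (fun i _ => hun a i) e2).trans (le_of_eq ?_)
    rw [prod_const, card_univ, Fintype.card_fin]
  have hMb : ∀ a ∈ A, a ∉ GG' → ∀ i, (pn (a + x i) (y i) : ℝ) * L / y i ≤ M := by
    intro a ha hna i
    rw [div_le_iff₀ (hy0 i)]
    by_contra hcon
    push Not at hcon
    apply hna
    rw [hGG, mem_biUnion]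
    refine ⟨i, mem_univ _, ?_⟩
    rw [hG]
    exact mem_filter.2 ⟨ha, hcon⟩
  have hpt : ∀ a ∈ A, ∏ i, ((pn (a + x i) (y i) : ℝ) * L / y i) ≤
      (if a ∈ GG' then L ^ s else 0) + t * M ^ s + (if a ∈ H then M ^ s else 0) := by
    intro a ha
    have q1 : 0 ≤ t * M ^ s := by positivity
    have q2 : 0 ≤ (if a ∈ H then M ^ s else 0) := by split_ifs <;> positivity
    have q3 : 0 ≤ (if a ∈ GG' then L ^ s else 0) := by split_ifs <;> positivity
    by_cases haG : a ∈ GG'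
    · rw [if_pos haG] at q3 ⊢
      linarith [hall a]
    · have hb := hMb a ha haG
      by_cases haH : a ∈ H
      · rw [if_pos haH] at q2 ⊢
        have : ∏ i, ((pn (a + x i) (y i) : ℝ) * L / y i) ≤ M ^ s := by
          refine (prod_le_prod (fun i _ => hun a i) (fun i _ => hb i)).trans (le_of_eq ?_)
          rw [prod_const, card_univ, Fintype.card_fin]
        linarith
      · have : ¬ ∀ i, t * y i ≤ (pn (a + x i) (y i) : ℝ) * L := fun h => haH (by rw [hH]; exact mem_filter.2 ⟨ha, h⟩)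
        push Not at this
        obtain ⟨i, hi⟩ := this
        have e1 : (pn (a + x i) (y i) : ℝ) * L / y i ≤ t := by
          rw [div_le_iff₀ (hy0 i)]
          exact hi.le
        have e2 : ∏ j, ((pn (a + x j) (y j) : ℝ) * L / y j) ≤ t * M ^ s := by
          rw [← mul_prod_erase univ _ (mem_univ i)]
          apply mul_le_mul e1 _ (prod_nonneg fun j _ => hun a j) ht0.le
          refine (prod_le_prod (fun j _ => hun a j) (fun j _ => hb j)).trans ?_
          rw [prod_const]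
          apply pow_le_pow_right₀ hM1
          refine (card_le_card (erase_subset _ _)).trans ?_
          rw [card_univ, Fintype.card_fin]
        linarith
  have htot := hsum.trans (sum_le_sum hpt)
  rw [sum_add_distrib, sum_add_distrib, sum_const, nsmul_eq_mul, ← hc, ← sum_filter, ← sum_filter, sum_const, sum_const,
    nsmul_eq_mul, nsmul_eq_mul] at htot
  have hHc : ((A.filter (fun a => a ∈ H)).card : ℝ) ≤ H.card := by
    apply Nat.cast_le.2
    apply card_le_card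
    intro a ha
    exact (mem_filter.1 ha).2
  have hGc2 : ((A.filter (fun a => a ∈ GG')).card : ℝ) * L ^ s ≤ t * c := by
    have e1 : ((A.filter (fun a => a ∈ GG')).card : ℝ) ≤ ∑ i, ((G i).card : ℝ) := by
      have : (A.filter (fun a => a ∈ GG')).card ≤ ∑ i, (G i).card := by
        refine le_trans (card_le_card ?_) card_biUnion_le
        rw [← hGG]
        intro a ha
        exact (mem_filter.1 ha).2
      exact_mod_cast this
    have e2 : (∑ i, ((G i).card : ℝ)) * L ^ (C + s + 1) ≤ s * N := by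
      rw [sum_mul]
      refine (sum_le_sum fun i _ => hGc i).trans (le_of_eq ?_)
      rw [sum_const, card_univ, Fintype.card_fin, nsmul_eq_mul]
    have e3 : ((A.filter (fun a => a ∈ GG')).card : ℝ) * L ^ s * L ^ (C + 1) ≤ (t * c) * L ^ (C + 1) := by
      calc ((A.filter (fun a => a ∈ GG')).card : ℝ) * L ^ s * L ^ (C + 1)
          = ((A.filter (fun a => a ∈ GG')).card : ℝ) * L ^ (C + s + 1) := by
            rw [mul_assoc, ← pow_add]
            congr 2
            ring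
        _ ≤ (∑ i, ((G i).card : ℝ)) * L ^ (C + s + 1) := mul_le_mul_of_nonneg_right e1 (by positivity)
        _ ≤ s * N := e2
        _ ≤ (t * L) * (c * L ^ C) := by
            apply mul_le_mul _ hAN hN0.le (by positivity)
            have : (s : ℝ) / t ≤ L := by linarith
            rw [div_le_iff₀ ht0] at this
            linarith
        _ = _ := by rw [pow_succ]; ring
    exact le_of_mul_le_mul_right e3 (by positivity)
  have hfin : (1 - 2 * t - t * M ^ s) * c ≤ H.card * M ^ s := by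
    have : ((A.filter (fun a => a ∈ H)).card : ℝ) * M ^ s ≤ H.card * M ^ s := mul_le_mul_of_nonneg_right hHc (by positivity)
    nlinarith
  have hMs : 0 < M ^ s := by positivity
  calc (1 / 4 ^ s - ε) * c ≤ ((1 - 2 * t - t * M ^ s) / M ^ s) * c := mul_le_mul_of_nonneg_right ht hc0
    _ = ((1 - 2 * t - t * M ^ s) * c) / M ^ s := by ring
    _ ≤ (H.card * M ^ s) / M ^ s := div_le_div_of_nonneg_right hfin hMs.le
    _ = H.card := by field_simp

end Pool.Agent.V11251.SI
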