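import Pool.Agent.V11251.SI.Var
import Pool.Agent.TH894.LH6

set_option autoImplicit false

/-! The averages of `log p` over short intervals to the right of the points of translates of arbitrary sets, at shifts of
an arbitrary law. -/

namespace Pool.Agent.V11251.SI
open Finset
open Pool.Agent.H807R2.Dav
open Pool.Agent.H373R2.T7 (exI)
open Pool.Agent.W93.DG
open Pool.Agent.W93.RD
open Pool.Agent.W93.LM
open Pool.Agent.W93.AU
open Pool.Agent.W301.SS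
open Pool.Agent.TH646.TT
open Pool.Agent.TH894.LH (ua ua_norm sup_ua PP_ua poly_small av_blocks)

/-- the function `ua y` is admissible -/
theorem ua_ok (b : ℕ) (hb : 2 ≤ b) (U₁ : ℕ) : ∃ κ₀ : ℕ, ∀ κ : ℕ, ∃ k₀ : ℕ, ∀ K : ℕ, k₀ ≤ K → ∀ y : ℕ,
    K ^ κ₀ ≤ y → y ≤ K ^ κ → Ok b U₁ K (ua y) := by
  obtain ⟨K0, n2, h2⟩ := sup_ua U₁
  obtain ⟨n3, h3⟩ := PP_ua
  refine ⟨2 * K0, fun κ => ?_⟩
  obtain ⟨k4, h4⟩ := poly_small b (κ + 3) hb
  have hb1 : 1 < b := by omega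
  refine ⟨n2 + n3 + k4 + 32 * b + 4, fun K hK y hyl hyu => ?_⟩
  obtain ⟨X, hX⟩ : ∃ X, X = b ^ K := ⟨_, rfl⟩
  have hKX : K < X := by rw [hX]; exact Nat.lt_pow_self hb1
  have hX1 : 1 ≤ X := by omega
  have hX0 : (0 : ℝ) < X := by exact_mod_cast hX1
  have hK0 : (0 : ℝ) < K := by exact_mod_cast (by omega : 0 < K)
  have hK1 : (1 : ℝ) ≤ K := by exact_mod_cast (by omega : 1 ≤ K)
  have hKb : (b : ℝ) + 3 ≤ K := by exact_mod_cast (by omega : b + 3 ≤ K)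
  have hbr : (2 : ℝ) ≤ b := by exact_mod_cast hb
  have hlb : Real.log b ≤ b - 1 := Real.log_le_sub_one_of_pos (by linarith)
  have hLX : Real.log X = K * Real.log b := by rw [hX]; push_cast; rw [Real.log_pow]
  have hlb0 : 0 ≤ Real.log b := Real.log_natCast_nonneg b
  have hLX2 : Real.log X + 2 ≤ (K : ℝ) ^ 2 := by
    rw [hLX]
    nlinarith
  have hLX0 : 0 ≤ Real.log X := Real.log_natCast_nonneg X
  obtain ⟨V, hV⟩ : ∃ V, V = b ^ (K / (16 * b)) := ⟨_, rfl⟩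
  have hVK : K ^ (κ + 3) ≤ V := by rw [hV]; exact h4 K (by omega)
  have hyV : y ≤ V := by
    refine hyu.trans (le_trans ?_ hVK)
    exact Nat.pow_le_pow_right (by omega) (by omega)
  have hy1 : 1 ≤ y := (Nat.one_le_pow _ _ (by omega)).trans hyl
  have hK3V : K ^ 3 ≤ V := le_trans (Nat.pow_le_pow_right (by omega) (by omega)) hVK
  have hV4 : 4 ≤ V := by
    have : 4 ≤ K ^ 3 := by
      calc 4 ≤ 4 ^ 3 := by norm_num
        _ ≤ K ^ 3 := Nat.pow_le_pow_left (by omega) 3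
    omega
  have hVX : (V * V) * (V * V) ≤ X := by
    rw [hV, hX, ← pow_add, ← pow_add]
    apply Nat.pow_le_pow_right (by omega)
    have h5 : 16 * b * (K / (16 * b)) ≤ K := Nat.mul_div_le K (16 * b)
    have h6 : 4 * (K / (16 * b)) ≤ 16 * b * (K / (16 * b)) := Nat.mul_le_mul_right _ (by omega)
    omega
  have hLV : 2 * Real.log X ≤ V := by
    have h5 : ((K ^ 3 : ℕ) : ℝ) ≤ V := by exact_mod_cast hK3V
    push_cast at h5
    nlinarith [sq_nonneg (K : ℝ)]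
  have hyL : Real.log X ^ K0 ≤ y := by
    have : ((K ^ (2 * K0) : ℕ) : ℝ) ≤ y := by exact_mod_cast hyl
    push_cast at this
    calc Real.log X ^ K0 ≤ ((K : ℝ) ^ 2) ^ K0 := pow_le_pow_left₀ hLX0 (by linarith) K0
      _ = (K : ℝ) ^ (2 * K0) := by rw [← pow_mul]
      _ ≤ y := this
  have hyX : (y : ℝ) ≤ (X : ℝ) ^ (1 / 2 : ℝ) := by
    have h5 : (V : ℝ) * V ≤ X := by
      exact_mod_cast (Nat.le_mul_of_pos_left _ (Nat.mul_pos (by omega) (by omega))).trans hVX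
    rw [← Real.sqrt_eq_rpow]
    apply Real.le_sqrt_of_sq_le
    have h6 : (y : ℝ) ≤ V := by exact_mod_cast hyV
    nlinarith [(Nat.cast_nonneg y : (0 : ℝ) ≤ y)]
  refine ⟨?_, ?_, ?_⟩
  · intro n hn
    rw [mem_Icc, ← hX] at hn
    have h6 := ua_norm X y n hy1 hn.2 (by nlinarith [Nat.mul_pos (show 0 < V by omega) (show 0 < V by omega)]) hX1
    have h7 : Real.log ((2 * X : ℕ) : ℝ) + 1 ≤ (K : ℝ) ^ 2 := by
      push_cast
      rw [Real.log_mul (by norm_num) hX0.ne']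
      linarith [Real.log_two_lt_d9]
    exact h6.trans h7
  · have hsup := h2 X (by omega) y hyL hyX
    rw [hX] at hsup
    exact hsup
  · have hPP := h3 X (by omega) V hV4 hVX hLV y hy1 hyV
    rw [hX, hV] at hPP
    exact hPP

/-- the weight whose correlation with `ua y` is the average over the set -/
lemma weight (Q y J : ℕ) (hy : 1 ≤ y) (hJ : 1 ≤ J) (A : Finset ℕ) (hA : ∀ a ∈ A, 1 ≤ a ∧ a + J * y ≤ Q) :
    ∃ g : ℕ → ℂ, (∀ m, ‖g m‖ ≤ 1) ∧ ∀ c : ℕ, ∑ m ∈ Icc 1 Q, g m * exI (ua y) ((m : ℤ) + (c : ℤ)) =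
      ((∑ a ∈ A, av (J * y) (a + c) - A.card : ℝ) : ℂ) := by
  have hJ0 : (0 : ℝ) < J := by exact_mod_cast hJ
  have hJc : (J : ℂ) ≠ 0 := by exact_mod_cast hJ0.ne'
  obtain ⟨g, hg⟩ : ∃ g : ℕ → ℂ, g = fun m => (∑ j ∈ range J, ∑ a ∈ A, if a + j * y = m then (1 : ℂ) else 0) / J := ⟨_, rfl⟩
  refine ⟨g, ?_, ?_⟩
  · intro m
    rw [hg]
    show ‖(∑ j ∈ range J, ∑ a ∈ A, if a + j * y = m then (1 : ℂ) else 0) / J‖ ≤ 1
    rw [norm_div, Complex.norm_natCast, div_le_one hJ0]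
    refine (norm_sum_le _ _).trans ?_
    have h3 : ∀ j ∈ range J, ‖∑ a ∈ A, if a + j * y = m then (1 : ℂ) else 0‖ ≤ 1 := by
      intro j _
      have h4 : ∑ a ∈ A, (if a + j * y = m then (1 : ℂ) else 0) = ((A.filter (fun a => a + j * y = m)).card : ℂ) := by
        rw [← sum_filter, sum_const, nsmul_eq_mul, mul_one]
      rw [h4, Complex.norm_natCast]
      have h5 : (A.filter (fun a => a + j * y = m)).card ≤ 1 := by
        rw [card_le_one]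
        intro a ha a' ha'
        rw [mem_filter] at ha ha'
        omega
      exact_mod_cast h5
    refine (sum_le_sum h3).trans (le_of_eq ?_)
    rw [sum_const, nsmul_eq_mul, card_range, mul_one]
  · intro c
    have h3 : ∑ m ∈ Icc 1 Q, g m * exI (ua y) ((m : ℤ) + (c : ℤ)) =
        (∑ j ∈ range J, ∑ a ∈ A, ua y (a + j * y + c)) / J := by
      rw [hg]
      show ∑ m ∈ Icc 1 Q, ((∑ j ∈ range J, ∑ a ∈ A, if a + j * y = m then (1 : ℂ) else 0) / J) * exI (ua y) ((m : ℤ) + (c : ℤ)) = _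
      have h4 : ∀ m ∈ Icc 1 Q, ((∑ j ∈ range J, ∑ a ∈ A, if a + j * y = m then (1 : ℂ) else 0) / J) * exI (ua y) ((m : ℤ) + (c : ℤ)) =
          (∑ j ∈ range J, ∑ a ∈ A, if a + j * y = m then exI (ua y) ((m : ℤ) + (c : ℤ)) else 0) / J := by
        intro m _
        rw [div_mul_eq_mul_div, sum_mul]
        congr 1
        apply sum_congr rfl
        intro j _
        rw [sum_mul]
        apply sum_congr rfl
        intro a _
        rw [ite_mul, one_mul, zero_mul]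
      rw [sum_congr rfl h4, ← sum_div, sum_comm]
      congr 1
      apply sum_congr rfl
      intro j hj
      rw [sum_comm]
      apply sum_congr rfl
      intro a ha
      rw [mem_range] at hj
      obtain ⟨ha1, ha2⟩ := hA a ha
      have h5 : j * y ≤ J * y := Nat.mul_le_mul_right _ hj.le
      have h6 : a + j * y ∈ Icc 1 Q := by
        rw [mem_Icc]
        omega
      rw [sum_ite_eq, if_pos h6]
      unfold exI
      rw [if_pos (by push_cast; omega)]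
      congr 1
    rw [h3]
    have h4 : ∑ j ∈ range J, ∑ a ∈ A, ua y (a + j * y + c) = ((∑ a ∈ A, ∑ j ∈ range J, (av y (a + c + j * y) - 1) : ℝ) : ℂ) := by
      rw [sum_comm]
      push_cast
      apply sum_congr rfl
      intro a _
      apply sum_congr rfl
      intro j _
      unfold ua
      push_cast
      rw [show a + j * y + c = a + c + j * y by ring]
    have h5 : ∀ a ∈ A, ∑ j ∈ range J, (av y (a + c + j * y) - 1) = J * (av (J * y) (a + c) - 1) := by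
      intro a _
      rw [sum_sub_distrib, av_blocks y (a + c) J hy hJ, sum_const, nsmul_eq_mul, card_range]
      ring
    rw [h4, sum_congr rfl h5, ← mul_sum]
    push_cast
    rw [mul_div_cancel_left₀ _ hJc, sum_sub_distrib, sum_const, nsmul_eq_mul, mul_one]

/-- for almost all shifts, the averages over all the sets are right -/
theorem av_prob (b F : ℕ) (hb : 2 ≤ b) (hF : 1 ≤ F) (T U D : ℕ) : ∃ κ₀ : ℕ, ∀ κ : ℕ, ∃ K₀ : ℕ, ∀ K : ℕ, K₀ ≤ K →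
    ∀ (ι : Type) (Ω : Finset ι) (p : ι → ℝ) (Y : ι → ℤ), Law b F D (3 * U + T + 6) K Ω p Y →
    ∀ Q : ℕ, (∀ ω ∈ Ω, -((b ^ K : ℕ) : ℤ) < Y ω ∧ (Q : ℤ) + Y ω ≤ ((b ^ K : ℕ) : ℤ)) → Q ≤ b ^ K →
    ∀ y : ℕ, K ^ κ₀ ≤ y → y ≤ K ^ κ → ∀ I : Finset (ℕ × ℕ), (I.card : ℝ) ≤ (K : ℝ) ^ T → ∀ (A : ℕ → Finset ℕ),
    (∀ i ∈ I, 1 ≤ i.2 ∧ ∀ a ∈ A i.1, 1 ≤ a ∧ a + i.2 * y ≤ Q) →
    ∀ E : ι → Prop, [DecidablePred E] → (∀ ω ∈ Ω, E ω → 0 ≤ Y ω ∧ ∃ i ∈ I,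
      ((b ^ K : ℕ) : ℝ) / (K : ℝ) ^ U < |∑ a ∈ A i.1, av (i.2 * y) (a + (Y ω).toNat) - (A i.1).card|) →
    ∑ ω ∈ Ω, (if E ω then p ω else 0) ≤ 1 / (K : ℝ) ^ U := by
  classical
  obtain ⟨U₁, K1, h1⟩ := u_corr b F hb hF (3 * U + T) D
  obtain ⟨κ₀, h2⟩ := ua_ok b hb U₁
  refine ⟨κ₀, fun κ => ?_⟩
  obtain ⟨K2, h2⟩ := h2 κ
  refine ⟨K1 + K2 + 1, fun K hK ι Ω p Y hlaw Q hYQ hQX y hy1 hy2 I hL A hA E _ hE => ?_⟩
  have hK1 : 1 ≤ K := by omega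
  have hKr : (1 : ℝ) ≤ K := by exact_mod_cast hK1
  have hK0 : (0 : ℝ) < K := by linarith
  have hy : 1 ≤ y := (Nat.one_le_pow _ _ (by omega)).trans hy1
  have hok := h2 K (by omega) y hy1 hy2
  have hX0 : (0 : ℝ) < ((b ^ K : ℕ) : ℝ) := by exact_mod_cast Nat.pow_pos (by omega : 0 < b)
  obtain ⟨X, hX⟩ : ∃ X : ℝ, X = ((b ^ K : ℕ) : ℝ) := ⟨_, rfl⟩
  have hwt : ∀ i : ℕ × ℕ, ∃ g : ℕ → ℂ, (∀ m, ‖g m‖ ≤ 1) ∧ (i ∈ I → ∀ c : ℕ, ∑ m ∈ Icc 1 Q, g m * exI (ua y) ((m : ℤ) + (c : ℤ)) =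
      ((∑ a ∈ A i.1, av (i.2 * y) (a + c) - (A i.1).card : ℝ) : ℂ)) := by
    intro i
    by_cases hl : i ∈ I
    · obtain ⟨g, hg1, hg2⟩ := weight Q y i.2 hy (hA i hl).1 (A i.1) (hA i hl).2
      exact ⟨g, hg1, fun _ => hg2⟩
    · exact ⟨fun _ => 0, fun _ => by rw [norm_zero]; exact zero_le_one, fun h => absurd h hl⟩
  choose g hg1 hg2 using hwt
  have hmom : ∀ i, ∑ ω ∈ Ω, p ω * ‖∑ n ∈ Icc 1 Q, g i n * exI (ua y) ((n : ℤ) + Y ω)‖ ^ 2 ≤ X ^ 2 / (K : ℝ) ^ (3 * U + T) := by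
    intro i
    have e1 := h1 K (by omega) (ua y) hok ι Ω p Y hlaw Q hYQ hQX (g i) 1 zero_le_one (fun n _ => hg1 i n)
    rw [one_mul, ← hX] at e1
    exact e1
  rw [← hX] at hE hX0
  have hpt : ∀ ω ∈ Ω, (if E ω then p ω else 0) ≤ ∑ i ∈ I, (K : ℝ) ^ (2 * U) / X ^ 2 *
      (p ω * ‖∑ n ∈ Icc 1 Q, g i n * exI (ua y) ((n : ℤ) + Y ω)‖ ^ 2) := by
    intro ω hω
    have hP0 : 0 ≤ p ω := hlaw.nonneg ω hω
    have t1 : ∀ i ∈ I, 0 ≤ (K : ℝ) ^ (2 * U) / X ^ 2 *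
      (p ω * ‖∑ n ∈ Icc 1 Q, g i n * exI (ua y) ((n : ℤ) + Y ω)‖ ^ 2) := fun i _ => by positivity
    by_cases hEd : E ω
    swap
    · rw [if_neg hEd]
      exact sum_nonneg t1
    rw [if_pos hEd]
    obtain ⟨hY0, i, hi, hbad⟩ := hE ω hω hEd
    have e1 := hg2 i hi (Y ω).toNat
    rw [Int.toNat_of_nonneg hY0] at e1
    refine le_trans ?_ (single_le_sum t1 hi)
    rw [e1, Complex.norm_real, Real.norm_eq_abs]
    obtain ⟨δ, hδ⟩ : ∃ δ : ℝ, δ = |∑ a ∈ A i.1, av (i.2 * y) (a + (Y ω).toNat) - (A i.1).card| := ⟨_, rfl⟩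
    rw [← hδ] at hbad ⊢
    have e2 : 1 ≤ (K : ℝ) ^ (2 * U) / X ^ 2 * δ ^ 2 := by
      have e3 : (X / (K : ℝ) ^ U) ^ 2 ≤ δ ^ 2 := pow_le_pow_left₀ (by positivity) hbad.le 2
      have e4 : (K : ℝ) ^ (2 * U) / X ^ 2 * (X / (K : ℝ) ^ U) ^ 2 = 1 := by
        rw [pow_mul', div_pow]
        field_simp
      rw [← e4]
      exact mul_le_mul_of_nonneg_left e3 (by positivity)
    calc p ω = p ω * 1 := (mul_one _).symm
      _ ≤ p ω * ((K : ℝ) ^ (2 * U) / X ^ 2 * δ ^ 2) := mul_le_mul_of_nonneg_left e2 hP0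
      _ = _ := by ring
  refine (sum_le_sum hpt).trans ?_
  rw [sum_comm]
  have h3 : ∀ i ∈ I, ∑ ω ∈ Ω, (K : ℝ) ^ (2 * U) / X ^ 2 *
      (p ω * ‖∑ n ∈ Icc 1 Q, g i n * exI (ua y) ((n : ℤ) + Y ω)‖ ^ 2) ≤
      (K : ℝ) ^ (2 * U) / X ^ 2 * (X ^ 2 / (K : ℝ) ^ (3 * U + T)) := by
    intro i _
    rw [← mul_sum]
    exact mul_le_mul_of_nonneg_left (hmom i) (by positivity)
  refine (sum_le_sum h3).trans ?_
  rw [sum_const, nsmul_eq_mul]
  have h4 : (K : ℝ) ^ (2 * U) / X ^ 2 * (X ^ 2 / (K : ℝ) ^ (3 * U + T)) = 1 / (K : ℝ) ^ (U + T) := by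
    rw [show 3 * U + T = 2 * U + (U + T) by ring, pow_add (K : ℝ) (2 * U) (U + T)]
    field_simp
  rw [h4]
  calc (I.card : ℝ) * (1 / (K : ℝ) ^ (U + T)) ≤ (K : ℝ) ^ T * (1 / (K : ℝ) ^ (U + T)) := mul_le_mul_of_nonneg_right hL (by positivity)
    _ = 1 / (K : ℝ) ^ U := by
        rw [pow_add]
        field_simp

end Pool.Agent.V11251.SI
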