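import Pool.Agent.TH894.LH4
import Pool.Agent.W93.AU13

set_option autoImplicit false

/-! Correlations with a function which may depend on the length, at shifts of an arbitrary law. -/

namespace Pool.Agent.V11251.SI
open Finset
open Pool.Agent.H807R2.Dav
open Pool.Agent.H373R2.T7 (exI orth conj_ee)
open Pool.Agent.W93.DG
open Pool.Agent.W93.RD
open Pool.Agent.W93.TD (sqrt_num)
open Pool.Agent.W93.LM
open Pool.Agent.W93.AU
open Pool.Agent.TH894.LH (bad_sqU)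

/-- the three properties of the function -/
def Ok (b U₁ K : ℕ) (f : ℕ → ℂ) : Prop :=
  (∀ n ∈ Icc 1 (b ^ K), ‖f n‖ ≤ (K : ℝ) ^ 2) ∧
  (∀ α : ℝ, ‖∑ n ∈ Icc 1 (b ^ K), f n * ee ((n : ℝ) * α)‖ ≤ ((b ^ K : ℕ) : ℝ) / Real.log ((b ^ K : ℕ) : ℝ) ^ U₁) ∧
  PP f 4000000 8 (b ^ K) (b ^ (K / (16 * b)))

/-- the second moment is small -/
theorem u_var (b F : ℕ) (hb : 2 ≤ b) (hF : 1 ≤ F) (U D : ℕ) : ∃ U₁ K₀ : ℕ, ∀ K : ℕ, K₀ ≤ K → ∀ f : ℕ → ℂ, Ok b U₁ K f →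
    ∀ (ι : Type) (Ω : Finset ι) (p : ι → ℝ) (Y : ι → ℤ), Law b F D (U + 6) K Ω p Y →
    ∀ (g : ℕ → ℂ) (Fb : ℝ), 0 ≤ Fb → (∀ n ∈ Icc 1 (b ^ K), ‖g n‖ ≤ Fb) →
    ∀ A : ℕ → ℂ, (∀ r, ‖A r‖ = ‖FC g (b ^ K) (b ^ (K + 1)) r‖ * ‖FC f (b ^ K) (b ^ (K + 1)) r‖) →
    ∑ ω ∈ Ω, p ω * ‖EE A (b ^ (K + 1)) (Y ω)‖ ^ 2 ≤ (Fb * ((b ^ (K + 1) : ℕ) : ℝ) * ((b ^ K : ℕ) : ℝ)) ^ 2 / (K : ℝ) ^ U := by
  classical
  have hbr : (2 : ℝ) ≤ b := by exact_mod_cast hb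
  obtain ⟨R, hR, hbad⟩ := bad_sqU b hb
  obtain ⟨A₁, U₁, hUA, k1, h1⟩ := hbad F (max (2 * (U + 6)) (D * R))
  obtain ⟨k3, h3⟩ := hh_small b A₁ 4 hb
  obtain ⟨k4, hk4⟩ := exists_nat_ge ((1 : ℝ) * (1 + 1))
  refine ⟨U₁, k1 + k3 + k4 + 4, fun K hk f hf ι Ω p Yv hlaw gf Fb hFb0 hFb Af hAf => ?_⟩
  obtain ⟨hf1, hf2, hf3⟩ := hf
  obtain ⟨X, hX⟩ : ∃ X, X = b ^ K := ⟨_, rfl⟩
  obtain ⟨M, hM⟩ : ∃ M, M = b ^ (K + 1) := ⟨_, rfl⟩
  have hchar := hlaw.char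
  rw [← hX] at hFb hAf hf1 ⊢
  rw [← hM] at hAf hchar ⊢
  have hKX : K < X := by rw [hX]; exact Nat.lt_pow_self (by omega)
  have hXM : X ≤ M := by rw [hX, hM]; exact Nat.pow_le_pow_right (by omega) (by omega)
  have hX0 : (0 : ℝ) < X := by exact_mod_cast (by omega : 0 < X)
  have hM0 : (0 : ℝ) < M := by exact_mod_cast (by omega : 0 < M)
  have hK4 : (4 : ℝ) ≤ K := by exact_mod_cast (by omega : 4 ≤ K)
  obtain ⟨G, hG⟩ : ∃ G : ℕ → ℂ, G = FC f X M := ⟨_, rfl⟩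
  rw [← hG] at hAf
  have hG2 : ∑ r ∈ range M, ‖G r‖ ^ 2 ≤ (K : ℝ) ^ 4 * (M * X) := by
    rw [hG, FC_pars f X M (by omega) hXM]
    have h4 : ∀ n ∈ Icc 1 X, ‖f n‖ ^ 2 ≤ (K : ℝ) ^ 4 := fun n hn => by
      calc ‖f n‖ ^ 2 ≤ ((K : ℝ) ^ 2) ^ 2 := pow_le_pow_left₀ (norm_nonneg _) (hf1 n hn) 2
        _ = (K : ℝ) ^ 4 := by rw [← pow_mul]
    have h5 : ∑ n ∈ Icc 1 X, ‖f n‖ ^ 2 ≤ X * (K : ℝ) ^ 4 := by
      refine (sum_le_sum h4).trans (le_of_eq ?_)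
      rw [sum_const, Nat.card_Icc, nsmul_eq_mul, Nat.add_sub_cancel]
    calc (M : ℝ) * ∑ n ∈ Icc 1 X, ‖f n‖ ^ 2 ≤ M * (X * (K : ℝ) ^ 4) := mul_le_mul_of_nonneg_left h5 hM0.le
      _ = _ := by ring
  obtain ⟨Fn, hFn⟩ : ∃ Fn : ℕ → ℝ, Fn = fun r => ‖FC gf X M r‖ := ⟨_, rfl⟩
  have hAf' : ∀ r, ‖Af r‖ = Fn r * ‖G r‖ := fun r => by rw [hAf, hFn]
  have hFn0 : ∀ r, 0 ≤ Fn r := fun r => by rw [hFn]; exact norm_nonneg _
  have hF2 : ∑ r ∈ range M, Fn r ^ 2 ≤ M * (Fb ^ 2 * X) := by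
    rw [hFn]
    simp only
    rw [FC_pars gf X M (by omega) hXM]
    apply mul_le_mul_of_nonneg_left _ (Nat.cast_nonneg _)
    have h1 : ∀ n ∈ Icc 1 X, ‖gf n‖ ^ 2 ≤ Fb ^ 2 := fun n hn => pow_le_pow_left₀ (norm_nonneg _) (hFb n hn) 2
    refine (sum_le_sum h1).trans (le_of_eq ?_)
    rw [sum_const, Nat.card_Icc, nsmul_eq_mul, Nat.add_sub_cancel, mul_comm]
  -- the bound of the characteristic function
  obtain ⟨s, hs⟩ : ∃ s : ℕ → ℕ → ℕ, s = fun r r' => (F * r' + F * (M - r)) % M := ⟨_, rfl⟩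
  obtain ⟨g, hg⟩ : ∃ g : ℕ → ℝ, g = fun t => if D * (Nat.log b K + 1) ≤ ne b 0 K ((F * t) % M) then 1 / (K : ℝ) ^ (U + 6) else 1 := ⟨_, rfl⟩
  have hgt : ∀ t, g t = if D * (Nat.log b K + 1) ≤ ne b 0 K ((F * t) % M) then 1 / (K : ℝ) ^ (U + 6) else 1 := fun t => by rw [hg]
  have hK1 : (1 : ℝ) ≤ (K : ℝ) ^ (U + 6) := one_le_pow₀ (by linarith)
  have hg1 : ∀ t, g t ≤ 1 := by
    intro t
    rw [hgt]
    split_ifs
    · rw [div_le_one (by linarith)]; exact hK1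
    · exact le_rfl
  have hg0 : ∀ t, 0 ≤ g t := by
    intro t
    rw [hgt]
    split_ifs
    · positivity
    · norm_num
  have hvar := gen_var Ω p hlaw.nonneg Yv M (by omega) Af g (by
    intro t
    rw [hgt]
    split_ifs with hc
    · exact hchar t hc
    · refine (norm_sum_le _ _).trans (le_trans ?_ hlaw.le_one)
      apply sum_le_sum
      intro ω hω
      rw [norm_mul, norm_ee, mul_one, Complex.norm_real, Real.norm_of_nonneg (hlaw.nonneg ω hω)])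
  refine hvar.trans ?_
  clear hvar
  obtain ⟨T, hTd⟩ : ∃ T, T = ∑ r ∈ range M, Fn r * ‖G r‖ := ⟨_, rfl⟩
  have hT0 : 0 ≤ T := by rw [hTd]; exact sum_nonneg fun r _ => mul_nonneg (hFn0 r) (norm_nonneg _)
  obtain ⟨Y, hY⟩ : ∃ Y, Y = Fb * M * X := ⟨_, rfl⟩
  have hY0 : 0 ≤ Y := by rw [hY]; positivity
  have hT' : T ≤ 1 * (K : ℝ) ^ 2 * Y := by
    have e1 := Real.sum_mul_le_sqrt_mul_sqrt (range M) Fn (fun r => ‖G r‖)
    have e2 : T ≤ √(M * (Fb ^ 2 * X)) * ((K : ℝ) ^ 2 * √(M * X)) := by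
      rw [hTd]
      refine e1.trans ?_
      have e3 : √((K : ℝ) ^ 4 * (M * X)) = (K : ℝ) ^ 2 * √(M * X) := by
        rw [Real.sqrt_mul (by positivity), show (K : ℝ) ^ 4 = ((K : ℝ) ^ 2) ^ 2 by rw [← pow_mul], Real.sqrt_sq (by positivity)]
      rw [← e3]
      exact mul_le_mul (Real.sqrt_le_sqrt hF2) (Real.sqrt_le_sqrt hG2) (Real.sqrt_nonneg _) (Real.sqrt_nonneg _)
    have e4 := sqrt_num3 M X Fb (M * X) hM0.le hX0.le hFb0 le_rfl
    rw [← hY] at e4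
    calc T ≤ √(M * (Fb ^ 2 * X)) * ((K : ℝ) ^ 2 * √(M * X)) := e2
      _ = (K : ℝ) ^ 2 * (√(M * (Fb ^ 2 * X)) * √(M * X)) := by ring
      _ ≤ (K : ℝ) ^ 2 * Y := mul_le_mul_of_nonneg_left e4 (by positivity)
      _ = _ := by ring
  -- the rows
  have hrow : ∀ r ∈ range M, ∑ r' ∈ range M, ‖Af r'‖ * g (r' + (M - r)) ≤ Y / (K : ℝ) ^ (U + 6) + 1 / (K : ℝ) ^ (U + 6) * T := by
    intro r hr
    rw [mem_range] at hr
    have hss : ∀ r', (F * r' + F * (M - r)) % M = s r r' := fun r' => by rw [hs]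
    rw [← sum_filter_add_sum_filter_not (range M) (fun r' => Bad b R K (hh b A₁ K) (K / (16 * b)) (s r r'))]
    apply add_le_add
    · have e1 := h1 K (by omega) f hf2 hf3 (F * (M - r)) F hF
        ((Nat.lt_pow_self (by omega : 1 < b)).le) ((range M).filter (fun r' => Bad b R K (hh b A₁ K) (K / (16 * b)) (s r r'))) (by
          intro r' hr'
          rw [mem_filter, mem_range] at hr'
          rw [← hM, hss]
          exact hr')
      rw [← hX, ← hM, ← hG] at e1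
      have e2 : ∑ r' ∈ (range M).filter (fun r' => Bad b R K (hh b A₁ K) (K / (16 * b)) (s r r')), ‖Af r'‖ * g (r' + (M - r)) ≤
          ∑ r' ∈ (range M).filter (fun r' => Bad b R K (hh b A₁ K) (K / (16 * b)) (s r r')), Fn r' * ‖G r'‖ := by
        apply sum_le_sum
        intro r' _
        rw [hAf' r']
        exact mul_le_of_le_one_right (mul_nonneg (hFn0 _) (norm_nonneg _)) (hg1 _)
      have e3 := Real.sum_mul_le_sqrt_mul_sqrt ((range M).filter (fun r' => Bad b R K (hh b A₁ K) (K / (16 * b)) (s r r')))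
        Fn (fun r => ‖G r‖)
      refine e2.trans (e3.trans ?_)
      have e4 : ∑ r' ∈ (range M).filter (fun r' => Bad b R K (hh b A₁ K) (K / (16 * b)) (s r r')), Fn r' ^ 2 ≤ M * (Fb ^ 2 * X) :=
        (sum_le_sum_of_subset_of_nonneg (filter_subset _ _) fun _ _ _ => sq_nonneg _).trans hF2
      have e5 := sqrt_num M X Fb _ hM0.le hX0.le hFb0 (U + 6) K (by linarith) (e1.trans (by
        apply div_le_div_of_nonneg_left (by positivity) (by positivity)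
        exact pow_le_pow_right₀ (by linarith) (le_max_left _ _)))
      rw [hY]
      exact (mul_le_mul_of_nonneg_right (Real.sqrt_le_sqrt e4) (Real.sqrt_nonneg _)).trans e5
    · have e1 : ∀ r' ∈ (range M).filter (fun r' => ¬ Bad b R K (hh b A₁ K) (K / (16 * b)) (s r r')),
          ‖Af r'‖ * g (r' + (M - r)) ≤ (Fn r' * ‖G r'‖) * (1 / (K : ℝ) ^ (U + 6)) := by
        intro r' hr'
        rw [mem_filter] at hr'
        rw [hAf' r']
        apply mul_le_mul_of_nonneg_left _ (mul_nonneg (hFn0 _) (norm_nonneg _))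
        rw [hgt, if_pos]
        have hmod : (F * (r' + (M - r))) % M = s r r' := by rw [← hss, mul_add]
        rw [hmod]
        have hnb := hr'.2
        unfold Bad at hnb
        by_contra hcon
        push Not at hcon
        have h4 := h3 K (by omega)
        have hbound : ne b 0 K (s r r') * R ≤ 2 * hh b A₁ K := by
          have a1 : ne b 0 K (s r r') * R ≤ D * (Nat.log b K + 1) * R := Nat.mul_le_mul_right _ hcon.le
          refine a1.trans ?_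
          unfold hh
          have a2 : D * R ≤ A₁ := (le_max_right _ _).trans hUA
          calc D * (Nat.log b K + 1) * R = (D * R) * (Nat.log b K + 1) := by ring
            _ ≤ A₁ * (Nat.log b K + 1) := Nat.mul_le_mul_right _ a2
            _ ≤ 4 * (A₁ * (Nat.log b K + 1)) := by omega
            _ = 2 * (2 * A₁ * (Nat.log b K + 1)) := by ring
        have hm2 : 2 * (K / (16 * b) / 8) ≤ K := by
          have a1 : K / (16 * b) / 8 * 8 ≤ K / (16 * b) := Nat.div_mul_le_self _ _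
          have a2 : K / (16 * b) ≤ K := Nat.div_le_self _ _
          omega
        apply hnb
        refine ⟨?_, ?_, ?_⟩
        · have a1 := ne_window b (K - 1 - hh b A₁ K) (hh b A₁ K) 0 K (s r r') (by omega) (by omega)
          have a2 := Nat.mul_le_mul_right R a1
          omega
        · have a1 := ne_window b 1 (hh b A₁ K) 0 K (s r r') (by omega) (by omega)
          have a2 := Nat.mul_le_mul_right R a1
          omega
        · have a1 := ne_window b (K / (16 * b) / 8) (K - 2 * (K / (16 * b) / 8)) 0 K (s r r') (by omega) (by omega)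
          have a2 := Nat.mul_le_mul_right R a1
          omega
      refine (sum_le_sum e1).trans ?_
      rw [← sum_mul, mul_comm]
      apply mul_le_mul_of_nonneg_left _ (by positivity)
      rw [hTd]
      exact sum_le_sum_of_subset_of_nonneg (filter_subset _ _) fun _ _ _ => mul_nonneg (hFn0 _) (norm_nonneg _)
  have hsum2 : ∑ r ∈ range M, ‖Af r‖ * ∑ r' ∈ range M, ‖Af r'‖ * g (r' + (M - r)) ≤
      T * (Y / (K : ℝ) ^ (U + 6) + 1 / (K : ℝ) ^ (U + 6) * T) := by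
    have : ∀ r ∈ range M, ‖Af r‖ * ∑ r' ∈ range M, ‖Af r'‖ * g (r' + (M - r)) ≤
        (Fn r * ‖G r‖) * (Y / (K : ℝ) ^ (U + 6) + 1 / (K : ℝ) ^ (U + 6) * T) := fun r hr => by
      rw [hAf' r]
      exact mul_le_mul_of_nonneg_left (hrow r hr) (mul_nonneg (hFn0 _) (norm_nonneg _))
    refine (sum_le_sum this).trans (le_of_eq ?_)
    rw [← sum_mul, hTd]
  refine hsum2.trans ?_
  rw [← hY]
  exact var_num2 T Y 1 K U (by linarith) hY0 hT0 zero_le_one hT' (hk4.trans (by exact_mod_cast (by omega : k4 ≤ K)))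


/-- the second moment of the correlations -/
theorem u_corr (b F : ℕ) (hb : 2 ≤ b) (hF : 1 ≤ F) (U D : ℕ) : ∃ U₁ K₀ : ℕ, ∀ K : ℕ, K₀ ≤ K → ∀ f : ℕ → ℂ, Ok b U₁ K f →
    ∀ (ι : Type) (Ω : Finset ι) (p : ι → ℝ) (Y : ι → ℤ), Law b F D (U + 6) K Ω p Y →
    ∀ N : ℕ, (∀ ω ∈ Ω, -((b ^ K : ℕ) : ℤ) < Y ω ∧ (N : ℤ) + Y ω ≤ ((b ^ K : ℕ) : ℤ)) → N ≤ b ^ K →
    ∀ (g : ℕ → ℂ) (Fb : ℝ), 0 ≤ Fb → (∀ n ∈ Icc 1 N, ‖g n‖ ≤ Fb) →
    ∑ ω ∈ Ω, p ω * ‖∑ n ∈ Icc 1 N, g n * exI f ((n : ℤ) + Y ω)‖ ^ 2 ≤ (Fb * ((b ^ K : ℕ) : ℝ)) ^ 2 / (K : ℝ) ^ U := by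
  classical
  obtain ⟨U₁, K₀, h0⟩ := u_var b F hb hF U D
  refine ⟨U₁, K₀ + 1, fun K hk f hf ι Ω p Y hlaw N hY hNX g Fb hFb0 hFb => ?_⟩
  have hbn : 0 < b := by omega
  obtain ⟨g', hg'⟩ : ∃ g' : ℕ → ℂ, g' = fun n => if n ≤ N then g n else 0 := ⟨_, rfl⟩
  have hg0 : ∀ n, N < n → g' n = 0 := by
    intro n hn
    rw [hg']
    simp only
    rw [if_neg (by omega)]
  have hg1 : ∀ n, n ≤ N → g' n = g n := by
    intro n hn
    rw [hg']
    simp only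
    rw [if_pos hn]
  have h1 := h0 K (by omega) f hf ι Ω p Y hlaw (fun n => (starRingEnd ℂ) (g' n)) Fb hFb0 (by
    intro n hn
    rw [RCLike.norm_conj]
    rcases Nat.lt_or_ge N n with h | h
    · rw [hg0 n h, norm_zero]; exact hFb0
    · rw [hg1 n h]; exact hFb n (mem_Icc.2 ⟨(mem_Icc.1 hn).1, h⟩))
    (fun r => (starRingEnd ℂ) (FC (fun n => (starRingEnd ℂ) (g' n)) (b ^ K) (b ^ (K + 1)) r) * FC f (b ^ K) (b ^ (K + 1)) r) (by
      intro r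
      rw [norm_mul, RCLike.norm_conj])
  have hX1 : 1 ≤ b ^ K := Nat.pow_pos hbn
  have hM0 : (0 : ℝ) < ((b ^ (K + 1) : ℕ) : ℝ) := by exact_mod_cast Nat.pow_pos hbn
  have h2 : ∀ ω ∈ Ω, p ω * ‖EE (fun r => (starRingEnd ℂ) (FC (fun n => (starRingEnd ℂ) (g' n)) (b ^ K) (b ^ (K + 1)) r) *
      FC f (b ^ K) (b ^ (K + 1)) r) (b ^ (K + 1)) (Y ω)‖ ^ 2 =
      ((b ^ (K + 1) : ℕ) : ℝ) ^ 2 * (p ω * ‖∑ n ∈ Icc 1 N, g n * exI f ((n : ℤ) + Y ω)‖ ^ 2) := by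
    intro ω hω
    have hMX : 2 * b ^ K ≤ b ^ (K + 1) := by
      rw [pow_succ, mul_comm]
      exact Nat.mul_le_mul_left _ hb
    have h3 := EE_corrC g' f (b ^ K) (b ^ (K + 1)) N hX1 hMX hNX hg0 (Y ω) (hY ω hω).1 (hY ω hω).2
    rw [h3, norm_mul, Complex.norm_natCast]
    have h4 : ∑ n ∈ Icc 1 N, g' n * (if 1 ≤ (n : ℤ) + Y ω then f ((n : ℤ) + Y ω).toNat else 0) =
        ∑ n ∈ Icc 1 N, g n * exI f ((n : ℤ) + Y ω) := by
      apply sum_congr rfl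
      intro n hn
      rw [hg1 n (mem_Icc.1 hn).2]
      rfl
    rw [h4]
    ring
  rw [sum_congr rfl h2, ← mul_sum] at h1
  have h6 : ((b ^ (K + 1) : ℕ) : ℝ) ^ 2 * ∑ ω ∈ Ω, p ω * ‖∑ n ∈ Icc 1 N, g n * exI f ((n : ℤ) + Y ω)‖ ^ 2 ≤
      ((b ^ (K + 1) : ℕ) : ℝ) ^ 2 * ((Fb * ((b ^ K : ℕ) : ℝ)) ^ 2 / (K : ℝ) ^ U) := by
    refine h1.trans (le_of_eq ?_)
    ring
  exact le_of_mul_le_mul_left h6 (by positivity)

end Pool.Agent.V11251.SI
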